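import Pool.Agent.Lib.MP_5364dc_lc.Dir

/-! The finite automaton on block words. -/

namespace Pool.Agent.Lib.MP_5364dc_lc

def wd (S : List ℕ) : List Bool := tile [false] [true] S

def InS (i : ℕ) (H : List ℕ) (d : ℕ) (S : List ℕ) : Prop :=
  (S <+: H ∧ d ≤ S.length) ∨ ∃ n, n ≤ i ∧ S = H ++ [n]

def SE (i : ℕ) (H : List ℕ) (d : ℕ) (S : List ℕ) : Prop :=
  InS i H d S ∧ ∃ S' s, S = S' ++ [s] ∧ s ≤ i

def I0 (i : ℕ) (H : List ℕ) (d : ℕ) (v : List Bool) : Prop :=
  (∃ S t, SE i H d S ∧ t ≠ [] ∧ wd S = t ++ v) ∧ 2 ≤ v.count true ∧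
    ¬ ∃ S t, SE i H d S ∧ v = t ++ wd S

def II (i j : ℕ) (H : List ℕ) (d : ℕ) (v : List Bool) : Prop :=
  (∃ n, n ≤ i ∧ v = pw [false] n ++ [true]) ∨
    ∃ c v', c ≤ j + 1 ∧ I0 i H d v' ∧ v = pw [false] c ++ v'

open Classical in
noncomputable def dl (i j : ℕ) (H : List ℕ) (d : ℕ) (z : Bool) :
    Option (List Bool) → Option (List Bool)
  | none => some []
  | some v => if II i j H d (z :: v) then some (z :: v) else some []

noncomputable def ds (i j : ℕ) (H : List ℕ) (d : ℕ) (w : List Bool) (s : Option (List Bool)) :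
    Option (List Bool) := w.foldr (dl i j H d) s

variable {i j d : ℕ} {H : List ℕ}

theorem ds_append (u v : List Bool) (s : Option (List Bool)) :
    ds i j H d (u ++ v) s = ds i j H d u (ds i j H d v s) := by
  simp [ds]

theorem ds_cons (c : Bool) (v : List Bool) (s : Option (List Bool)) :
    ds i j H d (c :: v) s = dl i j H d c (ds i j H d v s) := rfl

@[simp] theorem ds_nil (s : Option (List Bool)) : ds i j H d [] s = s := rfl

theorem dl_pos {z : Bool} {v : List Bool} (h : II i j H d (z :: v)) :
    dl i j H d z (some v) = some (z :: v) := by simp [dl, h]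

theorem dl_neg {z : Bool} {v : List Bool} (h : ¬ II i j H d (z :: v)) :
    dl i j H d z (some v) = some [] := by simp [dl, h]

@[simp] theorem dl_none (z : Bool) : dl i j H d z none = some [] := rfl

@[simp] theorem count_pwX (n : ℕ) : (pw [false] n).count true = 0 := by
  induction n with
  | zero => rfl
  | succ n ih => simp [pw_succ, ih]

theorem count_wd (S : List ℕ) : (wd S).count true = S.length + 1 := by
  induction S with
  | nil => rfl
  | cons s S ih =>
    unfold wd at *
    simp [tile_cons, ih]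

theorem wd_snoc (S : List ℕ) (g : ℕ) : wd (S ++ [g]) = wd S ++ (pw [false] g ++ [true]) :=
  tile_append _ _ _ _ _

theorem wd_last (S : List ℕ) : (wd S).getLast? = some true := by
  rcases List.eq_nil_or_concat S with rfl | ⟨S, g, rfl⟩
  · rfl
  · rw [List.concat_eq_append, wd_snoc]; simp

theorem wd_head (S : List ℕ) : ∃ t, wd S = true :: t := tile_head _ _ _

theorem wd_inj {S L : List ℕ} (h : wd S = wd L) : S = L := by
  have h1 := congrArg (List.count true) h
  rw [count_wd, count_wd] at h1
  rcases mm_zero (a := false) (b := true) (by simp) 0 0 S L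
    (Or.inl (by unfold wd at h; rw [h])) with e | ⟨s, T, rfl, _⟩ | ⟨s, T, rfl, _⟩
  · exact e.symm
  · simp at h1
  · simp at h1

theorem wd_suffix (S' : List ℕ) : ∀ (S : List ℕ) (t : List Bool), t ≠ [] → wd S = t ++ wd S' →
    ∃ S3 g, S = S3 ++ g :: S' := by
  intro S
  induction S with
  | nil =>
    intro t ht e
    obtain ⟨u, e'⟩ := wd_head S'
    have h1 := congrArg List.length e
    have h2 := List.length_pos_iff.2 ht
    rw [e'] at h1
    simp [wd] at h1
    omega
  | cons s S ih =>
    intro t ht e
    obtain ⟨c, t, rfl⟩ := List.exists_cons_of_ne_nil ht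
    have e1 : pw [false] s ++ wd S = t ++ wd S' := (List.cons.inj e).2
    rcases List.append_eq_append_iff.1 e1 with ⟨t2, rfl, e2⟩ | ⟨t3, e3, e2⟩
    · by_cases h0 : t2 = []
      · subst h0
        exact ⟨[], s, by rw [wd_inj e2]; rfl⟩
      · obtain ⟨S3, g, rfl⟩ := ih t2 h0 e2
        exact ⟨s :: S3, g, rfl⟩
    · cases t3 with
      | nil => exact ⟨[], s, by rw [wd_inj e2]; rfl⟩
      | cons c3 t3 =>
        obtain ⟨u, e'⟩ := wd_head S'
        have h1 : c3 = true := by rw [e'] at e2; exact (List.cons.inj e2).1.symm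
        have h2 := congrArg (List.count true) e3
        simp [h1] at h2

theorem suf_XB : ∀ (g : ℕ) (t v : List Bool), pw [false] g ++ [true] = t ++ v → v ≠ [] →
    ∃ n, n ≤ g ∧ v = pw [false] n ++ [true] := by
  intro g
  induction g with
  | zero =>
    intro t v e hv
    cases t with
    | nil => exact ⟨0, le_rfl, e.symm⟩
    | cons c t =>
      have := (List.cons.inj e).2
      exact absurd (List.append_eq_nil_iff.1 this.symm).2 hv
  | succ g ih =>
    intro t v e hv
    cases t with
    | nil => exact ⟨g + 1, le_rfl, e.symm⟩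
    | cons c t =>
      obtain ⟨n, h, e⟩ := ih t v (List.cons.inj e).2 hv
      exact ⟨n, by omega, e⟩

theorem suf_one {S : List ℕ} {t v : List Bool} (hS : SE i H d S) (e : wd S = t ++ v) (hv : v ≠ [])
    (hc : v.count true ≤ 1) : ∃ n, n ≤ i ∧ v = pw [false] n ++ [true] := by
  obtain ⟨_, S', s, rfl, hs⟩ := hS
  rw [wd_snoc] at e
  rcases List.append_eq_append_iff.1 e with ⟨t2, _, e2⟩ | ⟨t3, e3, e2⟩
  · obtain ⟨n, h, e⟩ := suf_XB s t2 v e2 hv
    exact ⟨n, by omega, e⟩
  · by_cases h0 : t3 = []
    · subst h0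
      exact ⟨s, hs, e2⟩
    · have h1 := wd_last S'
      rw [e3, List.getLast?_append_of_ne_nil _ h0] at h1
      have h2 : 0 < t3.count true := List.count_pos_iff.2 (List.mem_of_getLast? h1)
      rw [e2] at hc
      simp at hc
      omega

theorem II.count {v : List Bool} (h : II i j H d v) : 1 ≤ v.count true := by
  rcases h with ⟨n, _, rfl⟩ | ⟨c, v', _, h, rfl⟩
  · simp
  · have := h.2.1
    rw [List.count_append]; omega

theorem ds_X (n : ℕ) : ds i j H d (pw [false] n) (some []) = some [] := by
  induction n with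
  | zero => rfl
  | succ n ih =>
    rw [pw_succ, ds_append, ih]
    exact dl_neg fun h => by simpa using h.count

theorem ds_suf : ∀ w : List Bool, (∀ t v, w = t ++ v → v ≠ [] → II i j H d v) →
    ds i j H d w (some []) = some w := by
  intro w
  induction w with
  | nil => intro _; rfl
  | cons c w ih =>
    intro h
    rw [ds_cons, ih fun t v e hv => h (c :: t) v (by rw [e]; rfl) hv]
    exact dl_pos (h [] _ rfl (by simp))

theorem ds_XB_le {n : ℕ} (h : n ≤ i) :
    ds i j H d (pw [false] n ++ [true]) (some []) = some (pw [false] n ++ [true]) := by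
  refine ds_suf _ fun t v e hv => ?_
  obtain ⟨m, h1, e⟩ := suf_XB n t v e hv
  exact Or.inl ⟨m, by omega, e⟩

theorem ds_XB_gt {n : ℕ} (h : i < n) :
    ds i j H d (pw [false] n ++ [true]) (some []) = some [] := by
  obtain ⟨m, rfl⟩ := Nat.exists_eq_add_of_lt h
  rw [show i + m + 1 = m + (1 + i) by omega, pw_add, pw_add, List.append_assoc, List.append_assoc,
    ds_append, ds_append, ds_XB_le le_rfl]
  have : ds i j H d (pw [false] 1) (some (pw [false] i ++ [true])) = some [] := by
    refine dl_neg ?_
    rintro (⟨n, h1, e⟩ | ⟨c, v', _, h1, e⟩)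
    · have := congrArg List.length e
      simp at this; omega
    · have h2 := congrArg (List.count true) e
      have := h1.2.1
      simp at h2; omega
  rw [this, ds_X]

theorem II.of_true {v : List Bool} (h : II i j H d (true :: v)) : v = [] ∨ I0 i H d (true :: v) := by
  rcases h with ⟨n, _, e⟩ | ⟨c, v', _, h, e⟩
  · cases n with
    | zero => exact Or.inl (List.cons.inj e).2
    | succ n => simp [pw_succ] at e
  · cases c with
    | zero => exact Or.inr (by rw [e]; exact h)
    | succ c => simp [pw_succ] at e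

theorem P1 (D : Dir i 0 H d) : ∀ n : ℕ, ∀ S : List ℕ, S.length ≤ n → InS i H d S →
    ds i j H d (wd S) (some []) = some [] := by
  intro n
  induction n using Nat.strong_induction_on with
  | _ n ih =>
    intro S hl hS
    obtain ⟨S0, g, rfl⟩ : ∃ S0 g, S = S0 ++ [g] := by
      rcases List.eq_nil_or_concat S with rfl | ⟨S, g, rfl⟩
      · rcases hS with ⟨_, h⟩ | ⟨n, _, h⟩
        · have := D.pos
          simp at h; omega
        · simp at h
      · exact ⟨S, g, by simp⟩
    simp only [List.length_append, List.length_singleton] at hl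
    by_cases hg : i < g
    · have : InS i H d S0 := by
        rcases hS with ⟨h1, h2⟩ | ⟨n, h1, h2⟩
        · refine Or.inl ⟨(List.prefix_append _ _).trans h1, ?_⟩
          by_contra hc
          have := D.small S0 g h1 (by simp at h2; omega)
          omega
        · have := (List.append_inj' h2 rfl).2
          simp at this; omega
      rw [wd_snoc, ds_append, ds_XB_gt hg]
      exact ih S0.length (by omega) S0 le_rfl this
    have hSE : SE i H d (S0 ++ [g]) := ⟨hS, S0, g, rfl, by omega⟩
    by_cases hc : ∃ S' t, SE i H d S' ∧ t ≠ [] ∧ wd (S0 ++ [g]) = t ++ wd S'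
    · obtain ⟨S', t, h1, h2, h3⟩ := hc
      obtain ⟨S3, g', e⟩ := wd_suffix S' _ t h2 h3
      have l := congrArg List.length e
      simp at l
      obtain ⟨m, hm⟩ : ∃ m, S0 ++ [g] <+: H ++ [m] := by
        rcases hS with ⟨h1, _⟩ | ⟨n, _, h2⟩
        · exact ⟨0, h1.trans (List.prefix_append _ _)⟩
        · exact ⟨n, h2 ▸ List.prefix_rfl⟩
      have l2 := hm.length_le
      simp at l2
      have i3 : InS i H d S3 := by
        obtain ⟨⟨p1, p2⟩ | ⟨n, _, p⟩, S'', s, rfl, hs⟩ := h1
        · refine Or.inl ⟨?_, D.pair S3 g' S'' s m p1 (by simpa using p2) hs (e ▸ hm)⟩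
          exact List.prefix_of_prefix_length_le (List.IsPrefix.trans ⟨_, e.symm⟩ hm)
            (List.prefix_append _ _) (by omega)
        · have := congrArg List.length p
          simp at this l; omega
      rw [e]
      unfold wd
      rw [tile_append, ds_append, ds_append]
      have a1 := ih S'.length (by omega) S' le_rfl h1.1
      have a2 := ih S3.length (by omega) S3 le_rfl i3
      unfold wd at a1 a2
      rw [a1, ds_X, a2]
    · obtain ⟨t0, e0⟩ := wd_head (S0 ++ [g])
      have : ds i j H d t0 (some []) = some t0 := by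
        refine ds_suf _ fun t v e hv => ?_
        have e1 : wd (S0 ++ [g]) = (true :: t) ++ v := by rw [e0, e]; rfl
        by_cases h2 : 2 ≤ v.count true
        · refine Or.inr ⟨0, v, by omega, ⟨⟨_, _, hSE, by simp, e1⟩, h2, ?_⟩, rfl⟩
          rintro ⟨S', t', h3, rfl⟩
          exact hc ⟨S', true :: t ++ t', h3, by simp, by rw [e1]; simp⟩
        · exact Or.inl (suf_one hSE e1 hv (by omega))
      rw [e0, ds_cons, this]
      refine dl_neg fun h => ?_
      rcases h.of_true with rfl | h
      · have := count_wd (S0 ++ [g])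
        rw [e0] at this
        simp at this
      · exact h.2.2 ⟨_, [], hSE, e0.symm⟩

theorem P1' (D : Dir i 0 H d) {S : List ℕ} (h1 : S <+: H) (h2 : d ≤ S.length) (n : ℕ) :
    ds i j H d (wd S ++ pw [false] n) (some []) = some [] := by
  rw [ds_append, ds_X]
  exact P1 D _ S le_rfl (Or.inl ⟨h1, h2⟩)

theorem Pweak (D : Dir i 0 H d) {S : List ℕ} (h1 : S <+: H) (h2 : d + 1 ≤ S.length)
    {s : Option (List Bool)} (hs : s = some [] ∨ s = none) : ds i j H d (wd S) s = some [] := by
  rcases hs with rfl | rfl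
  · exact P1 D _ S le_rfl (Or.inl ⟨h1, by omega⟩)
  · rcases List.eq_nil_or_concat S with rfl | ⟨S, g, rfl⟩
    · simp at h2
    · rw [List.concat_eq_append] at *
      rw [wd_snoc, ← List.append_assoc, ds_append]
      exact P1' D ((List.prefix_append _ _).trans h1) (by simpa using h2) g

theorem ds_X_I0 {v : List Bool} (h : I0 i H d v) : ∀ c, c ≤ j + 1 →
    ds i j H d (pw [false] c) (some v) = some (pw [false] c ++ v) := by
  intro c
  induction c with
  | zero => intro _; rfl
  | succ c ih =>
    intro hc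
    rw [pw_succ, ds_append, ih (by omega)]
    exact dl_pos (Or.inr ⟨c + 1, v, hc, h, rfl⟩)

theorem P2 (D : Dir i 0 H d) (s : Option (List Bool))
    (hs : ds i j H d (pw [false] (j + 1)) s = some []) : ds i j H d (wd H) s = some [] := by
  have hd := D.dz H [] (by simp) (by simp)
  cases s with
  | none => exact Pweak D List.prefix_rfl hd (Or.inr rfl)
  | some v =>
    by_cases h : II i j H d (true :: v)
    · rcases h.of_true with rfl | h0
      · exact Pweak D List.prefix_rfl hd (Or.inl rfl)
      obtain ⟨⟨S, t, a1, a2, a3⟩, a4, a5⟩ := h0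
      have e1 : wd S = (t ++ [true]) ++ v := by rw [a3]; simp
      by_cases h2 : 2 ≤ v.count true
      · have : I0 i H d v := by
          refine ⟨⟨S, _, a1, by simp, e1⟩, h2, ?_⟩
          rintro ⟨S', t', h3, rfl⟩
          exact a5 ⟨S', true :: t', h3, rfl⟩
        rw [ds_X_I0 this _ le_rfl] at hs
        simp [pw_succ] at hs
      · obtain ⟨n, b1, rfl⟩ := suf_one a1 e1 (by rintro rfl; simp at a4) (by omega)
        rw [← ds_XB_le (j := j) (H := H) (d := d) b1, ← ds_append, ← wd_snoc]
        exact P1 D _ _ le_rfl (Or.inr ⟨n, b1, rfl⟩)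
    · rcases List.eq_nil_or_concat H with e | ⟨S, g, e⟩
      · simp [e] at hd
      · rw [List.concat_eq_append] at e
        have p : S <+: H := ⟨_, e.symm⟩
        have l : d ≤ S.length := by rw [e] at hd; simpa using hd
        have := P1' (j := j) D p l g
        conv_lhs => rw [show wd H = wd (S ++ [g]) by rw [← e]]
        rw [wd_snoc, ← List.append_assoc, ds_append, ds_cons, ds_nil, dl_neg h, this]

theorem II.bound : ∃ D, ∀ v, II i j H d v → v.length ≤ D := by
  refine ⟨(wd H).length + i + j + 2, ?_⟩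
  rintro v (⟨n, h, rfl⟩ | ⟨c, v, h, ⟨⟨S, t, ⟨h1, _⟩, _, e⟩, _⟩, rfl⟩)
  · simp; omega
  · have : (wd S).length ≤ (wd H).length + i + 1 := by
      rcases h1 with ⟨⟨T, rfl⟩, _⟩ | ⟨n, h, rfl⟩
      · cases T with
        | nil => simp; omega
        | cons g T => unfold wd; rw [tile_append]; simp; omega
      · rw [wd_snoc]; simp; omega
    rw [e] at this
    simp at this ⊢
    omega

end Pool.Agent.Lib.MP_5364dc_lc
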