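import Pool.Agent.Lib.MP_5364dc_lc.Basic

/-! Completion from a head-parsing automaton. -/

namespace Pool.Agent.Lib.MP_5364dc_lc

variable {A S : Type}

def Det (st : List A → S) (p : List A) : Prop :=
  ∀ w w', st w = st w' → st (p ++ w) = st (p ++ w')

def ADet (Z : Set (List A)) (st : List A → S) (p : List A) : Prop :=
  ∀ v p', Star Z v → p = v ++ p' → Det st p'

theorem Det.nil (st : List A → S) : Det st [] := fun _ _ h => h

theorem Det.append {st : List A → S} {p q : List A} (hp : Det st p) (hq : Det st q) :
    Det st (p ++ q) := by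
  intro w w' h
  rw [List.append_assoc, List.append_assoc]
  exact hp _ _ (hq _ _ h)

theorem Det.star {st : List A → S} {Z : Set (List A)} (h : ∀ z ∈ Z, Det st z) {v : List A}
    (hv : Star Z v) : Det st v :=
  Star.induction (P := Det st) (Det.nil st) (fun x hx _ _ ih => (h x hx).append ih) hv

theorem ADet.det {st : List A → S} {Z : Set (List A)} {p : List A} (h : ADet Z st p) :
    Det st p := h [] p (Star.nil _) rfl

theorem ADet.cancel {st : List A → S} {Z : Set (List A)} {v p : List A} (hv : Star Z v)
    (h : ADet Z st (v ++ p)) : ADet Z st p := by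
  intro v' p' hv' e
  exact h (v ++ v') p' (hv.append hv') (by rw [e, List.append_assoc])

theorem pref_eq {Z : Set (List A)} (hZp : ∀ x ∈ Z, ∀ y ∈ Z, x <+: y → x = y) {x y r s : List A}
    (hx : x ∈ Z) (hy : y ∈ Z) (h : x ++ r = y ++ s) : x = y := by
  rcases List.prefix_or_prefix_of_prefix (l₃ := x ++ r) (List.prefix_append x r) ⟨s, h.symm⟩
    with h1 | h1
  · exact hZp x hx y hy h1
  · exact (hZp y hy x hx h1).symm

theorem exists_adet (Z : Set (List A)) (hZf : Z.Finite) (hZ0 : [] ∉ Z)
    (hZp : ∀ x ∈ Z, ∀ y ∈ Z, x <+: y → x = y) (st : List A → S) (root : S)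
    (hdet : ∀ z ∈ Z, Det st z) (hdead : ∀ w, (∀ z ∈ Z, ¬ z <+: w) → st w = root) (T : ℕ) :
    ∃ N, ∀ W : List A, N ≤ W.length → ∃ p, p <+: W ∧ T ≤ p.length ∧ ADet Z st p := by
  obtain ⟨K, hK⟩ : ∃ M, ∀ g ∈ Z, g.length ≤ M := by
    obtain ⟨M, hM⟩ := (hZf.image List.length).bddAbove
    exact ⟨M, fun g hg => hM ⟨g, hg, rfl⟩⟩
  induction T with
  | zero =>
    refine ⟨0, fun W _ => ⟨[], List.nil_prefix, le_rfl, ?_⟩⟩
    intro v p' _ e
    have : p' = [] := (List.append_eq_nil_iff.1 e.symm).2
    exact this ▸ Det.nil st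
  | succ T ih =>
    obtain ⟨N, hN⟩ := ih
    refine ⟨N + K + T + 1, fun W hW => ?_⟩
    by_cases h : ∃ z ∈ Z, z <+: W
    · obtain ⟨z, hz, W1, rfl⟩ := h
      have h1 := hK z hz
      have h2 : 0 < z.length := List.length_pos_iff.2 fun h0 => hZ0 (h0 ▸ hz)
      obtain ⟨p, hp1, hp2, hp3⟩ := hN W1 (by simp at hW; omega)
      refine ⟨z ++ p, (List.prefix_append_right_inj z).2 hp1, by simp; omega, ?_⟩
      intro v p' hv e
      obtain ⟨zs, hzs, rfl⟩ := hv
      cases zs with
      | nil =>
        have : p' = z ++ p := by simpa using e.symm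
        exact this ▸ (hdet z hz).append hp3.det
      | cons z' zs =>
        have e' : z ++ p = z' ++ (zs.flatten ++ p') := by simpa using e
        have := pref_eq hZp hz (hzs z' List.mem_cons_self) e'
        subst this
        exact hp3 zs.flatten p' ⟨zs, fun y hy => hzs y (List.mem_cons_of_mem _ hy), rfl⟩
          (List.append_cancel_left e')
    · push Not at h
      refine ⟨W, List.prefix_rfl, by omega, ?_⟩
      intro v p' hv e
      obtain ⟨zs, hzs, rfl⟩ := hv
      cases zs with
      | nil =>
        have : p' = W := by simpa using e.symm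
        subst this
        have key : ∀ w, st (p' ++ w) = root := by
          intro w
          refine hdead _ fun z hz hzw => h z hz ?_
          exact List.prefix_of_prefix_length_le hzw (List.prefix_append _ _)
            (by have := hK z hz; omega)
        intro w w' _
        rw [key, key]
      | cons z' zs =>
        exact absurd ⟨zs.flatten ++ p', by simpa using e.symm⟩ (h z' (hzs z' List.mem_cons_self))

inductive Node (Z : Set (List A)) (st : List A → S) (root : S) : List A → Prop
  | nil : Node Z st root []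
  | cons (z g : List A) (hz : z ∈ Z) (hg : Node Z st root g) (h : st (z ++ g) ≠ root) :
      Node Z st root (z ++ g)

theorem lemmaB [Finite A] (Z : Set (List A)) (hZf : Z.Finite) (hZ0 : [] ∉ Z)
    (hZp : ∀ x ∈ Z, ∀ y ∈ Z, x <+: y → x = y) (st : List A → S) (root : S)
    (hdet : ∀ z ∈ Z, Det st z) (hdead : ∀ w, (∀ z ∈ Z, ¬ z <+: w) → st w = root)
    (rk : S → ℕ) (D : ℕ) (hD : ∀ w, rk (st w) ≤ D)
    (hrk : ∀ z ∈ Z, ∀ w, st (z ++ w) ≠ root → rk (st w) < rk (st (z ++ w)))
    (X : Set (List A)) (hXf : X.Finite) (hX0 : [] ∉ X)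
    (hXR : ∀ x ∈ X, ∀ r, st r = root → st (x ++ r) = root)
    (hXu : ∀ x ∈ X, ∀ x' ∈ X, ∀ r r', st r = root → st r' = root → x ++ r = x' ++ r' → x = x')
    (u : List A) (hX : ∀ x ∈ X, x = u ∨ Star Z x)
    (hu : ∀ x ∈ X, ∀ w w', u ++ w = x ++ w' → x = u)
    (T : ℕ) (hT : ∀ p, T ≤ p.length → ADet Z st p → Det st (u ++ p)) : Cpl X := by
  classical
  have hnil : st [] = root := hdead [] fun z hz h => hZ0 (List.prefix_nil.1 h ▸ hz)
  obtain ⟨K, hK⟩ : ∃ M, ∀ g ∈ Z, g.length ≤ M := by
    obtain ⟨M, hM⟩ := (hZf.image List.length).bddAbove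
    exact ⟨M, fun g hg => hM ⟨g, hg, rfl⟩⟩
  obtain ⟨M, hM⟩ : ∃ M, ∀ g ∈ X, g.length ≤ M := by
    obtain ⟨M, hM⟩ := (hXf.image List.length).bddAbove
    exact ⟨M, fun g hg => hM ⟨g, hg, rfl⟩⟩
  have ndet : ∀ g, Node Z st root g → Det st g := by
    intro g hg
    induction hg with
    | nil => exact Det.nil st
    | cons z g hz _ _ ih => exact (hdet z hz).append ih
  have nst : ∀ g, Node Z st root g → ∀ r, st r = root → st (g ++ r) = st g := by
    intro g hg r hr
    have := ndet g hg r [] (by rw [hr, hnil])
    simpa using this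
  have nlen : ∀ g, Node Z st root g → g.length ≤ K * rk (st g) := by
    intro g hg
    induction hg with
    | nil => simp
    | cons z g hz _ h ih =>
      have h1 := hrk z hz g h
      have h2 := hK z hz
      have h3 : K * (rk (st g) + 1) ≤ K * rk (st (z ++ g)) := Nat.mul_le_mul_left _ h1
      rw [List.length_append]
      nlinarith
  have ncov : ∀ n : ℕ, ∀ w : List A, w.length ≤ n →
      ∃ g r, Node Z st root g ∧ st r = root ∧ w = g ++ r := by
    intro n
    induction n with
    | zero =>
      intro w hw
      have : w = [] := List.length_eq_zero_iff.1 (by omega)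
      exact ⟨[], [], Node.nil, hnil, by simp [this]⟩
    | succ n ih =>
      intro w hw
      by_cases h : st w = root
      · exact ⟨[], w, Node.nil, h, rfl⟩
      · have : ∃ z ∈ Z, z <+: w := by
          by_contra hc
          push Not at hc
          exact h (hdead w hc)
        obtain ⟨z, hz, w1, rfl⟩ := this
        have h2 : 0 < z.length := List.length_pos_iff.2 fun h0 => hZ0 (h0 ▸ hz)
        obtain ⟨g, r, hg, hr, rfl⟩ := ih w1 (by simp at hw; omega)
        refine ⟨z ++ g, r, Node.cons z g hz hg ?_, hr, by simp⟩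
        have := hdet z hz _ _ (nst g hg r hr)
        rwa [← this]
  have nun : ∀ g, Node Z st root g → ∀ g', Node Z st root g' → ∀ r r', st r = root →
      st r' = root → g ++ r = g' ++ r' → g = g' := by
    intro g hg
    induction hg with
    | nil =>
      intro g' hg' r r' hr hr' e
      cases hg' with
      | nil => rfl
      | cons z g hz hg h =>
        have := nst _ (Node.cons z g hz hg h) r' hr'
        rw [← e] at this
        exact absurd (this.symm.trans hr) h
    | cons z g hz hg h ih =>
      intro g' hg' r r' hr hr' e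
      cases hg' with
      | nil =>
        have := nst _ (Node.cons z g hz hg h) r hr
        rw [e] at this
        exact absurd (this.symm.trans hr') h
      | cons z' g' hz' hg' h' =>
        rw [List.append_assoc, List.append_assoc] at e
        have := pref_eq hZp hz hz' e
        subst this
        rw [ih g' hg' r r' hr hr' (List.append_cancel_left e)]
  set New : List A → Prop := fun w => st w = root ∧ ¬ ∃ x ∈ X, ∃ s, st s = root ∧ w = x ++ s
    with hNew
  set Good : List A → Prop := fun p => ∀ w w', st w = st w' → New (p ++ w) → New (p ++ w')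
    with hGood
  obtain ⟨N1, hN1⟩ := exists_adet Z hZf hZ0 hZp st root hdet hdead (T + M + 1)
  have gcov : ∀ W : List A, N1 + u.length ≤ W.length → ∃ p, p <+: W ∧ p ≠ [] ∧ Good p := by
    intro W hW
    by_cases h : u <+: W
    · obtain ⟨W', rfl⟩ := h
      obtain ⟨p, h1, h2, h3⟩ := hN1 W' (by simp at hW; omega)
      refine ⟨u ++ p, (List.prefix_append_right_inj u).2 h1, ?_, ?_⟩
      · intro h0
        have := congrArg List.length h0
        simp at this
        have h5 : p.length = 0 := by simp [this.2]
        omega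
      · rintro w w' e ⟨h4, h5⟩
        refine ⟨(hT p (by omega) h3 _ _ e).symm.trans h4, ?_⟩
        rintro ⟨x, hx, s, hs, e2⟩
        rw [List.append_assoc] at e2
        have := hu x hx _ _ e2
        subst this
        have e3 := List.append_cancel_left e2
        refine h5 ⟨x, hx, p ++ w, ?_, by simp⟩
        rw [h3.det _ _ e, e3, hs]
    · obtain ⟨p, h1, h2, h3⟩ := hN1 W (by omega)
      refine ⟨p, h1, ?_, ?_⟩
      · rintro rfl
        simp at h2
      · rintro w w' e ⟨h4, h5⟩
        refine ⟨(h3.det _ _ e).symm.trans h4, ?_⟩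
        rintro ⟨x, hx, s, hs, e2⟩
        have hxp : x <+: p := List.prefix_of_prefix_length_le ⟨s, e2.symm⟩ (List.prefix_append _ _)
          (by have := hM x hx; omega)
        rcases hX x hx with rfl | hs'
        · exact h (hxp.trans h1)
        · obtain ⟨p', rfl⟩ := hxp
          rw [List.append_assoc] at e2
          have e3 := List.append_cancel_left e2
          refine h5 ⟨x, hx, p' ++ w, ?_, by simp⟩
          rw [h3 x p' hs' rfl _ _ e, e3, hs]
  set P : Set (List A) := {p | p ≠ [] ∧ Good p ∧ ∀ q, q <+: p → q ≠ [] → Good q → q = p} with hP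
  have Pf : P.Finite := by
    refine (List.finite_length_le A (N1 + u.length)).subset ?_
    rintro p ⟨_, _, h3⟩
    by_contra hc
    have hc' : N1 + u.length < p.length := not_le.1 hc
    obtain ⟨q, h4, h5, h6⟩ := gcov (p.take (N1 + u.length)) (by simp; omega)
    have h7 := h3 q (h4.trans (List.take_prefix _ _)) h5 h6
    have h8 := h4.length_le
    rw [h7] at h8
    simp at h8
    omega
  have Pcov : ∀ n : ℕ, ∀ q : List A, q.length ≤ n → q ≠ [] → Good q → ∃ p ∈ P, p <+: q := by
    intro n
    induction n with
    | zero => intro q h h0; exact absurd (List.length_eq_zero_iff.1 (by omega)) h0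
    | succ n ih =>
      intro q h h0 hg
      by_cases hc : ∀ q', q' <+: q → q' ≠ [] → Good q' → q' = q
      · exact ⟨q, ⟨h0, hg, hc⟩, List.prefix_rfl⟩
      · push Not at hc
        obtain ⟨q', h1, h2, h3, h4⟩ := hc
        have : q'.length < q.length :=
          lt_of_le_of_ne h1.length_le fun e => h4 (h1.eq_of_length e)
        obtain ⟨p, hp, h5⟩ := ih q' (by omega) h2 h3
        exact ⟨p, hp, h5.trans h1⟩
  have Nf : {g | Node Z st root g}.Finite := by
    refine (List.finite_length_le A (K * D)).subset ?_
    intro g hg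
    exact (nlen g hg).trans (Nat.mul_le_mul_left _ (hD g))
  refine lemmaA X {w | st w = root} (Set.image2 (· ++ ·) P {g | Node Z st root g}) [] hnil hXf hX0
    hXR (fun x hx x' hx' r hr r' hr' => hXu x hx x' hx' r r' hr hr') (Pf.image2 _ Nf) ?_
    (N1 + u.length) ?_ ?_ ?_
  · rintro ⟨p, hp, g, _, e⟩
    exact hp.1 (List.append_eq_nil_iff.1 e).1
  · intro W hW
    obtain ⟨q, h1, h2, h3⟩ := gcov W hW
    obtain ⟨p, hp, h4⟩ := Pcov q.length q le_rfl h2 h3
    obtain ⟨w, rfl⟩ := h4.trans h1
    obtain ⟨g, r, hg, hr, rfl⟩ := ncov w.length w le_rfl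
    exact ⟨p ++ g, ⟨p, hp, g, hg, rfl⟩, r, hr, by simp⟩
  · rintro _ ⟨p, hp, g, hg, rfl⟩ _ ⟨p', hp', g', hg', rfl⟩ r hr r' hr' e
    simp only [List.append_assoc] at e
    have : p = p' := by
      rcases List.prefix_or_prefix_of_prefix (List.prefix_append p (g ++ r)) ⟨_, e.symm⟩
        with h1 | h1
      · exact hp'.2.2 p h1 hp.1 hp.2.1
      · exact (hp.2.2 p' h1 hp'.1 hp'.2.1).symm
    subst this
    rw [nun g hg g' hg' r r' hr hr' (List.append_cancel_left e)]
  · rintro _ ⟨p, hp, g, hg, rfl⟩ r hr r' hr' h
    have := hp.2.1 (g ++ r) (g ++ r') (by rw [nst g hg r hr, nst g hg r' hr'])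
      (by simpa [hNew] using h)
    simpa [hNew] using this

/-- existence of the state function of a head parse -/
theorem exists_st {L : Type} (z : L → List A) (V : L → Prop) (hz0 : ∀ l, V l → z l ≠ [])
    (hzp : ∀ l l', V l → V l' → z l <+: z l' → l = l') (d : L → S → S) (root : S) :
    ∃ st : List A → S, (∀ l w, V l → st (z l ++ w) = d l (st w)) ∧
      ∀ w, (∀ l, V l → ¬ z l <+: w) → st w = root := by
  classical
  let F : ℕ → List A → S := fun n => Nat.rec (fun _ => root)
    (fun _ f w => if h : ∃ l, V l ∧ z l <+: w then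
      d h.choose (f (w.drop (z h.choose).length)) else root) n
  have F1 : ∀ n w, F (n + 1) w = if h : ∃ l, V l ∧ z l <+: w then
      d h.choose (F n (w.drop (z h.choose).length)) else root := fun _ _ => rfl
  have F0 : ∀ w, F 0 w = root := fun _ => rfl
  have stab : ∀ n m : ℕ, ∀ w : List A, w.length ≤ n → w.length ≤ m → F n w = F m w := by
    intro n
    induction n with
    | zero =>
      intro m w h _
      have : w = [] := List.length_eq_zero_iff.1 (by omega)
      subst this
      cases m with
      | zero => rfl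
      | succ m =>
        rw [F0, F1, dif_neg]
        rintro ⟨l, h1, h2⟩
        exact hz0 l h1 (List.prefix_nil.1 h2)
    | succ n ih =>
      intro m w h h'
      cases m with
      | zero =>
        have : w = [] := List.length_eq_zero_iff.1 (by omega)
        subst this
        rw [F0, F1, dif_neg]
        rintro ⟨l, h1, h2⟩
        exact hz0 l h1 (List.prefix_nil.1 h2)
      | succ m =>
        rw [F1, F1]
        split_ifs with hc
        · have h1 : 0 < (z hc.choose).length := List.length_pos_iff.2 (hz0 _ hc.choose_spec.1)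
          rw [ih m _ (by simp; omega) (by simp; omega)]
        · rfl
  refine ⟨fun w => F w.length w, ?_, ?_⟩
  · intro l w hl
    have h1 : 0 < (z l).length := List.length_pos_iff.2 (hz0 _ hl)
    have hc : ∃ l', V l' ∧ z l' <+: z l ++ w := ⟨l, hl, List.prefix_append _ _⟩
    have he : hc.choose = l := by
      rcases List.prefix_or_prefix_of_prefix hc.choose_spec.2 (List.prefix_append _ _) with h | h
      · exact hzp _ _ hc.choose_spec.1 hl h
      · exact (hzp _ _ hl hc.choose_spec.1 h).symm
    show F (z l ++ w).length (z l ++ w) = d l (F w.length w)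
    rw [stab _ (w.length + (z l).length + 1) _ le_rfl (by simp; omega), F1, dif_pos hc, he]
    rw [List.drop_left, stab _ w.length w (by omega) le_rfl]
  · intro w h
    show F w.length w = root
    rw [stab _ (w.length + 1) _ le_rfl (by omega), F1, dif_neg]
    rintro ⟨l, h1, h2⟩
    exact h l h1 h2

end Pool.Agent.Lib.MP_5364dc_lc
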