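import Mathlib

/-! Codes, completeness, and the abstract completion lemma. -/

namespace Pool.Agent.Lib.MP_5364dc_lc

variable {A B : Type}

/-- unique factorization -/
def Code (X : Set (List A)) : Prop :=
  ∀ xs ys : List (List A), (∀ x ∈ xs, x ∈ X) → (∀ y ∈ ys, y ∈ X) →
    xs.flatten = ys.flatten → xs = ys

/-- membership in the generated submonoid -/
def Star (X : Set (List A)) (w : List A) : Prop :=
  ∃ zs : List (List A), (∀ z ∈ zs, z ∈ X) ∧ zs.flatten = w

def Compl (Y : Set (List A)) : Prop := ∀ w, ∃ u v, Star Y (u ++ w ++ v)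

/-- has a finite completion -/
def Cpl (X : Set (List A)) : Prop := ∃ Y : Set (List A), Y.Finite ∧ X ⊆ Y ∧ Code Y ∧ Compl Y

theorem Star.nil (X : Set (List A)) : Star X [] := ⟨[], by simp, rfl⟩

theorem Star.append {X : Set (List A)} {u v : List A} (hu : Star X u) (hv : Star X v) :
    Star X (u ++ v) := by
  obtain ⟨a, ha, rfl⟩ := hu
  obtain ⟨b, hb, rfl⟩ := hv
  refine ⟨a ++ b, ?_, by simp⟩
  intro z hz
  rcases List.mem_append.1 hz with h | h
  · exact ha z h
  · exact hb z h

theorem Star.of_mem {X : Set (List A)} {u : List A} (hu : u ∈ X) : Star X u :=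
  ⟨[u], by simpa using hu, by simp⟩

theorem Star.induction {X : Set (List A)} {P : List A → Prop} (h0 : P [])
    (h1 : ∀ x ∈ X, ∀ w, Star X w → P w → P (x ++ w)) {w : List A} (hw : Star X w) : P w := by
  obtain ⟨zs, hz, rfl⟩ := hw
  induction zs with
  | nil => exact h0
  | cons z zs ih =>
    have h2 : ∀ y ∈ zs, y ∈ X := fun y hy => hz y (List.mem_cons_of_mem _ hy)
    exact h1 z (hz z List.mem_cons_self) _ ⟨zs, h2, rfl⟩ (ih h2)

theorem Star.mono {X Y : Set (List A)} (h : ∀ x ∈ X, Star Y x) {w : List A} (hw : Star X w) :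
    Star Y w :=
  Star.induction (P := fun w => Star Y w) (Star.nil _) (fun x hx _ _ ih => (h x hx).append ih) hw

theorem Cpl.mono {X Y : Set (List A)} (h : X ⊆ Y) (hY : Cpl Y) : Cpl X := by
  obtain ⟨Z, h1, h2, h3, h4⟩ := hY
  exact ⟨Z, h1, h.trans h2, h3, h4⟩

/-- The abstract completion lemma. -/
theorem lemmaA (X R G : Set (List A)) (r0 : List A) (hr0 : r0 ∈ R)
    (hXf : X.Finite) (hX0 : [] ∉ X) (hXR : ∀ x ∈ X, ∀ r ∈ R, x ++ r ∈ R)
    (hXu : ∀ x ∈ X, ∀ x' ∈ X, ∀ r ∈ R, ∀ r' ∈ R, x ++ r = x' ++ r' → x = x')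
    (hGf : G.Finite) (hG0 : [] ∉ G) (N : ℕ)
    (hcov : ∀ w : List A, N ≤ w.length → ∃ g ∈ G, ∃ r ∈ R, w = g ++ r)
    (hGu : ∀ g ∈ G, ∀ g' ∈ G, ∀ r ∈ R, ∀ r' ∈ R, g ++ r = g' ++ r' → g = g')
    (hdet : ∀ g ∈ G, ∀ r ∈ R, ∀ r' ∈ R,
      (g ++ r ∈ R ∧ ¬ ∃ x ∈ X, ∃ s ∈ R, g ++ r = x ++ s) →
      (g ++ r' ∈ R ∧ ¬ ∃ x ∈ X, ∃ s ∈ R, g ++ r' = x ++ s)) : Cpl X := by
  classical
  set C : Set (List A) :=
    X ∪ {g | g ∈ G ∧ g ++ r0 ∈ R ∧ ¬ ∃ x ∈ X, ∃ s ∈ R, g ++ r0 = x ++ s} with hC
  have hCR : ∀ c ∈ C, ∀ r ∈ R, c ++ r ∈ R := by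
    rintro c (hc | ⟨hg, hc⟩) r hr
    · exact hXR c hc r hr
    · exact (hdet c hg r0 hr0 r hr hc).1
  have hC0 : [] ∉ C := by
    rintro (hc | ⟨hg, _⟩)
    · exact hX0 hc
    · exact hG0 hg
  have hCu : ∀ c ∈ C, ∀ c' ∈ C, ∀ r ∈ R, ∀ r' ∈ R, c ++ r = c' ++ r' → c = c' := by
    rintro c (hc | ⟨hg, hc⟩) c' (hc' | ⟨hg', hc'⟩) r hr r' hr' h
    · exact hXu c hc c' hc' r hr r' hr' h
    · exact absurd ⟨c, hc, r, hr, h.symm⟩ (hdet c' hg' r0 hr0 r' hr' hc').2
    · exact absurd ⟨c', hc', r', hr', h⟩ (hdet c hg r0 hr0 r hr hc).2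
    · exact hGu c hg c' hg' r hr r' hr' h
  have hSR : ∀ xs : List (List A), (∀ x ∈ xs, x ∈ C) → xs.flatten ++ r0 ∈ R := by
    intro xs
    induction xs with
    | nil => intro _; simpa using hr0
    | cons x xs ih =>
      intro h
      have := hCR x (h x List.mem_cons_self) _ (ih fun y hy => h y (List.mem_cons_of_mem _ hy))
      simpa using this
  refine ⟨C, hXf.union (hGf.subset fun g hg => hg.1), Set.subset_union_left, ?_, ?_⟩
  · intro xs
    induction xs with
    | nil =>
      intro ys _ hy h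
      cases ys with
      | nil => rfl
      | cons y ys =>
        have : y = [] := by
          have h' : y ++ ys.flatten = [] := by simpa using h.symm
          exact (List.append_eq_nil_iff.1 h').1
        exact absurd (this ▸ hy y List.mem_cons_self) hC0
    | cons x xs ih =>
      intro ys hx hy h
      cases ys with
      | nil =>
        have : x = [] := by
          have h' : x ++ xs.flatten = [] := by simpa using h
          exact (List.append_eq_nil_iff.1 h').1
        exact absurd (this ▸ hx x List.mem_cons_self) hC0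
      | cons y ys =>
        have hx' : ∀ z ∈ xs, z ∈ C := fun z hz => hx z (List.mem_cons_of_mem _ hz)
        have hy' : ∀ z ∈ ys, z ∈ C := fun z hz => hy z (List.mem_cons_of_mem _ hz)
        have h' : x ++ xs.flatten = y ++ ys.flatten := by simpa using h
        have hxy : x = y := by
          refine hCu x (hx x List.mem_cons_self) y (hy y List.mem_cons_self) _ (hSR xs hx') _
            (hSR ys hy') ?_
          rw [← List.append_assoc, h', List.append_assoc]
        subst hxy
        rw [ih ys hx' hy' (List.append_cancel_left h')]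
  · -- completeness
    obtain ⟨M, hM⟩ : ∃ M, ∀ g ∈ G, g.length ≤ M := by
      obtain ⟨M, hM⟩ := (hGf.image List.length).bddAbove
      exact ⟨M, fun g hg => hM ⟨g, hg, rfl⟩⟩
    have key : ∀ n : ℕ, ∀ r ∈ R, r.length ≤ n →
        ∃ s t, Star C s ∧ r = s ++ t ∧ t.length ≤ N := by
      intro n
      induction n with
      | zero => intro r _ h; exact ⟨[], r, Star.nil _, rfl, by omega⟩
      | succ n ih =>
        intro r hr h
        by_cases hN : N ≤ r.length
        · have : ∃ c ∈ C, ∃ s ∈ R, r = c ++ s := by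
            by_cases h1 : ∃ x ∈ X, ∃ s ∈ R, r = x ++ s
            · obtain ⟨x, hx, s, hs, e⟩ := h1
              exact ⟨x, Or.inl hx, s, hs, e⟩
            · obtain ⟨g, hg, s, hs, e⟩ := hcov r hN
              subst e
              exact ⟨g, Or.inr ⟨hg, hdet g hg s hs r0 hr0 ⟨hr, h1⟩⟩, s, hs, rfl⟩
          obtain ⟨c, hc, s, hs, e⟩ := this
          have hc0 : c ≠ [] := fun h0 => hC0 (h0 ▸ hc)
          have hl : 0 < c.length := List.length_pos_iff.2 hc0
          obtain ⟨s', t, h1, h2, h3⟩ := ih s hs (by rw [e] at h; simp at h; omega)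
          exact ⟨c ++ s', t, (Star.of_mem hc).append h1, by rw [e, h2]; simp, h3⟩
        · exact ⟨[], r, Star.nil _, rfl, by omega⟩
    intro w
    cases w with
    | nil => exact ⟨[], [], Star.nil _⟩
    | cons c w =>
      obtain ⟨g, hg, r, hr, e⟩ := hcov (List.replicate M c ++ ((c :: w) ++ List.replicate N c))
        (by simp; omega)
      obtain ⟨s, t, h1, h2, h3⟩ := key r.length r hr le_rfl
      have hp : g <+: List.replicate M c :=
        List.prefix_of_prefix_length_le ⟨r, e.symm⟩ (List.prefix_append _ _)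
          (by simpa using hM g hg)
      obtain ⟨u, hu⟩ := hp
      have e2 : r = u ++ (c :: w) ++ List.replicate N c := by
        rw [← hu, List.append_assoc] at e
        rw [List.append_assoc]
        exact (List.append_cancel_left e).symm
      have hp2 : u ++ (c :: w) <+: s := by
        refine List.prefix_of_prefix_length_le (l₃ := r) ⟨_, e2.symm⟩ ⟨_, h2.symm⟩ ?_
        have h4 := congrArg List.length e2
        have h5 := congrArg List.length h2
        simp at h4 h5 ⊢
        omega
      obtain ⟨v, hv⟩ := hp2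
      exact ⟨u, v, hv ▸ h1⟩

/-- finite prefix codes have a finite completion -/
theorem cpl_of_pref [Finite A] (X : Set (List A)) (hXf : X.Finite) (hX0 : [] ∉ X)
    (hp : ∀ x ∈ X, ∀ y ∈ X, x <+: y → x = y) : Cpl X := by
  obtain ⟨M, hM⟩ : ∃ M, ∀ g ∈ X, g.length ≤ M := by
    obtain ⟨M, hM⟩ := (hXf.image List.length).bddAbove
    exact ⟨M, fun g hg => hM ⟨g, hg, rfl⟩⟩
  refine lemmaA X Set.univ {g | g.length = M + 1} [] trivial hXf hX0 (fun _ _ _ _ => trivial) ?_
    (List.finite_length_eq A (M + 1)) (by simp) (M + 1) ?_ ?_ ?_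
  · intro x hx x' hx' r _ r' _ h
    rcases List.prefix_or_prefix_of_prefix (l₃ := x ++ r) (List.prefix_append x r) ⟨r', h.symm⟩
      with h1 | h1
    · exact hp x hx x' hx' h1
    · exact (hp x' hx' x hx h1).symm
  · intro w hw
    exact ⟨w.take (M + 1), by simp; omega, w.drop (M + 1), trivial, by simp⟩
  · intro g hg g' hg' r _ r' _ h
    exact (List.append_inj h (by rw [hg, hg'])).1
  · rintro g hg r _ r' _ ⟨_, h⟩
    refine ⟨trivial, ?_⟩
    rintro ⟨x, hx, s, _, e⟩
    have : x <+: g := List.prefix_of_prefix_length_le ⟨s, e.symm⟩ (List.prefix_append _ _)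
      (by have := hM x hx; have h2 : g.length = M + 1 := hg; omega)
    obtain ⟨t, rfl⟩ := this
    exact h ⟨x, hx, t ++ r, trivial, by simp⟩

theorem flatten_rev (zs : List (List A)) :
    ((zs.map List.reverse).reverse).flatten = zs.flatten.reverse := by
  rw [List.reverse_flatten]

theorem Star.rev {X : Set (List A)} {w : List A} (h : Star X w) :
    Star (List.reverse '' X) w.reverse := by
  obtain ⟨zs, hz, rfl⟩ := h
  refine ⟨(zs.map List.reverse).reverse, ?_, flatten_rev zs⟩
  intro z hz'
  simp only [List.mem_reverse, List.mem_map] at hz'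
  obtain ⟨a, ha, rfl⟩ := hz'
  exact ⟨a, hz a ha, rfl⟩

theorem Code.rev {X : Set (List A)} (h : Code X) : Code (List.reverse '' X) := by
  intro xs ys hx hy e
  have key : ∀ zs : List (List A), (∀ x ∈ zs, x ∈ List.reverse '' X) →
      ∀ x ∈ (zs.map List.reverse).reverse, x ∈ X := by
    intro zs hz x hx
    simp only [List.mem_reverse, List.mem_map] at hx
    obtain ⟨a, ha, rfl⟩ := hx
    obtain ⟨b, hb, rfl⟩ := hz a ha
    simpa using hb
  have := h _ _ (key xs hx) (key ys hy) (by rw [flatten_rev, flatten_rev, e])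
  exact (List.map_injective_iff.2 List.reverse_injective) (List.reverse_injective this)

theorem Cpl.rev {X : Set (List A)} (h : Cpl X) : Cpl (List.reverse '' X) := by
  obtain ⟨Y, h1, h2, h3, h4⟩ := h
  refine ⟨List.reverse '' Y, h1.image _, Set.image_mono h2, h3.rev, ?_⟩
  intro w
  obtain ⟨u, v, h⟩ := h4 w.reverse
  refine ⟨v.reverse, u.reverse, ?_⟩
  have := h.rev
  simpa using this

theorem Cpl.of_rev {X : Set (List A)} (h : Cpl (List.reverse '' X)) : Cpl X := by
  have := h.rev
  rw [Set.image_image] at this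
  simpa using this

/-- composition -/
theorem Cpl.comp {X : Set (List B)} (f : B → List A) (hf : Function.Injective f)
    (hc : Code (Set.range f)) (hm : Compl (Set.range f)) (h : Cpl X) :
    Cpl ((fun w => w.flatMap f) '' X) := by
  obtain ⟨Y, h1, h2, h3, h4⟩ := h
  have hinj : Function.Injective (fun w : List B => w.flatMap f) := by
    intro v w e
    have := hc (v.map f) (w.map f) (by simp) (by simp) (by simpa [List.flatMap] using e)
    exact (List.map_injective_iff.2 hf) this
  have hfl : ∀ zs : List (List B),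
      (zs.map (fun w => w.flatMap f)).flatten = zs.flatten.flatMap f := by
    intro zs
    induction zs with
    | nil => simp
    | cons z zs ih => simp [ih]
  have hlift : ∀ xs : List (List A), (∀ x ∈ xs, x ∈ (fun w => w.flatMap f) '' Y) →
      ∃ zs : List (List B), (∀ z ∈ zs, z ∈ Y) ∧ zs.map (fun w => w.flatMap f) = xs := by
    intro xs
    induction xs with
    | nil => intro _; exact ⟨[], by simp, rfl⟩
    | cons x xs ih =>
      intro h
      obtain ⟨zs, hz, e⟩ := ih fun y hy => h y (List.mem_cons_of_mem _ hy)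
      obtain ⟨z, hz', e'⟩ := h x List.mem_cons_self
      refine ⟨z :: zs, ?_, by simp only [List.map_cons, e]; rw [← e']⟩
      intro y hy
      rcases List.mem_cons.1 hy with rfl | hy
      · exact hz'
      · exact hz y hy
  refine ⟨(fun w => w.flatMap f) '' Y, h1.image _, Set.image_mono h2, ?_, ?_⟩
  · intro xs ys hx hy e
    obtain ⟨xs', hx', rfl⟩ := hlift xs hx
    obtain ⟨ys', hy', rfl⟩ := hlift ys hy
    rw [hfl, hfl] at e
    rw [h3 xs' ys' hx' hy' (hinj e)]
  · intro w
    obtain ⟨u, v, zs, hz, e⟩ := hm w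
    obtain ⟨t, rfl⟩ : ∃ t : List B, t.map f = zs := by
      clear e
      induction zs with
      | nil => exact ⟨[], rfl⟩
      | cons z zs ih =>
        obtain ⟨t, ht⟩ := ih fun y hy => hz y (List.mem_cons_of_mem _ hy)
        obtain ⟨b, hb⟩ := hz z List.mem_cons_self
        exact ⟨b :: t, by simp [ht, hb]⟩
    obtain ⟨u', v', ys, hy, e'⟩ := h4 t
    refine ⟨u'.flatMap f ++ u, v ++ v'.flatMap f, ys.map (fun w => w.flatMap f), ?_, ?_⟩
    · intro z hz
      obtain ⟨a, ha, rfl⟩ := List.mem_map.1 hz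
      exact ⟨a, hy a ha, rfl⟩
    · rw [hfl, e']
      have e3 : t.flatMap f = u ++ w ++ v := by simpa [List.flatMap] using e
      simp only [List.flatMap_append, e3, List.append_assoc]

/-- letter-to-letter preimage under a surjective letter map -/
theorem Cpl.preimage [Finite A] {X : Set (List B)} (p : A → B) (hp : Function.Surjective p)
    (h : Cpl X) : Cpl {w : List A | w.map p ∈ X} := by
  obtain ⟨Y, h1, h2, h3, h4⟩ := h
  refine ⟨{w : List A | w.map p ∈ Y}, ?_, fun w hw => h2 hw, ?_, ?_⟩
  · obtain ⟨M, hM⟩ := (h1.image List.length).bddAbove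
    refine (List.finite_length_le A M).subset ?_
    intro w hw
    have := hM ⟨_, hw, rfl⟩
    simpa using this
  · intro xs ys hx hy e
    have h5 := h3 (xs.map (List.map p)) (ys.map (List.map p))
      (by intro x hx'; obtain ⟨a, ha, rfl⟩ := List.mem_map.1 hx'; exact hx a ha)
      (by intro x hx'; obtain ⟨a, ha, rfl⟩ := List.mem_map.1 hx'; exact hy a ha)
      (by rw [← List.map_flatten, ← List.map_flatten, e])
    have h6 : xs.map List.length = ys.map List.length := by
      have := congrArg (List.map List.length) h5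
      simpa [List.map_map, Function.comp_def] using this
    exact List.eq_iff_flatten_eq.2 ⟨e, h6⟩
  · intro w
    obtain ⟨u, v, zs, hz, e⟩ := h4 (w.map p)
    obtain ⟨s, hs⟩ := hp.hasRightInverse
    have key : ∀ (zs : List (List B)) (t : List A), (∀ z ∈ zs, z ∈ Y) → zs.flatten = t.map p →
        Star {w : List A | w.map p ∈ Y} t := by
      intro zs
      induction zs with
      | nil =>
        intro t _ e
        have : t = [] := by simpa using e.symm
        exact this ▸ Star.nil _
      | cons z zs ih =>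
        intro t hz e
        obtain ⟨t1, t2, rfl, e1, e2⟩ := List.map_eq_append_iff.1 e.symm
        refine (Star.of_mem ?_).append (ih t2 (fun y hy => hz y (List.mem_cons_of_mem _ hy)) e2.symm)
        show t1.map p ∈ Y
        rw [e1]; exact hz z List.mem_cons_self
    refine ⟨u.map s, v.map s, key zs _ hz ?_⟩
    have h7 : ∀ l : List B, (l.map s).map p = l := by
      intro l
      rw [List.map_map]
      have : p ∘ s = id := funext hs
      rw [this, List.map_id]
    simp only [List.map_append, h7, e]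

end Pool.Agent.Lib.MP_5364dc_lc
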