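import Pool.Agent.Lib.MP_5364dc_lc.Tile

/-! Reduction of framed triples to one explicit family. -/

namespace Pool.Agent.Lib.MP_5364dc_lc

variable {A : Type}

theorem LP.flat {S L : List ℕ} {b d : ℕ} (h : LP 0 S b d L) :
    ∃ (gs K : List ℕ), L = gs.flatMap (fun g => S ++ [g]) ++ K ∧ (∀ g ∈ gs, b ≤ g) ∧
      (K = S ∨ ∃ s T, S = K ++ s :: T ∧ d ≤ s) := by
  induction h with
  | eq => exact ⟨[], S, rfl, by simp, Or.inl rfl⟩
  | short L s T e h => exact ⟨[], L, rfl, by simp, Or.inr ⟨s, T, e, h⟩⟩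
  | step g L h _ ih =>
    obtain ⟨gs, K, rfl, h1, h2⟩ := ih
    refine ⟨g :: gs, K, by simp, ?_, h2⟩
    intro v hv
    rcases List.mem_cons.1 hv with rfl | hv
    · exact h
    · exact h1 v hv

theorem LP.flat_rev {S L : List ℕ} {b d : ℕ} (h : LP 0 S.reverse b d L.reverse) :
    ∃ (gs K : List ℕ), L = K ++ gs.flatMap (fun g => g :: S) ∧ (∀ g ∈ gs, b ≤ g) ∧
      (K = S ∨ ∃ s T, S = T ++ s :: K ∧ d ≤ s) := by
  obtain ⟨gs, K, e, h1, h2⟩ := h.flat
  refine ⟨gs.reverse, K.reverse, ?_, by simpa using h1, ?_⟩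
  · have := congrArg List.reverse e
    rw [List.reverse_reverse, List.reverse_append, List.reverse_flatMap] at this
    rw [this]
    congr 1
    refine List.flatMap_congr ?_
    intro g _
    simp
  · rcases h2 with rfl | ⟨s, T, e, h⟩
    · exact Or.inl (by simp)
    · refine Or.inr ⟨s, T.reverse, ?_, h⟩
      have := congrArg List.reverse e
      simpa using this

theorem flat_conj (S gs : List ℕ) :
    gs.flatMap (fun g => S ++ [g]) ++ S = S ++ gs.flatMap (fun g => g :: S) := by
  induction gs with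
  | nil => simp
  | cons g gs ih => simp [ih]

theorem flat_inj (S : List ℕ) : ∀ gs gs' : List ℕ,
    gs.flatMap (fun g => g :: S) = gs'.flatMap (fun g => g :: S) → gs = gs' := by
  intro gs
  induction gs with
  | nil => intro gs' h; cases gs' with
    | nil => rfl
    | cons g gs' => simp at h
  | cons g gs ih =>
    intro gs' h
    cases gs' with
    | nil => simp at h
    | cons g' gs' =>
      simp only [List.flatMap_cons, List.cons_append, List.cons.injEq,
        List.append_cancel_left_eq] at h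
      rw [h.1, ih gs' h.2]

theorem flat_per {S K T : List ℕ} {s : ℕ} (e1 : S = K ++ s :: T) (e2 : S = T ++ s :: K) :
    ∀ gs gs' : List ℕ, gs.length = gs'.length →
      gs.flatMap (fun g => S ++ [g]) ++ K = K ++ gs'.flatMap (fun g => g :: S) →
      gs.flatMap (fun g => S ++ [g]) = pw (S ++ [s]) gs.length := by
  intro gs
  induction gs with
  | nil => intro _ _ _; rfl
  | cons g gs ih =>
    intro gs' hl h
    cases gs' with
    | nil => simp at hl
    | cons g' gs' =>
      rw [List.flatMap_cons, List.flatMap_cons] at h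
      have h2 : K ++ s :: (T ++ g :: (gs.flatMap (fun g => S ++ [g]) ++ K)) =
          K ++ g' :: (T ++ s :: (K ++ gs'.flatMap (fun g => g :: S))) := by
        have l : S ++ [g] ++ gs.flatMap (fun g => S ++ [g]) ++ K =
            K ++ s :: (T ++ g :: (gs.flatMap (fun g => S ++ [g]) ++ K)) := by
          generalize gs.flatMap (fun g => S ++ [g]) = W
          rw [e1]; simp
        have r : K ++ (g' :: S ++ gs'.flatMap (fun g => g :: S)) =
            K ++ g' :: (T ++ s :: (K ++ gs'.flatMap (fun g => g :: S))) := by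
          generalize gs'.flatMap (fun g => g :: S) = W
          rw [e2]; simp
        rw [← l, ← r, h]
      simp only [List.append_cancel_left_eq, List.cons.injEq] at h2
      obtain ⟨_, rfl, h3⟩ := h2
      rw [List.flatMap_cons, ih gs' (by simpa using hl) h3, List.length_cons, pw_succ]

theorem length_flat1 (S gs : List ℕ) :
    (gs.flatMap (fun g => S ++ [g])).length = gs.length * (S.length + 1) := by
  induction gs with
  | nil => simp
  | cons g gs ih => rw [List.flatMap_cons, List.length_append, ih]; simp; ring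

theorem length_flat2 (S gs : List ℕ) :
    (gs.flatMap (fun g => g :: S)).length = gs.length * (S.length + 1) := by
  induction gs with
  | nil => simp
  | cons g gs ih => rw [List.flatMap_cons, List.length_append, ih]; simp; ring

theorem lemmaW {S L : List ℕ} {α β γ δ : ℕ} (h1 : LP 0 S β δ L)
    (h2 : LP 0 S.reverse α γ L.reverse) (hl : S.length ≤ L.length) :
    (∃ gs : List ℕ, L = S ++ gs.flatMap (fun g => g :: S) ∧ ∀ g ∈ gs, α ≤ g ∧ β ≤ g) ∨
    ∃ g, α ≤ g ∧ β ≤ g ∧ γ ≤ g ∧ δ ≤ g ∧ S ++ [g] ++ (L ++ [g]) = L ++ [g] ++ (S ++ [g]) := by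
  obtain ⟨gs, K, e, a1, a2⟩ := h1.flat
  obtain ⟨gs', K', e', b1, b2⟩ := h2.flat_rev
  have k1 : K.length ≤ S.length := by
    rcases a2 with rfl | ⟨s, T, e, _⟩
    · exact le_rfl
    · rw [e]; simp
  have k2 : K'.length ≤ S.length := by
    rcases b2 with rfl | ⟨s, T, e, _⟩
    · exact le_rfl
    · rw [e]; simp; omega
  have l1 := congrArg List.length e
  have l2 := congrArg List.length e'
  rw [List.length_append, length_flat1] at l1
  rw [List.length_append, length_flat2] at l2
  have hg : gs.length = gs'.length := by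
    rcases lt_trichotomy gs.length gs'.length with c | c | c
    · have := Nat.mul_le_mul_right (S.length + 1) (Nat.succ_le_of_lt c)
      rw [Nat.succ_mul] at this; omega
    · exact c
    · have := Nat.mul_le_mul_right (S.length + 1) (Nat.succ_le_of_lt c)
      rw [Nat.succ_mul] at this; omega
  have hk : K.length = K'.length := by rw [hg] at l1; omega
  have hS : S <+: L := by
    cases gs with
    | nil =>
      rcases a2 with rfl | ⟨s, T, e2, _⟩
      · rw [e]; simp
      · have := congrArg List.length e2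
        simp at this l1; omega
    | cons g gs => rw [e]; simp [List.append_assoc]
  have hK : K = K' := by
    have p1 : K <+: L := by
      refine List.IsPrefix.trans ?_ hS
      rcases a2 with rfl | ⟨s, T, e2, _⟩
      · exact List.prefix_rfl
      · exact ⟨_, e2.symm⟩
    exact (List.prefix_of_prefix_length_le p1 ⟨_, e'.symm⟩ hk.le).eq_of_length hk
  subst hK
  by_cases hKS : K = S
  · subst hKS
    left
    have : gs = gs' := by
      rw [flat_conj] at e
      exact flat_inj K _ _ (List.append_cancel_left (e.symm.trans e'))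
    subst this
    exact ⟨gs, e', fun g hg => ⟨b1 g hg, a1 g hg⟩⟩
  right
  obtain ⟨s, T, e1, d1⟩ := a2.resolve_left hKS
  obtain ⟨s', T', e2, d2⟩ := b2.resolve_left hKS
  cases gs with
  | nil =>
    have := congrArg List.length e1
    simp at this l1; omega
  | cons g gs =>
  cases gs' with
  | nil => simp at hg
  | cons g' gs' =>
  have h2 : K ++ s :: (T ++ g :: (gs.flatMap (fun g => S ++ [g]) ++ K)) =
      K ++ g' :: (T' ++ s' :: (K ++ gs'.flatMap (fun g => g :: S))) := by
    have l : S ++ [g] ++ gs.flatMap (fun g => S ++ [g]) ++ K =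
        K ++ s :: (T ++ g :: (gs.flatMap (fun g => S ++ [g]) ++ K)) := by
      generalize gs.flatMap (fun g => S ++ [g]) = W
      rw [e1]; simp
    have r : K ++ (g' :: S ++ gs'.flatMap (fun g => g :: S)) =
        K ++ g' :: (T' ++ s' :: (K ++ gs'.flatMap (fun g => g :: S))) := by
      generalize gs'.flatMap (fun g => g :: S) = W
      rw [e2]; simp
    rw [← l, ← r]
    exact e.symm.trans e'
  simp only [List.append_cancel_left_eq, List.cons.injEq] at h2
  obtain ⟨rfl, h3⟩ := h2
  have hT : T.length = T'.length := by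
    have m1 := congrArg List.length e1
    have m2 := congrArg List.length e2
    simp at m1 m2; omega
  obtain ⟨rfl, h4⟩ := List.append_inj h3 hT
  obtain ⟨rfl, _⟩ := List.cons.inj h4
  have hs : s = g := by
    have m1 := congrArg List.sum e1
    have m2 := congrArg List.sum e2
    simp at m1 m2; omega
  subst hs
  refine ⟨s, b1 s (by simp), a1 s (by simp), d2, d1, ?_⟩
  have h5 := flat_per e1 e2 (s :: gs) (s :: gs') hg (e.symm.trans e')
  rw [e, h5]
  generalize (s :: gs).length = m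
  have u1 : S ++ [s] = (K ++ [s]) ++ (T ++ [s]) := by rw [e1]; simp
  have u2 : S ++ [s] = (T ++ [s]) ++ (K ++ [s]) := by rw [e2]; simp
  calc S ++ [s] ++ (pw (S ++ [s]) m ++ K ++ [s])
      = (S ++ [s] ++ pw (S ++ [s]) m) ++ (K ++ [s]) := by simp
    _ = pw (S ++ [s]) m ++ ((K ++ [s]) ++ (T ++ [s])) ++ (K ++ [s]) := by rw [pw_comm, ← u1]
    _ = pw (S ++ [s]) m ++ K ++ [s] ++ ((T ++ [s]) ++ (K ++ [s])) := by simp
    _ = _ := by rw [← u2]

theorem heads {a : A} {Y Z s t : List A} {α γ : ℕ} (h : C3 [a] Y Z) (h0 : α = 0 ∨ γ = 0)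
    (hs : Star {[a], Y, Z} s) (ht : Star {[a], Y, Z} t) :
    pw [a] γ ++ (Y ++ s) ≠ pw [a] α ++ (Z ++ t) := by
  have sa : Star {[a], Y, Z} [a] := Star.of_mem (by simp)
  have sY : Star {[a], Y, Z} Y := Star.of_mem (by simp)
  have sZ : Star {[a], Y, Z} Z := Star.of_mem (by simp)
  cases α with
  | zero =>
    cases γ with
    | zero => exact h.not23 hs ht
    | succ γ =>
      rw [pw_succ, List.append_assoc]
      exact h.not13 ((sa.pw γ).append (sY.append hs)) ht
  | succ α =>
    have : γ = 0 := by omega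
    subst this
    rw [pw_succ, List.append_assoc]
    exact (h.not12 ((sa.pw α).append (sZ.append ht)) hs).symm

theorem tile_tau (P Q : List A) (S : List ℕ) (g : ℕ) :
    tile P Q S ++ pw P g = (S ++ [g]).flatMap (fun g => Q ++ pw P g) := by
  induction S with
  | nil => simp
  | cons s S ih => simp [tile_cons, ih]

theorem nc1 {a : A} {s l : List A} {α β γ δ g : ℕ}
    (h : C3 [a] (pw [a] α ++ (s ++ pw [a] β)) (pw [a] γ ++ (l ++ pw [a] δ))) (h0 : α = 0 ∨ γ = 0)
    (h1 : β + γ ≤ g) (h2 : δ + α ≤ g) (h3 : β ≤ g) (h4 : δ ≤ g)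
    (e : s ++ pw [a] g ++ (l ++ pw [a] g) = l ++ pw [a] g ++ (s ++ pw [a] g)) : False := by
  set Y := pw [a] α ++ (s ++ pw [a] β) with hY
  set Z := pw [a] γ ++ (l ++ pw [a] δ) with hZ
  have sa : Star {[a], Y, Z} [a] := Star.of_mem (by simp)
  have sY : Star {[a], Y, Z} Y := Star.of_mem (by simp)
  have sZ : Star {[a], Y, Z} Z := Star.of_mem (by simp)
  refine heads h h0 (((sa.pw (g - β - γ)).append sZ).append (sa.pw (g - δ)))
    (((sa.pw (g - δ - α)).append sY).append (sa.pw (g - β))) ?_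
  have m1 : pw [a] β ++ (pw [a] (g - β - γ) ++ pw [a] γ) = pw [a] g := by
    rw [← pw_add, ← pw_add]; congr 1; omega
  have m2 : pw [a] δ ++ (pw [a] (g - δ - α) ++ pw [a] α) = pw [a] g := by
    rw [← pw_add, ← pw_add]; congr 1; omega
  have m3 : pw [a] δ ++ pw [a] (g - δ) = pw [a] g := by
    rw [← pw_add]; congr 1; omega
  have m4 : pw [a] β ++ pw [a] (g - β) = pw [a] g := by
    rw [← pw_add]; congr 1; omega
  have m5 : pw [a] γ ++ pw [a] α = pw [a] α ++ pw [a] γ := by
    rw [← pw_add, ← pw_add, Nat.add_comm]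
  calc pw [a] γ ++ (Y ++ (pw [a] (g - β - γ) ++ Z ++ pw [a] (g - δ)))
      = (pw [a] γ ++ pw [a] α) ++ (s ++ (pw [a] β ++ (pw [a] (g - β - γ) ++ pw [a] γ)) ++
          (l ++ (pw [a] δ ++ pw [a] (g - δ)))) := by simp [hY, hZ]
    _ = (pw [a] α ++ pw [a] γ) ++ (l ++ (pw [a] δ ++ (pw [a] (g - δ - α) ++ pw [a] α)) ++
          (s ++ (pw [a] β ++ pw [a] (g - β)))) := by rw [m1, m2, m3, m4, m5, e]
    _ = _ := by simp [hY, hZ]

theorem nc2 {a : A} {s l : List A} {α β γ δ g : ℕ}
    (h : C3 [a] (pw [a] α ++ (s ++ pw [a] β)) (pw [a] γ ++ (l ++ pw [a] δ))) (h0 : α = 0 ∨ γ = 0)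
    (h1 : α + β ≤ g) (h2 : γ + δ ≤ g) (hs : s ≠ []) (hl : l ≠ [])
    (e : s ++ pw [a] g ++ (l ++ pw [a] g) = l ++ pw [a] g ++ (s ++ pw [a] g)) : False := by
  set Y := pw [a] α ++ (s ++ pw [a] β) with hY
  set Z := pw [a] γ ++ (l ++ pw [a] δ) with hZ
  have sa : Star {[a], Y, Z} [a] := Star.of_mem (by simp)
  have sY : Star {[a], Y, Z} Y := Star.of_mem (by simp)
  have sZ : Star {[a], Y, Z} Z := Star.of_mem (by simp)
  obtain ⟨r, i, j, e1, e2⟩ := comm_root _ _ _ le_rfl e
  obtain ⟨i, rfl⟩ : ∃ i', i = i' + 1 := by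
    cases i with
    | zero => simp [hs] at e1
    | succ i => exact ⟨i, rfl⟩
  obtain ⟨j, rfl⟩ : ∃ j', j = j' + 1 := by
    cases j with
    | zero => simp [hl] at e2
    | succ j => exact ⟨j, rfl⟩
  have key : ∀ (α β : ℕ) (s : List A) (n : ℕ), α + β ≤ g →
      pw (pw [a] α ++ (s ++ pw [a] β) ++ pw [a] (g - α - β)) n ++ pw [a] α =
        pw [a] α ++ pw (s ++ pw [a] g) n := by
    intro α β s n h
    have := pw_conj (pw [a] α) (s ++ pw [a] β ++ pw [a] (g - α - β)) n
    have m : s ++ pw [a] β ++ pw [a] (g - α - β) ++ pw [a] α = s ++ pw [a] g := by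
      rw [List.append_assoc, List.append_assoc, ← pw_add, ← pw_add]; congr 2; omega
    rw [m] at this
    rw [← this, List.append_assoc (pw [a] α)]
  have m5 : pw [a] γ ++ pw [a] α = pw [a] α ++ pw [a] γ := by
    rw [← pw_add, ← pw_add, Nat.add_comm]
  refine heads h h0
    ((sa.pw (g - α - β)).append (((sY.append (sa.pw (g - α - β))).pw j).append (sa.pw α)))
    ((sa.pw (g - γ - δ)).append (((sZ.append (sa.pw (g - γ - δ))).pw i).append (sa.pw γ))) ?_
  calc pw [a] γ ++ (Y ++ (pw [a] (g - α - β) ++ (pw (Y ++ pw [a] (g - α - β)) j ++ pw [a] α)))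
      = pw [a] γ ++ (pw (Y ++ pw [a] (g - α - β)) (j + 1) ++ pw [a] α) := by simp [pw_succ]
    _ = pw [a] γ ++ pw [a] α ++ pw r ((i + 1) * (j + 1)) := by
        rw [key α β s _ h1, e1, ← pw_mul, List.append_assoc]
    _ = pw [a] α ++ (pw (Z ++ pw [a] (g - γ - δ)) (i + 1) ++ pw [a] γ) := by
        rw [key γ δ l _ h2, e2, ← pw_mul, m5, Nat.mul_comm, List.append_assoc]
    _ = _ := by simp [pw_succ]

theorem tile_al {P Q : List A} {X : Set (List A)} {S : List ℕ} {α β : ℕ} (sa : Star X P)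
    (sY : Star X (pw P α ++ (tile P Q S ++ pw P β))) :
    ∀ gs : List ℕ, (∀ g ∈ gs, α + β ≤ g) → ∃ t, Star X t ∧
      pw P α ++ (tile P Q (S ++ gs.flatMap (fun g => g :: S)) ++ pw P β) =
        pw P α ++ (tile P Q S ++ pw P β) ++ t := by
  intro gs
  induction gs with
  | nil => intro _; exact ⟨[], Star.nil _, by simp⟩
  | cons g gs ih =>
    intro h
    obtain ⟨t, h1, h2⟩ := ih fun v hv => h v (List.mem_cons_of_mem _ hv)
    refine ⟨pw P (g - α - β) ++ (pw P α ++ (tile P Q S ++ pw P β) ++ t),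
      (sa.pw _).append (sY.append h1), ?_⟩
    have := h g List.mem_cons_self
    have m : pw P g = pw P β ++ (pw P (g - α - β) ++ pw P α) := by
      rw [← pw_add, ← pw_add]; congr 1; omega
    rw [← h2, List.flatMap_cons, List.cons_append, tile_append, m]
    simp

theorem nc3 {a : A} {Q : List A} {S gs : List ℕ} {α β γ δ : ℕ}
    (h : C3 [a] (pw [a] α ++ (tile [a] Q S ++ pw [a] β))
      (pw [a] γ ++ (tile [a] Q (S ++ gs.flatMap (fun g => g :: S)) ++ pw [a] δ)))
    (h0 : α = 0 ∨ γ = 0) (hg : ∀ g ∈ gs, α + β ≤ g) : False := by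
  set Y := pw [a] α ++ (tile [a] Q S ++ pw [a] β) with hY
  set Z := pw [a] γ ++ (tile [a] Q (S ++ gs.flatMap (fun g => g :: S)) ++ pw [a] δ) with hZ
  have sa : Star {[a], Y, Z} [a] := Star.of_mem (by simp)
  have sY : Star {[a], Y, Z} Y := Star.of_mem (by simp)
  obtain ⟨t, h1, h2⟩ := tile_al sa sY gs hg
  refine heads h h0 (h1.append (sa.pw δ)) (sa.pw β) ?_
  have m5 : pw [a] γ ++ pw [a] α = pw [a] α ++ pw [a] γ := by
    rw [← pw_add, ← pw_add, Nat.add_comm]
  have m6 : pw [a] β ++ pw [a] δ = pw [a] δ ++ pw [a] β := by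
    rw [← pw_add, ← pw_add, Nat.add_comm]
  calc pw [a] γ ++ (Y ++ (t ++ pw [a] δ)) = pw [a] γ ++ ((Y ++ t) ++ pw [a] δ) := by simp
    _ = (pw [a] γ ++ pw [a] α) ++ (tile [a] Q (S ++ gs.flatMap (fun g => g :: S)) ++
          (pw [a] β ++ pw [a] δ)) := by rw [← h2]; simp
    _ = _ := by rw [m5, m6]; simp [hZ]

theorem class0 {a b : A} {S L : List ℕ} {α β γ δ : ℕ}
    (h : C3 [a] (pw [a] α ++ (tile [a] [b] S ++ pw [a] β))
      (pw [a] γ ++ (tile [a] [b] L ++ pw [a] δ)))
    (h0 : α = 0 ∨ γ = 0) (h0' : β = 0 ∨ δ = 0) (h1 : LP 0 S β δ L)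
    (h2 : LP 0 S.reverse α γ L.reverse) (hl : S.length ≤ L.length) :
    1 ≤ α ∧ 1 ≤ β ∧ γ = 0 ∧ δ = 0 ∧
      ∃ gs : List ℕ, L = S ++ gs.flatMap (fun g => g :: S) ∧ ∀ g ∈ gs, α ≤ g ∧ β ≤ g := by
  rcases lemmaW h1 h2 hl with ⟨gs, rfl, hg⟩ | ⟨g, g1, g2, g3, g4, e⟩
  · have : ¬ (α = 0 ∨ β = 0) := fun hc =>
      nc3 h h0 fun g hg' => by have := hg g hg'; omega
    exact ⟨by omega, by omega, by omega, by omega, gs, rfl, hg⟩
  · exfalso
    have e' : tile [a] [b] S ++ pw [a] g ++ (tile [a] [b] L ++ pw [a] g) =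
        tile [a] [b] L ++ pw [a] g ++ (tile [a] [b] S ++ pw [a] g) := by
      rw [tile_tau, tile_tau, ← List.flatMap_append, ← List.flatMap_append, e]
    have n1 : ∀ S, tile [a] [b] S ≠ [] := by
      intro S
      obtain ⟨t, e⟩ := tile_head [a] [b] S
      simp [e]
    by_cases c : β + γ ≤ g ∧ δ + α ≤ g
    · exact nc1 h h0 c.1 c.2 g2 g4 e'
    · exact nc2 h h0 (by omega) (by omega) (n1 S) (n1 L) e'

theorem star_tile {P Q w : List A} (h : Star {P, Q} w) :
    (∃ n, w = pw P n) ∨ ∃ α S β, w = pw P α ++ (tile P Q S ++ pw P β) := by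
  refine Star.induction
    (P := fun w => (∃ n, w = pw P n) ∨ ∃ α S β, w = pw P α ++ (tile P Q S ++ pw P β))
    (Or.inl ⟨0, rfl⟩) ?_ h
  rintro v (rfl | rfl) w _ (⟨n, rfl⟩ | ⟨α, S, β, rfl⟩)
  · exact Or.inl ⟨n + 1, rfl⟩
  · exact Or.inr ⟨α + 1, S, β, by simp [pw_succ]⟩
  · exact Or.inr ⟨0, [], n, by simp⟩
  · exact Or.inr ⟨0, α :: S, β, by simp [tile_cons]⟩

/-! ### transfer through the free group -/

def iota (v : List Bool) : FreeGroup Bool := FreeGroup.mk (v.map fun c => (c, true))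

theorem iota_append (u v : List Bool) : iota (u ++ v) = iota u * iota v := by
  simp [iota, FreeGroup.mul_mk]

theorem iota_nil : iota [] = 1 := rfl

theorem iota_inj {u v : List Bool} (h : iota u = iota v) : u = v := by
  have red : ∀ v : List Bool, FreeGroup.IsReduced (v.map fun c => (c, true)) := by
    intro v
    unfold FreeGroup.IsReduced
    rw [List.isChain_map]
    exact List.Pairwise.isChain (List.pairwise_of_forall fun _ _ _ => rfl)
  have := congrArg FreeGroup.toWord h
  simp only [iota, FreeGroup.toWord_mk, (red _).reduce_eq] at this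
  exact (List.map_injective_iff.2 fun a b h => (Prod.mk.inj h).1) this

theorem iota_pw (u : List Bool) (n : ℕ) : iota (pw u n) = iota u ^ n := by
  induction n with
  | zero => simp [iota_nil]
  | succ n ih => rw [pw_succ, iota_append, ih, pow_succ']

theorem transfer {a : Bool} {x Q Y Z : List Bool} {α β γ δ : ℕ} {S L : List ℕ}
    (hY : Y ++ x = pw x α ++ (tile x Q S ++ pw x β))
    (hZ : Z ++ x = pw x γ ++ (tile x Q L ++ pw x δ)) (h : C3 x Y Z) :
    C3 [a] (pw [a] α ++ (tile [a] [!a] (S.map (· + 1)) ++ pw [a] β))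
      (pw [a] γ ++ (tile [a] [!a] (L.map (· + 1)) ++ pw [a] δ)) := by
  let th : Bool → FreeGroup Bool := fun c => if c = a then iota x else iota Q * (iota x)⁻¹
  let ph : List Bool → FreeGroup Bool := fun w => (w.map th).prod
  have p1 : ∀ u v, ph (u ++ v) = ph u * ph v := by intro u v; simp [ph]
  have p2 : ph [a] = iota x := by simp [ph, th]
  have p3 : ph [!a] = iota Q * (iota x)⁻¹ := by simp [ph, th]
  have p4 : ∀ n, ph (pw [a] n) = iota x ^ n := by
    intro n
    induction n with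
    | zero => simp [ph]
    | succ n ih => rw [pw_succ, p1, ih, p2, pow_succ']
  have p5 : ∀ S : List ℕ, ph (tile [a] [!a] (S.map (· + 1))) = iota (tile x Q S) * (iota x)⁻¹ := by
    intro S
    induction S with
    | nil => simpa using p3
    | cons s S ih =>
      rw [List.map_cons, tile_cons, tile_cons, p1, p1, ih, p3, p4, iota_append, iota_append, iota_pw]
      group
  have p6 : ∀ (Y : List Bool) (α β : ℕ) (S : List ℕ),
      Y ++ x = pw x α ++ (tile x Q S ++ pw x β) →
      ph (pw [a] α ++ (tile [a] [!a] (S.map (· + 1)) ++ pw [a] β)) = iota Y := by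
    intro Y α β S h
    have := congrArg iota h
    rw [iota_append, iota_append, iota_append, iota_pw, iota_pw] at this
    rw [p1, p1, p4, p4, p5, eq_mul_inv_of_mul_eq this]
    group
  exact C3.pull (fun w v => ph w = iota v) (by simp [ph, iota_nil])
    (fun _ _ _ _ h1 h2 => by rw [p1, iota_append, h1, h2])
    (fun _ _ _ h1 h2 => iota_inj (h1.symm.trans h2)) p2 (p6 Y α β S hY) (p6 Z γ δ L hZ) h

end Pool.Agent.Lib.MP_5364dc_lc
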