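import Pool.Agent.Lib.MP_5364dc_lc.Aut

/-! The completion of the family. -/

namespace Pool.Agent.Lib.MP_5364dc_lc

def bt (a : Bool) (k j : ℕ) : List Bool := [!a, a] ++ pw (xk a k) j

def blk (a : Bool) (k j : ℕ) : Bool → List Bool
  | false => xk a k
  | true => bt a k j

def lab (a : Bool) (k j : ℕ) : Bool ⊕ ℕ → List Bool
  | Sum.inl c => blk a k j c
  | Sum.inr r => xk a r ++ xk a k

def labV (k : ℕ) : Bool ⊕ ℕ → Prop
  | Sum.inl _ => True
  | Sum.inr r => r < k

open Classical in
noncomputable def dlab (i j : ℕ) (H : List ℕ) (d : ℕ) :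
    Bool ⊕ ℕ → Option (List Bool) → Option (List Bool)
  | Sum.inl c => dl i j H d c
  | Sum.inr _ => fun s => if dl i j H d false s = some [] then some [] else none

def phi (a : Bool) (k j : ℕ) (v : List Bool) : List Bool := v.flatMap (blk a k j)

theorem phi_append (a : Bool) (k j : ℕ) (u v : List Bool) :
    phi a k j (u ++ v) = phi a k j u ++ phi a k j v := List.flatMap_append

theorem phi_X (a : Bool) (k j n : ℕ) : phi a k j (pw [false] n) = pw (xk a k) n := by
  induction n with
  | zero => rfl
  | succ n ih => rw [pw_succ, phi_append, ih, pw_succ]; simp [phi, blk]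

theorem phi_B (a : Bool) (k j : ℕ) : phi a k j [true] = bt a k j := by simp [phi, blk]

theorem phi_wd (a : Bool) (k j : ℕ) (S : List ℕ) :
    phi a k j (wd S) = tile (xk a k) [!a, a] (S.map (· + j)) ++ pw (xk a k) j := by
  induction S with
  | nil => exact phi_B a k j
  | cons s S ih =>
    unfold wd at *
    rw [tile_cons, phi_append, phi_append, ih, phi_X, phi_B, List.map_cons, tile_cons,
      Nat.add_comm s j, pw_add]
    simp [bt]

theorem xk_split (a : Bool) {r k : ℕ} (h : r < k) :
    ∃ t, xk a k = xk a r ++ (!a) :: a :: t := by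
  obtain ⟨m, rfl⟩ := Nat.exists_eq_add_of_lt h
  exact ⟨pw [!a, a] m, by rw [Nat.add_assoc, xk_add, pw_succ]; rfl⟩

theorem lab_ne (a : Bool) (k j : ℕ) (l : Bool ⊕ ℕ) : lab a k j l ≠ [] := by
  rcases l with (_ | _) | r <;> simp [lab, blk, bt, xk]

theorem lab_pf (a : Bool) (k j : ℕ) (l l' : Bool ⊕ ℕ) (h : labV k l) (h' : labV k l')
    (e : lab a k j l <+: lab a k j l') : l = l' := by
  have hb : (bt a k j).head? = some (!a) := rfl
  have hJ : ∀ r, (xk a r ++ xk a k).head? = some a := fun r => rfl
  have mm : ∀ r n, r < n → ∀ u, ¬ (xk a n ++ u <+: xk a r ++ xk a k) ∧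
      ¬ (xk a r ++ xk a k <+: xk a n ++ u) := by
    intro r n hr u
    obtain ⟨t, e⟩ := xk_split a hr
    rw [e, List.append_assoc]
    exact ⟨mismatch (c := !a) (d := a) (by simp), mismatch (c := a) (d := !a) (by simp)⟩
  rcases l with (_ | _) | r <;> rcases l' with (_ | _) | r'
  · rfl
  · exact absurd e (not_pref_of_head (head_xk a k) hb (by simp))
  · exact absurd e (by simpa [lab, blk] using (mm r' k h' []).1)
  · exact absurd e (not_pref_of_head hb (head_xk a k) (by simp))
  · rfl
  · exact absurd e (not_pref_of_head hb (hJ r') (by simp))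
  · exact absurd e (by simpa [lab, blk] using (mm r k h []).2)
  · exact absurd e (not_pref_of_head (hJ r) hb (by simp))
  · rcases lt_trichotomy r r' with c | rfl | c
    · exact absurd e (mm r r' c _).2
    · rfl
    · exact absurd e (mm r' r c _).1

structure Ctx (a : Bool) (k i j : ℕ) (H : List ℕ) (d : ℕ) (st : List Bool → Option (List Bool)) :
    Prop where
  D : Dir i 0 H d
  step : ∀ l w, labV k l → st (lab a k j l ++ w) = dlab i j H d l (st w)
  dead : ∀ w, (∀ l, labV k l → ¬ lab a k j l <+: w) → st w = some []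

variable {a : Bool} {k i j d : ℕ} {H : List ℕ} {st : List Bool → Option (List Bool)}

theorem Ctx.phi (C : Ctx a k i j H d st) (v w : List Bool) :
    st (phi a k j v ++ w) = ds i j H d v (st w) := by
  induction v with
  | nil => rfl
  | cons c v ih =>
    have := C.step (Sum.inl c) (Pool.Agent.Lib.MP_5364dc_lc.phi a k j v ++ w) trivial
    rw [ih, ← List.append_assoc] at this
    exact this

theorem Ctx.stX (C : Ctx a k i j H d st) (w : List Bool) :
    st (xk a k ++ w) = dl i j H d false (st w) := C.step (Sum.inl false) w trivial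

open Classical in
theorem Ctx.stJ (C : Ctx a k i j H d st) {r : ℕ} (hr : r < k) (w : List Bool) :
    st (xk a r ++ (xk a k ++ w)) =
      if dl i j H d false (st w) = some [] then some [] else none := by
  rw [← List.append_assoc]
  exact C.step (Sum.inr r) w hr

theorem Ctx.dead' (C : Ctx a k i j H d st) {w : List Bool} (h1 : ¬ xk a k <+: w)
    (h2 : ¬ bt a k j <+: w) (h3 : ∀ r, r < k → ¬ xk a r ++ xk a k <+: w) : st w = some [] := by
  refine C.dead w ?_
  rintro ((_ | _) | r) hl
  · exact h1
  · exact h2
  · exact h3 r hl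

theorem Ctx.D1 (C : Ctx a k i j H d st) {c : ℕ} (hc : c < j) {w : List Bool}
    (hw : ¬ xk a k <+: w) : st ([!a, a] ++ (pw (xk a k) c ++ w)) = some [] := by
  have hh : ([!a, a] ++ (pw (xk a k) c ++ w)).head? = some (!a) := rfl
  refine C.dead' (not_pref_of_head (head_xk a k) hh (by simp)) ?_
    fun r _ => not_pref_of_head (a := a) rfl hh (by simp)
  obtain ⟨m, rfl⟩ := Nat.exists_eq_add_of_lt hc
  intro h
  rw [bt, List.prefix_append_right_inj, Nat.add_assoc, pw_add, List.prefix_append_right_inj,
    pw_succ] at h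
  exact hw ((List.prefix_append _ _).trans h)

def QQ (a : Bool) (k i j : ℕ) (H : List ℕ) (d : ℕ) (st : List Bool → Option (List Bool))
    (w : List Bool) : Prop :=
  ¬ [!a, a] <+: w ∧ ∀ w', w = xk a k ++ w' → dl i j H d false (st w') = some []

theorem Ctx.Q1 (C : Ctx a k i j H d st) {w : List Bool} (h : QQ a k i j H d st w) :
    st w = some [] ∨ st w = none := by
  by_cases h1 : xk a k <+: w
  · obtain ⟨w', rfl⟩ := h1
    rw [C.stX, h.2 w' rfl]
    exact Or.inl rfl
  by_cases h3 : ∃ r, r < k ∧ xk a r ++ xk a k <+: w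
  · obtain ⟨r, hr, w', rfl⟩ := h3
    rw [List.append_assoc, C.stJ hr]
    split_ifs <;> simp
  · push Not at h3
    exact Or.inl (C.dead' h1 (fun e => h.1 ((List.prefix_append _ _).trans e)) h3)

theorem not_x_pref {n : ℕ} (hn : n < k) {w : List Bool} (h : ¬ [!a, a] <+: w) (u : List Bool) :
    ¬ xk a k ++ u <+: xk a n ++ w := by
  obtain ⟨t, e⟩ := xk_split a hn
  rw [e, List.append_assoc, List.prefix_append_right_inj]
  exact fun e => h (List.IsPrefix.trans ⟨t ++ u, rfl⟩ e)

theorem Ctx.Q2 (C : Ctx a k i j H d st) {w : List Bool} (h : QQ a k i j H d st w) {n : ℕ}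
    (hn : n < k) : st (xk a n ++ w) = some [] := by
  by_cases h1 : xk a k <+: w
  · obtain ⟨w', rfl⟩ := h1
    rw [C.stJ hn, if_pos (h.2 w' rfl)]
  refine C.dead' (by simpa using not_x_pref hn h.1 [])
    (not_pref_of_head (a := !a) (b := a) rfl rfl (by simp)) ?_
  intro r hr e
  rcases lt_trichotomy r n with c | rfl | c
  · obtain ⟨t, e2⟩ := xk_split a c
    rw [e2, List.append_assoc] at e
    exact mismatch (c := a) (d := !a) (by simp) e
  · exact h1 ((List.prefix_append_right_inj _).1 e)
  · exact not_x_pref c h.1 _ e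

theorem last_nonzero : ∀ H : List ℕ, (∀ v ∈ H, v = 0) ∨
    ∃ P h e, H = P ++ (h + 1) :: List.replicate e 0 := by
  intro H
  induction H with
  | nil => simp
  | cons g H ih =>
    rcases ih with h | ⟨P, h, e, rfl⟩
    · cases g with
      | zero => left; simpa using h
      | succ g => exact Or.inr ⟨[], g, H.length, by rw [← List.eq_replicate_of_mem h]; rfl⟩
    · exact Or.inr ⟨g :: P, h, e, rfl⟩

theorem Ctx.ustruct (C : Ctx a k i j H d st) {u : List Bool}
    (hu : u ++ xk a k = tile (xk a k) [!a, a] (H.map (· + j))) :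
    ∃ e u', u = u' ++ pw [a, !a] (e + 1) ∧
      (∀ w, ¬ xk a k <+: w → st w = some [] → st (u' ++ w) = some []) ∧
      (∀ w w', ¬ xk a k <+: w → ¬ xk a k <+: w' → st w = st w' → st (u' ++ w) = st (u' ++ w')) ∧
      ∀ m, m ≤ e → ∃ v, u' ++ (xk a k ++ pw [!a, a] m) = Pool.Agent.Lib.MP_5364dc_lc.phi a k j v ∧
        ∀ s, (s = some [] ∨ s = none) → ds i j H d v s = some [] := by
  have D := C.D
  obtain ⟨P, h, e, eH, he, g, hg⟩ : ∃ P h e, H = P ++ h :: List.replicate e 0 ∧
      (e = 0 ∨ j = 0) ∧ ∃ g, h + j = g + 1 := by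
    cases j with
    | zero =>
      rcases last_nonzero H with h | ⟨P, h, e, eH⟩
      · have := D.dz [] H rfl h
        simp at this
      · exact ⟨P, h + 1, e, eH, Or.inr rfl, h, rfl⟩
    | succ j =>
      rcases List.eq_nil_or_concat H with h | ⟨P, h, eH⟩
      · have := D.dz [] H rfl (by simp [h])
        simp at this
      · exact ⟨P, h, 0, by simpa using eH, Or.inl rfl, h + j, rfl⟩
  have hz : ∀ v ∈ List.replicate e 0, v = 0 := fun v hv => List.eq_of_mem_replicate hv
  have pP : P <+: H := ⟨_, eH.symm⟩
  have dP : d ≤ P.length := by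
    simpa using D.dz (P ++ [h]) (List.replicate e 0) (by simp [eH]) hz
  have dP0 : h = 0 → d + 1 ≤ P.length := by
    rintro rfl
    exact D.dz P _ eH (by simp)
  have e1 : tile (xk a k) [!a, a] ((List.replicate e 0).map (· + j)) = pw [!a, a] (e + 1) := by
    rcases he with rfl | rfl
    · simp
    · simp [tile_zero]
  refine ⟨e, tile (xk a k) [!a, a] (P.map (· + j)) ++ pw (xk a k) g, ?_, ?_⟩
  · rw [eH, List.map_append, List.map_cons, tile_append, e1, hg, pw_succ', List.append_assoc,
      ← xk_conj, ← List.append_assoc, ← List.append_assoc] at hu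
    rw [List.append_cancel_right hu, List.append_assoc]
  have ux : tile (xk a k) [!a, a] (P.map (· + j)) ++ pw (xk a k) g ++ xk a k =
      Pool.Agent.Lib.MP_5364dc_lc.phi a k j (wd P ++ pw [false] h) := by
    rw [phi_append, phi_wd, phi_X, List.append_assoc, List.append_assoc, ← pw_succ', ← pw_add,
      ← hg, Nat.add_comm]
  have third : ∀ m, m ≤ e → ∃ v, tile (xk a k) [!a, a] (P.map (· + j)) ++ pw (xk a k) g ++
      (xk a k ++ pw [!a, a] m) = Pool.Agent.Lib.MP_5364dc_lc.phi a k j v ∧
        ∀ s, (s = some [] ∨ s = none) → ds i j H d v s = some [] := by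
    intro m hm
    cases m with
    | zero =>
      refine ⟨_, by simpa using ux, ?_⟩
      intro s hs
      cases h with
      | zero => simpa using Pweak D pP (dP0 rfl) hs
      | succ h =>
        rcases hs with rfl | rfl
        · exact P1' D pP dP _
        · rw [pw_succ', ← List.append_assoc, ds_append]
          exact P1' D pP dP _
    | succ m =>
      have hj : j = 0 := by omega
      subst hj
      refine ⟨wd (P ++ h :: List.replicate m 0), ?_, fun s hs => Pweak D ?_ (by simp; omega) hs⟩
      · rw [phi_wd, List.map_append, List.map_cons, tile_append, hg, pw_succ' (xk a k)]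
        simp [tile_zero]
      · obtain ⟨n, rfl⟩ := Nat.exists_eq_add_of_le hm
        refine ⟨List.replicate (n + 1) 0, ?_⟩
        rw [eH, show m + 1 + n = m + (n + 1) by omega, List.replicate_add m]
        simp
  cases h with
  | succ h =>
    have e2 : tile (xk a k) [!a, a] (P.map (· + j)) ++ pw (xk a k) g =
        Pool.Agent.Lib.MP_5364dc_lc.phi a k j (wd P ++ pw [false] h) := by
      rw [phi_append, phi_wd, phi_X, List.append_assoc, ← pw_add]
      congr 2; omega
    refine ⟨?_, ?_, third⟩
    · intro w _ h2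
      rw [e2, C.phi, h2]
      exact P1' D pP dP _
    · intro w w' _ _ h2
      rw [e2, C.phi, C.phi, h2]
  | zero =>
    have d0 := dP0 rfl
    have key : ∀ w, ¬ xk a k <+: w →
        st (tile (xk a k) [!a, a] (P.map (· + j)) ++ pw (xk a k) g ++ w) = some [] := by
      intro w hw
      rcases List.eq_nil_or_concat P with rfl | ⟨P0, p, rfl⟩
      · simp at d0
      rw [List.concat_eq_append] at *
      have : tile (xk a k) [!a, a] ((P0 ++ [p]).map (· + j)) ++ pw (xk a k) g ++ w =
          Pool.Agent.Lib.MP_5364dc_lc.phi a k j (wd P0 ++ pw [false] p) ++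
            ([!a, a] ++ (pw (xk a k) g ++ w)) := by
        rw [phi_append, phi_wd, phi_X, List.map_append, List.map_cons, tile_append,
          Nat.add_comm p j, pw_add]
        simp
      rw [this, C.phi, C.D1 (by omega) hw]
      exact P1' D ((List.prefix_append _ _).trans pP) (by simpa using d0) _
    exact ⟨fun w h _ => key w h, fun w w' h h' _ => by rw [key w h, key w' h'], third⟩

theorem Ctx.U1 {u : List Bool} (hu : u ++ xk a k = tile (xk a k) [!a, a] (H.map (· + j))) :
    u ++ pw (xk a k) (j + 1) = Pool.Agent.Lib.MP_5364dc_lc.phi a k j (wd H) := by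
  rw [phi_wd, ← hu, pw_succ, List.append_assoc]

theorem Ctx.U2 (C : Ctx a k i j H d st) {u : List Bool}
    (hu : u ++ xk a k = tile (xk a k) [!a, a] (H.map (· + j))) {c : ℕ} (hc : c < j)
    {w : List Bool} (hw : ¬ xk a k <+: w) : st (u ++ (pw (xk a k) (c + 1) ++ w)) = some [] := by
  have hd := C.D.dz H [] (by simp) (by simp)
  rcases List.eq_nil_or_concat H with e | ⟨S, g, e⟩
  · simp [e] at hd
  rw [List.concat_eq_append] at e
  have : u ++ (pw (xk a k) (c + 1) ++ w) =
      Pool.Agent.Lib.MP_5364dc_lc.phi a k j (wd S ++ pw [false] g) ++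
        ([!a, a] ++ (pw (xk a k) c ++ w)) := by
    rw [pw_succ, List.append_assoc, ← List.append_assoc u, hu, e, phi_append, phi_wd, phi_X,
      List.map_append, List.map_cons, tile_append, Nat.add_comm g j, pw_add]
    simp
  rw [this, C.phi, C.D1 hc hw]
  exact P1' C.D ⟨_, e.symm⟩ (by rw [e] at hd; simpa using hd) _

theorem Ctx.U3 (C : Ctx a k i j H d st) {u : List Bool}
    (hu : u ++ xk a k = tile (xk a k) [!a, a] (H.map (· + j))) {w : List Bool}
    (hw : ¬ xk a k <+: w) (h : w.head? ≠ some a ∨ st w = some []) : st (u ++ w) = some [] := by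
  obtain ⟨e, u', rfl, a1, _, a3⟩ := C.ustruct hu
  have UQ : ∀ n w, n ≤ e + k → QQ a k i j H d st w → st (u' ++ (xk a n ++ w)) = some [] := by
    intro n w hn hq
    by_cases c : n < k
    · exact a1 _ (by simpa using not_x_pref c hq.1 []) (C.Q2 hq c)
    · obtain ⟨m, rfl⟩ := Nat.exists_eq_add_of_le (not_lt.1 c)
      obtain ⟨v, b1, b2⟩ := a3 m (by omega)
      rw [xk_add, ← List.append_assoc u', b1, C.phi]
      exact b2 _ (C.Q1 hq)
  by_cases ha : w.head? = some a
  · have h := h.resolve_left (not_not.2 ha)
    obtain ⟨w1, rfl⟩ : ∃ w1, w = a :: w1 := by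
      cases w with
      | nil => simp at ha
      | cons c w => exact ⟨w, by simpa using ha⟩
    obtain ⟨r, w3, rfl, h3⟩ := strip [!a, a] (by simp) _ w1 le_rfl
    have hr : r < k := by
      by_contra hc
      obtain ⟨m, rfl⟩ := Nat.exists_eq_add_of_le (not_lt.1 hc)
      exact hw ⟨pw [!a, a] m ++ w3, by simp [xk, pw_add]⟩
    have hq : QQ a k i j H d st w3 := by
      refine ⟨h3, ?_⟩
      rintro w4 rfl
      have := C.stJ hr w4
      by_contra hc
      rw [if_neg hc] at this
      exact absurd (h.symm.trans this) (by simp)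
    have := UQ (e + 1 + r) w3 (by omega) hq
    rw [xk_add', List.append_assoc] at this
    rw [List.append_assoc]
    exact this
  · have hq : QQ a k i j H d st ((!a) :: w) := by
      refine ⟨fun e => ha ?_, fun w' e => ?_⟩
      · obtain ⟨t, e⟩ := (List.cons_prefix_cons.1 e).2
        rw [← e]; rfl
      · have := (List.cons.inj e).1
        simp at this
    have := UQ e _ (by omega) hq
    rw [xk_eq, List.append_assoc] at this
    rw [pw_succ', List.append_assoc, List.append_assoc]
    exact this

theorem Ctx.uR (C : Ctx a k i j H d st) {u : List Bool}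
    (hu : u ++ xk a k = tile (xk a k) [!a, a] (H.map (· + j))) {w : List Bool}
    (h : st w = some []) : st (u ++ w) = some [] := by
  obtain ⟨c, w2, rfl, h2⟩ := strip (xk a k) (xk_ne a k) _ w le_rfl
  by_cases hc : j + 1 ≤ c
  · obtain ⟨m, rfl⟩ := Nat.exists_eq_add_of_le hc
    rw [pw_add, List.append_assoc] at *
    rw [← List.append_assoc, Ctx.U1 hu, C.phi]
    rw [← phi_X a k j, C.phi] at h
    exact P2 C.D _ h
  · cases c with
    | zero => exact C.U3 hu h2 (Or.inr h)
    | succ c => exact C.U2 hu (by omega) h2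

theorem Ctx.detJ (C : Ctx a k i j H d st) {u : List Bool}
    (hu : u ++ xk a k = tile (xk a k) [!a, a] (H.map (· + j))) {r : ℕ} (hr : r < k) :
    Det st (u ++ (xk a r ++ xk a k)) := by
  obtain ⟨e, u', rfl, _, a2, a3⟩ := C.ustruct hu
  have e1 : ∀ w, u' ++ pw [a, !a] (e + 1) ++ (xk a r ++ xk a k) ++ w =
      u' ++ (xk a (e + 1 + r) ++ (xk a k ++ w)) := by
    intro w
    rw [xk_add']; simp
  have nb : ∀ w, ¬ [!a, a] <+: xk a k ++ w := fun w =>
    not_pref_of_head (a := !a) (b := a) rfl rfl (by simp)
  intro w w' h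
  rw [e1, e1]
  by_cases c : e + 1 + r < k
  · refine a2 _ _ (by simpa using not_x_pref c (nb w) []) (by simpa using not_x_pref c (nb w') []) ?_
    rw [C.stJ c, C.stJ c, h]
  · obtain ⟨m, hm⟩ := Nat.exists_eq_add_of_le (not_lt.1 c)
    obtain ⟨v, b1, _⟩ := a3 m (by omega)
    rw [hm, xk_add, ← List.append_assoc u' _ (xk a k ++ w), ← List.append_assoc u' _ (xk a k ++ w'),
      b1, C.phi, C.phi, C.stX, C.stX, h]

theorem cpl_family (D : Dir i 0 H d) {u : List Bool}
    (hu : u ++ xk a k = tile (xk a k) [!a, a] (H.map (· + j))) :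
    Cpl {xk a k, pw (xk a k) (i + 1) ++ ([!a, a] ++ pw (xk a k) j), u} := by
  classical
  obtain ⟨st, h1, h2⟩ := exists_st (lab a k j) (labV k) (fun l _ => lab_ne a k j l)
    (lab_pf a k j) (dlab i j H d) (some [])
  have C : Ctx a k i j H d st := ⟨D, h1, h2⟩
  obtain ⟨B, hB⟩ := II.bound (i := i) (j := j) (H := H) (d := d)
  set Z : Set (List Bool) := lab a k j '' {l | labV k l} with hZ
  have zx : xk a k ∈ Z := ⟨Sum.inl false, trivial, rfl⟩
  have zb : bt a k j ∈ Z := ⟨Sum.inl true, trivial, rfl⟩
  have uh : u.head? = some (!a) := head_of_tile (Q := []) (by simpa using hu)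
  have yphi : ∀ n, pw (xk a k) n ++ ([!a, a] ++ pw (xk a k) j) =
      phi a k j (pw [false] n ++ [true]) := by
    intro n
    rw [phi_append, phi_X, phi_B]; rfl
  have yh : (pw (xk a k) (i + 1) ++ ([!a, a] ++ pw (xk a k) j)).head? = some a := rfl
  have hne : ∀ {p q s t : List Bool}, p.head? = some a → q.head? = some (!a) → p ++ s ≠ q ++ t := by
    intro p q s t hp hq e
    have h3 : (p ++ s).head? = some a := head_append_of hp
    rw [e, head_append_of hq] at h3
    simp at h3
  have hxy : ∀ r r', st r = some [] → st r' = some [] →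
      xk a k ++ r ≠ pw (xk a k) (i + 1) ++ ([!a, a] ++ pw (xk a k) j) ++ r' := by
    intro r r' hr hr' e
    rw [pw_succ, List.append_assoc, List.append_assoc] at e
    rw [List.append_cancel_left e, ← List.append_assoc, yphi, C.phi, hr', ds_XB_le le_rfl] at hr
    simp at hr
  have stform : ∀ w v, st w = some v → v.length ≤ B := by
    intro w v e
    by_cases hc : ∃ l, labV k l ∧ lab a k j l <+: w
    · obtain ⟨l, hl, w', rfl⟩ := hc
      rw [h1 l w' hl] at e
      rcases l with c | r
      · cases hs : st w' with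
        | none => rw [hs] at e; cases e; simp
        | some v' =>
          rw [hs] at e
          by_cases hI : II i j H d (c :: v')
          · have := (dl_pos hI).symm.trans e
            cases this
            exact hB _ hI
          · have := (dl_neg hI).symm.trans e
            cases this
            simp
      · simp only [dlab] at e
        split_ifs at e
        cases e; simp
    · push Not at hc
      rw [h2 w hc] at e
      cases e; simp
  refine lemmaB Z ?_ ?_ ?_ st (some []) ?_ ?_
    (fun s => match s with | none => B + 1 | some v => v.length) (B + 1) ?_ ?_ _ (Set.toFinite _)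
    ?_ ?_ ?_ u ?_ ?_ ((j + 3) * (2 * k + 1) + 2) ?_
  · refine Set.Finite.image _ ?_
    refine ((Set.finite_range Sum.inl).union ((Set.finite_lt_nat k).image Sum.inr)).subset ?_
    rintro (c | r) h
    · exact Or.inl ⟨c, rfl⟩
    · exact Or.inr ⟨r, h, rfl⟩
  · rintro ⟨l, _, e⟩
    exact lab_ne a k j l e
  · rintro _ ⟨l, hl, rfl⟩ _ ⟨l', hl', rfl⟩ e
    rw [lab_pf a k j l l' hl hl' e]
  · rintro _ ⟨l, hl, rfl⟩ w w' e
    rw [h1 l w hl, h1 l w' hl, e]
  · intro w h
    exact h2 w fun l hl => h _ ⟨l, hl, rfl⟩
  · intro w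
    cases hs : st w with
    | none => exact le_rfl
    | some v => exact (stform w v hs).trans (Nat.le_succ _)
  · rintro _ ⟨l, hl, rfl⟩ w h
    rw [h1 l w hl] at h ⊢
    rcases l with c | r
    · cases hs : st w with
      | none => rw [hs] at h; exact absurd rfl h
      | some v =>
        rw [hs] at h
        by_cases hI : II i j H d (c :: v)
        · simp only [dlab, dl_pos hI]
          simp
        · exact absurd (dl_neg hI) h
    · simp only [dlab] at h ⊢
      split_ifs at h ⊢ with hc
      · exact absurd rfl h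
      · cases hs : st w with
        | none => rw [hs] at hc; exact absurd rfl hc
        | some v => exact Nat.lt_succ_of_le (stform w v hs)
  · rintro (e | e | e)
    · exact xk_ne a k e.symm
    · rw [← e] at yh; simp at yh
    · rw [← e] at uh; simp at uh
  · rintro _ (rfl | rfl | rfl) r hr
    · have := C.phi (pw [false] 1) r
      rw [phi_X, pw_one, hr, ds_X] at this
      exact this
    · rw [yphi, C.phi, hr, ds_XB_gt (by omega)]
    · exact C.uR hu hr
  · rintro _ (rfl | rfl | rfl) _ (rfl | rfl | rfl) r r' hr hr' e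
    · rfl
    · exact absurd e (hxy r r' hr hr')
    · exact absurd e (hne (head_xk a k) uh)
    · exact absurd e.symm (hxy r' r hr' hr)
    · rfl
    · exact absurd e (hne yh uh)
    · exact absurd e.symm (hne (head_xk a k) uh)
    · exact absurd e.symm (hne yh uh)
    · rfl
  · rintro _ (rfl | rfl | rfl)
    · exact Or.inr (Star.of_mem zx)
    · exact Or.inr (((Star.of_mem zx).pw _).append (Star.of_mem zb))
    · exact Or.inl rfl
  · rintro _ (rfl | rfl | rfl) w w' e
    · exact absurd e.symm (hne (head_xk a k) uh)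
    · exact absurd e.symm (hne yh uh)
    · rfl
  · intro p hp hA
    obtain ⟨c, p2, rfl, h3⟩ := strip (xk a k) (xk_ne a k) _ p le_rfl
    by_cases hc : j + 1 ≤ c
    · obtain ⟨m, rfl⟩ := Nat.exists_eq_add_of_le hc
      rw [pw_add, List.append_assoc] at *
      have h4 := (hA.cancel ((Star.of_mem zx).pw _)).det
      rw [← List.append_assoc, Ctx.U1 hu]
      refine Det.append ?_ h4
      intro w w' e
      rw [C.phi, C.phi, e]
    have l2 : 3 * (2 * k + 1) + 2 ≤ p2.length := by
      have : c * (2 * k + 1) ≤ j * (2 * k + 1) := Nat.mul_le_mul_right _ (by omega)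
      simp only [List.length_append, length_pw, length_xk] at hp
      nlinarith
    have h4 : ∀ w, ¬ xk a k <+: p2 ++ w := fun w e =>
      h3 (List.prefix_of_prefix_length_le e (List.prefix_append _ _) (by simp; omega))
    cases c with
    | succ c =>
      intro w w' _
      simp only [List.append_assoc]
      rw [C.U2 hu (by omega) (h4 w), C.U2 hu (by omega) (h4 w')]
    | zero =>
      simp only [pw_zero, List.nil_append] at *
      by_cases hJ : ∃ r, r < k ∧ xk a r ++ xk a k <+: p2
      · obtain ⟨r, hr, p3, rfl⟩ := hJ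
        rw [← List.append_assoc]
        have zJ : xk a r ++ xk a k ∈ Z := ⟨Sum.inr r, hr, rfl⟩
        exact (C.detJ hu hr).append (hA.cancel (Star.of_mem zJ)).det
      · push Not at hJ
        have key : ∀ w, st (u ++ p2 ++ w) = some [] := by
          intro w
          rw [List.append_assoc]
          refine C.U3 hu (h4 w) ?_
          by_cases ha : (p2 ++ w).head? = some a
          · refine Or.inr (C.dead' (h4 w) (not_pref_of_head (a := !a) rfl ha (by simp)) ?_)
            intro r hr e
            exact hJ r hr (List.prefix_of_prefix_length_le e (List.prefix_append _ _)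
              (by simp; omega))
          · exact Or.inl ha
        intro w w' _
        rw [key, key]

theorem Fam.cpl {x y z : List Bool} (h : Fam x y z) : Cpl {x, y, z} := by
  obtain ⟨a, k, i, j, G, rfl, rfl, hz, hG, hc⟩ := h
  have key : ∀ {i j d : ℕ} {G : List ℕ} {z : List Bool}, (∀ g ∈ G, j ≤ g) → Dir i j G d →
      z ++ xk a k = tile (xk a k) [!a, a] G →
      Cpl {xk a k, pw (xk a k) (i + 1) ++ ([!a, a] ++ pw (xk a k) j), z} := by
    intro i j d G z h1 D hz
    have e : G = (G.map (· - j)).map (· + j) := by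
      rw [List.map_map]
      conv_lhs => rw [← List.map_id G]
      refine List.map_congr_left fun g hg => ?_
      have := h1 g hg
      simp; omega
    rw [e] at D hz
    exact cpl_family D.unshift hz
  rcases dir_thm (a := a) ⟨hG, hc⟩ with ⟨d, D⟩ | ⟨d, D⟩
  · exact key (fun g hg => (hG g hg).2) D hz
  · obtain ⟨r1, r2, _⟩ := Fam.rev hz hc
    refine cpl_of_rev ?_
    rw [r1, reverse_xk]
    exact key (fun g hg => (hG g (by simpa using hg)).1) D r2

theorem core (x y z : List Bool) (h : C3 x y z) (h1 : PH x y z)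
    (h2 : PH x.reverse y.reverse z.reverse) : Cpl {x, y, z} := by
  have key : ∀ x y z : List Bool, Frame x y z → HH x y z → C3 x y z → Cpl {x, y, z} := by
    intro x y z f H h
    rcases family f H h with c | c
    · exact c.cpl
    · rw [Set.pair_comm]; exact c.cpl
  have H : HH x y z := ⟨h.ne1, h.ne2, h.ne3, h1, h2⟩
  rcases frame_thm _ x y z (Nat.lt_succ_self _) H with f | f | f
  · exact key x y z f H h
  · rw [Set.insert_comm]; exact key y x z f H.swap12 h.swap12
  · rw [Set.pair_comm, Set.insert_comm]; exact key z x y f H.swap23.swap12 h.swap23.swap12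

theorem three_words {A : Type} [Finite A] (x y z : List A) (h : C3 x y z) : Cpl {x, y, z} :=
  reduce_bool core _ A x y z (Nat.lt_succ_self _) h

end Pool.Agent.Lib.MP_5364dc_lc
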