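import Pool.Agent.Lib.MP_5364dc_lc.Family

/-! Choice of the reading direction. -/

namespace Pool.Agent.Lib.MP_5364dc_lc

structure Dir (i j : ℕ) (G : List ℕ) (d : ℕ) : Prop where
  pos : 1 ≤ d
  small : ∀ S g, S ++ [g] <+: G → S.length + 1 = d → g ≤ i + j
  pair : ∀ S3 g S s n, S ++ [s] <+: G → d ≤ S.length + 1 → s ≤ i + j →
    S3 ++ g :: (S ++ [s]) <+: G ++ [n] → d ≤ S3.length
  dz : ∀ P Q, G = P ++ Q → (∀ v ∈ Q, v = j) → d + 1 ≤ P.length

theorem Dir.unshift {i j d : ℕ} {H : List ℕ} (h : Dir i j (H.map (· + j)) d) : Dir i 0 H d := by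
  refine ⟨h.pos, ?_, ?_, ?_⟩
  · intro S g h1 h2
    have := h.small (S.map (· + j)) (g + j) (by simpa using h1.map (· + j)) (by simpa using h2)
    omega
  · intro S3 g S s n h1 h2 h3 h4
    simpa using h.pair (S3.map (· + j)) (g + j) (S.map (· + j)) (s + j) (n + j)
      (by simpa using h1.map (· + j)) (by simpa using h2) (by omega) (by simpa using h4.map (· + j))
  · intro P Q e h1
    simpa using h.dz (P.map (· + j)) (Q.map (· + j)) (by simp [e]) (by
      intro v hv
      obtain ⟨w, hw, rfl⟩ := List.mem_map.1 hv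
      simp [h1 w hw])

theorem pref_get {A : Type} {u v w t : List A} {c d : A} (h : u ++ c :: v <+: w ++ d :: t)
    (hl : u.length = w.length) : c = d := by
  obtain ⟨s, e⟩ := h
  rw [List.append_assoc] at e
  exact (List.cons.inj (List.append_inj e hl).2).1

theorem dir_g1 {i j c h0 h1 : ℕ} {R : List ℕ} (hs : h0 ≤ i + j) (hn : h1 ≠ h0)
    (hz : ¬ ∀ v ∈ h1 :: R, v = j) : Dir i j (List.replicate (c + 1) h0 ++ h1 :: R) (c + 1) := by
  refine ⟨by omega, ?_, ?_, ?_⟩
  · intro S g e hl
    rw [List.replicate_succ', List.append_assoc] at e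
    have := pref_get e (by simp; omega)
    omega
  · intro S3 g S s n e1 l1 _ e2
    by_contra hc
    have p1 : List.replicate (c + 1) h0 <+: S ++ [s] :=
      List.prefix_of_prefix_length_le (List.prefix_append _ _) e1 (by simpa using l1)
    obtain ⟨m, hm⟩ : ∃ m, c + 1 = (c - S3.length) + (m + 1) := ⟨S3.length, by omega⟩
    have p2 : S3 ++ g :: List.replicate (c + 1) h0 <+:
        List.replicate (c + 1) h0 ++ h1 :: (R ++ [n]) := by
      refine List.IsPrefix.trans ?_ (by simpa using e2)
      exact (List.prefix_append_right_inj _).2 ((List.prefix_cons_inj g).2 p1)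
    have p3 : (S3 ++ g :: List.replicate (c - S3.length) h0) ++ h0 :: List.replicate m h0 <+:
        List.replicate (c + 1) h0 ++ h1 :: (R ++ [n]) := by
      convert p2 using 1
      conv_rhs => rw [hm, List.replicate_add, List.replicate_succ]
      simp
    exact hn (pref_get p3 (by simp; omega)).symm
  · intro P Q e hq
    by_contra hc
    have : P <+: List.replicate (c + 1) h0 :=
      List.prefix_of_prefix_length_le ⟨Q, e.symm⟩ (List.prefix_append _ _) (by simp; omega)
    obtain ⟨t, e2⟩ := this
    rw [← e2, List.append_assoc] at e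
    have e3 := List.append_cancel_left e
    exact hz fun v hv => hq v (by rw [← e3]; exact List.mem_append_right _ hv)

def Cd (a : Bool) (i j : ℕ) (G : List ℕ) : Prop :=
  (∀ g ∈ G, i ≤ g ∧ j ≤ g) ∧
    C3 [a] (pw [a] (i + 1) ++ ([!a] ++ pw [a] (j + 1))) (tile [a] [!a] (G.map (· + 1)))

theorem Cd.rev {a : Bool} {i j : ℕ} {G : List ℕ} (h : Cd a i j G) : Cd a j i G.reverse :=
  ⟨fun g hg => (h.1 g (by simpa using hg)).symm, by simpa [reverse_pw, tile_reverse] using h.2.rev⟩

theorem dir_g2 {a : Bool} {i j s0 : ℕ} {S0 T : List ℕ} (h : Cd a i j (S0 ++ s0 :: T))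
    (hs : s0 ≤ i + j) (hT0 : T ≠ []) (hT : ∀ v ∈ T, i + j < v)
    (hU : ∀ U, U <+: S0 ++ s0 :: T → U.length ≤ T.length → ∀ v ∈ U, i + j < v) :
    Dir i j (S0 ++ s0 :: T) (S0.length + 1) := by
  have lT := List.length_pos_iff.2 hT0
  have key : ∀ S s, S ++ [s] <+: S0 ++ s0 :: T → s ≤ i + j → S.length ≤ S0.length := by
    intro S s e h1
    by_contra hc
    have : S0 ++ [s0] <+: S := List.prefix_of_prefix_length_le (l₃ := S0 ++ s0 :: T) ⟨T, by simp⟩
      ((List.prefix_append _ _).trans e) (by simp; omega)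
    obtain ⟨t, rfl⟩ := this
    obtain ⟨t', e⟩ := e
    simp only [List.append_assoc, List.cons_append, List.nil_append, List.append_cancel_left_eq,
      List.cons.injEq, true_and] at e
    have := hT s (by rw [← e]; simp)
    omega
  refine ⟨by omega, ?_, ?_, ?_⟩
  · intro S g e hl
    have := pref_get e (by omega)
    omega
  · intro S3 g S s n e1 l1 h1 e2
    exfalso
    have l2 := key S s e1 h1
    have eS : S = S0 := (List.prefix_of_prefix_length_le ((List.prefix_append _ _).trans e1)
      (List.prefix_append _ _) l2).eq_of_length (by omega)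
    subst eS
    have es : s = s0 := pref_get e1 rfl
    subst es
    have e3 : S3 ++ g :: (S ++ [s]) = S ++ s :: T ++ [n] := by
      by_contra hc
      have hl := e2.length_le
      have hl2 : (S3 ++ g :: (S ++ [s])).length ≠ (S ++ s :: T ++ [n]).length :=
        fun e => hc (e2.eq_of_length e)
      have : (S3 ++ g :: S) ++ [s] <+: S ++ s :: T :=
        List.prefix_of_prefix_length_le (by simpa using e2) (List.prefix_append _ [n])
          (by simp at hl hl2 ⊢; omega)
      have := key _ _ this h1
      simp at this; omega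
    have l3 : S3.length = T.length := by
      have := congrArg List.length e3
      simp at this; omega
    have en : s = n := by
      have e4 : (S3 ++ g :: S) ++ [s] = (S ++ s :: T) ++ [n] := by simpa using e3
      simpa using (List.append_inj' e4 rfl).2
    subst en
    have pre : S3 ++ [g] <+: S ++ s :: T :=
      List.prefix_of_prefix_length_le (l₃ := S ++ s :: T ++ [s]) ⟨S ++ [s], by simpa using e3⟩
        (List.prefix_append _ _) (by simp; omega)
    have hS3 := hU S3 ((List.prefix_append _ _).trans pre) l3.le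
    have hg := (h.1 g (pre.subset (by simp))).2
    have hs' := (h.1 s (by simp)).1
    have c := h.2
    set Y := pw [a] (i + 1) ++ ([!a] ++ pw [a] (j + 1)) with hY
    set Z := tile [a] [!a] ((S ++ s :: T).map (· + 1)) with hZ
    have sa : Star {[a], Y, Z} [a] := Star.of_mem (by simp)
    have sY : Star {[a], Y, Z} Y := Star.of_mem (by simp)
    have sZ : Star {[a], Y, Z} Z := Star.of_mem (by simp)
    obtain ⟨t1, a1, a2⟩ := tile_al (Q := [!a]) (S := []) sa sY (T.map (· + 1)) (by
      intro v hv
      obtain ⟨w, hw, rfl⟩ := List.mem_map.1 hv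
      have := hT w hw
      omega)
    obtain ⟨t2, b1, b2⟩ := tile_al (Q := [!a]) (S := []) sa sY (S3.map (· + 1)) (by
      intro v hv
      obtain ⟨w, hw, rfl⟩ := List.mem_map.1 hv
      have := hS3 w hw
      omega)
    rw [List.nil_append, flat_nil, tile_nil, ← hY] at a2 b2
    refine heads (α := i + 1) (γ := 0) c (Or.inr rfl)
      (b1.append ((sa.pw (g - j)).append (sZ.append (sa.pw (j + 1)))))
      ((sa.pw (s - i)).append (sY.append a1)) ?_
    have m1 : pw [a] (j + 1) ++ pw [a] (g - j) = pw [a] (g + 1) := by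
      rw [← pw_add]; congr 1; omega
    have m2 : pw [a] (s - i) ++ pw [a] (i + 1) = pw [a] (s + 1) := by
      rw [← pw_add]; congr 1; omega
    have m3 : tile [a] [!a] (S3.map (· + 1)) ++ (pw [a] (g + 1) ++ Z) =
        Z ++ (pw [a] (s + 1) ++ tile [a] [!a] (T.map (· + 1))) := by
      rw [hZ, ← tile_append, ← tile_append]
      congr 1
      have := congrArg (fun l => List.map (· + 1) (l ++ T)) e3
      simpa using this
    calc pw [a] 0 ++ (Y ++ (t2 ++ (pw [a] (g - j) ++ (Z ++ pw [a] (j + 1)))))
        = (Y ++ t2) ++ (pw [a] (g - j) ++ (Z ++ pw [a] (j + 1))) := by simp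
      _ = pw [a] (i + 1) ++ ((tile [a] [!a] (S3.map (· + 1)) ++
          ((pw [a] (j + 1) ++ pw [a] (g - j)) ++ Z)) ++ pw [a] (j + 1)) := by rw [← b2]; simp
      _ = pw [a] (i + 1) ++ ((Z ++ ((pw [a] (s - i) ++ pw [a] (i + 1)) ++
          tile [a] [!a] (T.map (· + 1)))) ++ pw [a] (j + 1)) := by rw [m1, m2, m3]
      _ = _ := by rw [← a2]; simp
  · intro P Q e hq
    by_contra hc
    have : P <+: S0 ++ [s0] :=
      List.prefix_of_prefix_length_le (l₃ := S0 ++ s0 :: T) ⟨Q, e.symm⟩ ⟨T, by simp⟩
        (by simp; omega)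
    obtain ⟨t, e2⟩ := this
    have e3 : P ++ (t ++ T) = P ++ Q := by rw [← List.append_assoc, e2, ← e]; simp
    obtain ⟨v, T', rfl⟩ := List.exists_cons_of_ne_nil hT0
    have h1 := hq v (by rw [← List.append_cancel_left e3]; simp)
    have h2 := hT v (by simp)
    omega

theorem run_split (s : ℕ) : ∀ R : List ℕ, (∃ c, R = List.replicate c s) ∨
    ∃ c h1 R', h1 ≠ s ∧ R = List.replicate c s ++ h1 :: R' := by
  intro R
  induction R with
  | nil => exact Or.inl ⟨0, rfl⟩
  | cons g R ih =>
    by_cases e : g = s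
    · subst e
      rcases ih with ⟨c, rfl⟩ | ⟨c, h1, R', h, rfl⟩
      · exact Or.inl ⟨c + 1, rfl⟩
      · exact Or.inr ⟨c + 1, h1, R', h, rfl⟩
    · exact Or.inr ⟨0, g, R, e, rfl⟩

theorem dir_A {a : Bool} {i j s : ℕ} {R : List ℕ} (h : Cd a i j (s :: R)) (hs : s ≤ i + j) :
    (∃ d, Dir i j (s :: R) d) ∨ ∃ d, Dir j i (s :: R).reverse d := by
  rcases run_split s R with ⟨c, rfl⟩ | ⟨c, h1, R', hn, rfl⟩
  · exfalso
    have h1 := h.1 s (by simp)
    refine nc1 (a := a) (s := [!a]) (α := i + 1) (β := j + 1) (γ := 0) (δ := 0) (g := s + 1)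
      (l := tile [a] [!a] ((s :: List.replicate c s).map (· + 1))) (by simpa using h.2)
      (Or.inr rfl) (by omega) (by omega) (by omega) (by omega) ?_
    rw [tile_tau, show [!a] ++ pw [a] (s + 1) = [s + 1].flatMap (fun g => [!a] ++ pw [a] g) by simp,
      ← List.flatMap_append, ← List.flatMap_append]
    congr 1
    have m : ∀ (t c : ℕ) (l : List ℕ), t :: (List.replicate c t ++ l) = List.replicate c t ++ t :: l := by
      intro t c l
      rw [← List.cons_append, ← List.replicate_succ, List.replicate_succ']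
      simp
    simp [m]
  · by_cases hz : ∀ v ∈ h1 :: R', v = j
    · right
      have e1 : h1 :: R' = List.replicate (R'.length + 1) j := List.eq_replicate_of_mem hz
      have e2 : h1 = j := hz h1 (by simp)
      subst e2
      have a1 := h.1 s (by simp)
      have a2 := h.1 h1 (by simp)
      refine ⟨R'.length + 1, ?_⟩
      have := dir_g1 (i := h1) (j := i) (c := R'.length) (h0 := h1) (h1 := s)
        (R := List.replicate c s) (by omega) hn.symm (fun hc => by
          have := hc s (by simp)
          omega)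
      rw [e1]
      simpa [← List.replicate_succ, ← List.replicate_succ'] using this
    · exact Or.inl ⟨c + 1, dir_g1 (c := c) hs hn hz⟩

theorem first_small (m : ℕ) : ∀ G : List ℕ, (∀ v ∈ G, m < v) ∨
    ∃ U s R, G = U ++ s :: R ∧ (∀ v ∈ U, m < v) ∧ s ≤ m := by
  intro G
  induction G with
  | nil => simp
  | cons g G ih =>
    by_cases e : g ≤ m
    · exact Or.inr ⟨[], g, G, rfl, by simp, e⟩
    · rcases ih with h | ⟨U, s, R, rfl, h1, h2⟩
      · left
        intro v hv
        rcases List.mem_cons.1 hv with rfl | hv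
        · omega
        · exact h v hv
      · refine Or.inr ⟨g :: U, s, R, rfl, ?_, h2⟩
        intro v hv
        rcases List.mem_cons.1 hv with rfl | hv
        · omega
        · exact h1 v hv

theorem dir_thm {a : Bool} {i j : ℕ} {G : List ℕ} (h : Cd a i j G) :
    (∃ d, Dir i j G d) ∨ ∃ d, Dir j i G.reverse d := by
  have nb : ∀ {i j : ℕ} {G : List ℕ}, Cd a i j G → ¬ ∀ v ∈ G, i + j < v := by
    intro i j G h hb
    refine nc3 (S := []) (gs := G.map (· + 1)) (γ := 0) (δ := 0) (Q := [!a])
      (by simpa [flat_nil] using h.2) (Or.inr rfl) ?_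
    intro v hv
    obtain ⟨w, hw, rfl⟩ := List.mem_map.1 hv
    have := hb w hw
    omega
  obtain ⟨U, s, R, e1, u1, u2⟩ := (first_small (i + j) G).resolve_left (nb h)
  obtain ⟨T, t, Q, e2, t1, t2⟩ := (first_small (j + i) G.reverse).resolve_left (nb h.rev)
  by_cases hU : U = []
  · subst hU
    subst e1
    exact dir_A h u2
  by_cases hT : T = []
  · subst hT
    have h' := h.rev
    rw [e2] at h'
    have := dir_A h' t2
    rw [List.nil_append] at e2
    rw [← e2, List.reverse_reverse] at this
    exact this.symm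
  have e2' : G = Q.reverse ++ t :: T.reverse := by
    have := congrArg List.reverse e2
    simpa using this
  have e1' : G.reverse = R.reverse ++ s :: U.reverse := by simp [e1]
  rcases le_total T.length U.length with c | c
  · left
    refine ⟨_, e2' ▸ dir_g2 (a := a) (S0 := Q.reverse) (s0 := t) (T := T.reverse) (e2' ▸ h)
      (by omega) (by simpa using hT) (fun v hv => by have := t1 v (by simpa using hv); omega) ?_⟩
    intro W hW hl v hv
    rw [← e2', e1] at hW
    exact u1 v ((List.prefix_of_prefix_length_le hW (List.prefix_append _ _)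
      (by simp at hl; omega)).subset hv)
  · right
    refine ⟨_, e1' ▸ dir_g2 (a := a) (S0 := R.reverse) (s0 := s) (T := U.reverse) (e1' ▸ h.rev)
      (by omega) (by simpa using hU) (fun v hv => by have := u1 v (by simpa using hv); omega) ?_⟩
    intro W hW hl v hv
    rw [← e1', e2] at hW
    exact t1 v ((List.prefix_of_prefix_length_le hW (List.prefix_append _ _)
      (by simp at hl; omega)).subset hv)

end Pool.Agent.Lib.MP_5364dc_lc
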