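import Pool.Agent.Lib.MP_5364dc_lc.Hull

/-! Positive factorizations: the completion lemmas again, keeping the sets `S` and `P`. -/

namespace Pool.Agent.Lib.MP_5364dc_lc

variable {A B : Type}

/-- every word is `s v p` with `s ∈ S`, `v ∈ Y*`, `p ∈ P`, in one way only -/
def Fac (Y S P : Set (List A)) : Prop :=
  (∀ w, ∃ s ∈ S, ∃ p ∈ P, ∃ v, Star Y v ∧ w = s ++ v ++ p) ∧
    ∀ s ∈ S, ∀ s' ∈ S, ∀ p ∈ P, ∀ p' ∈ P, ∀ v v', Star Y v → Star Y v' →
      s ++ v ++ p = s' ++ v' ++ p' → s = s' ∧ p = p'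

/-- is contained in a finite code with a finite positive factorization -/
def Cf (X : Set (List A)) : Prop :=
  ∃ Y S P : Set (List A), Y.Finite ∧ S.Finite ∧ P.Finite ∧ X ⊆ Y ∧ Code Y ∧ Fac Y S P

theorem Cf.mono {X Y : Set (List A)} (h : X ⊆ Y) (hY : Cf Y) : Cf X := by
  obtain ⟨Z, S, P, h1, h2, h3, h4, h5⟩ := hY
  exact ⟨Z, S, P, h1, h2, h3, h.trans h4, h5⟩

theorem exists_len {X : Set (List A)} (h : X.Finite) : ∃ M, ∀ g ∈ X, g.length ≤ M := by
  obtain ⟨M, hM⟩ := (h.image List.length).bddAbove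
  exact ⟨M, fun g hg => hM ⟨g, hg, rfl⟩⟩

theorem Fac.compl {Y S P : Set (List A)} (hS : S.Finite) (hP : P.Finite) (h : Fac Y S P) :
    Compl Y := by
  obtain ⟨M, hM⟩ := exists_len hS
  obtain ⟨N, hN⟩ := exists_len hP
  intro w
  cases w with
  | nil => exact ⟨[], [], Star.nil _⟩
  | cons c w =>
    obtain ⟨g, hg, t, ht, s, h1, e⟩ :=
      h.1 (List.replicate M c ++ ((c :: w) ++ List.replicate N c))
    rw [List.append_assoc] at e
    have hp : g <+: List.replicate M c :=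
      List.prefix_of_prefix_length_le ⟨_, e.symm⟩ (List.prefix_append _ _)
        (by simpa using hM g hg)
    obtain ⟨u, hu⟩ := hp
    have e2 : s ++ t = u ++ (c :: w) ++ List.replicate N c := by
      rw [← hu, List.append_assoc] at e
      rw [List.append_assoc]
      exact (List.append_cancel_left e).symm
    have hp2 : u ++ (c :: w) <+: s := by
      refine List.prefix_of_prefix_length_le (l₃ := s ++ t) ⟨_, e2.symm⟩ ⟨_, rfl⟩ ?_
      have h4 := congrArg List.length e2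
      have h5 := hN t ht
      simp at h4 ⊢
      omega
    obtain ⟨v, hv⟩ := hp2
    exact ⟨u, v, hv ▸ h1⟩

/-- The abstract completion lemma, with a finite left factor `S`. -/
theorem lemmaA' [Finite A] (X R G S : Set (List A)) (r0 : List A) (hr0 : r0 ∈ R)
    (hXf : X.Finite) (hX0 : [] ∉ X) (hXR : ∀ x ∈ X, ∀ r ∈ R, x ++ r ∈ R)
    (hXu : ∀ x ∈ X, ∀ x' ∈ X, ∀ r ∈ R, ∀ r' ∈ R, x ++ r = x' ++ r' → x = x')
    (hGf : G.Finite) (hG0 : [] ∉ G) (N : ℕ)
    (hcov : ∀ w : List A, N ≤ w.length → ∃ g ∈ G, ∃ r ∈ R, w = g ++ r)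
    (hGu : ∀ g ∈ G, ∀ g' ∈ G, ∀ r ∈ R, ∀ r' ∈ R, g ++ r = g' ++ r' → g = g')
    (hdet : ∀ g ∈ G, ∀ r ∈ R, ∀ r' ∈ R,
      (g ++ r ∈ R ∧ ¬ ∃ x ∈ X, ∃ s ∈ R, g ++ r = x ++ s) →
      (g ++ r' ∈ R ∧ ¬ ∃ x ∈ X, ∃ s ∈ R, g ++ r' = x ++ s))
    (hSf : S.Finite) (hS1 : ∀ w, ∃ s ∈ S, ∃ r ∈ R, w = s ++ r)
    (hS2 : ∀ s ∈ S, ∀ s' ∈ S, ∀ r ∈ R, ∀ r' ∈ R, s ++ r = s' ++ r' → s = s') : Cf X := by
  classical
  set C : Set (List A) :=
    X ∪ {g | g ∈ G ∧ g ++ r0 ∈ R ∧ ¬ ∃ x ∈ X, ∃ s ∈ R, g ++ r0 = x ++ s} with hC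
  have hCR : ∀ c ∈ C, ∀ r ∈ R, c ++ r ∈ R := by
    rintro c (hc | ⟨hg, hc⟩) r hr
    · exact hXR c hc r hr
    · exact (hdet c hg r0 hr0 r hr hc).1
  have hC0 : [] ∉ C := by
    rintro (hc | ⟨hg, _⟩)
    · exact hX0 hc
    · exact hG0 hg
  have hCu : ∀ c ∈ C, ∀ c' ∈ C, ∀ r ∈ R, ∀ r' ∈ R, c ++ r = c' ++ r' → c = c' := by
    rintro c (hc | ⟨hg, hc⟩) c' (hc' | ⟨hg', hc'⟩) r hr r' hr' h
    · exact hXu c hc c' hc' r hr r' hr' h
    · exact absurd ⟨c, hc, r, hr, h.symm⟩ (hdet c' hg' r0 hr0 r' hr' hc').2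
    · exact absurd ⟨c', hc', r', hr', h⟩ (hdet c hg r0 hr0 r hr hc).2
    · exact hGu c hg c' hg' r hr r' hr' h
  have hSR : ∀ xs : List (List A), (∀ x ∈ xs, x ∈ C) → ∀ r ∈ R, xs.flatten ++ r ∈ R := by
    intro xs
    induction xs with
    | nil => intro _ r hr; simpa using hr
    | cons x xs ih =>
      intro h r hr
      have := hCR x (h x List.mem_cons_self) _
        (ih (fun y hy => h y (List.mem_cons_of_mem _ hy)) r hr)
      simpa using this
  set P : Set (List A) := {r | r ∈ R ∧ ¬ ∃ c ∈ C, ∃ s ∈ R, r = c ++ s} with hP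
  have uniq : ∀ xs ys : List (List A), (∀ x ∈ xs, x ∈ C) → (∀ y ∈ ys, y ∈ C) →
      ∀ p ∈ P, ∀ p' ∈ P, xs.flatten ++ p = ys.flatten ++ p' → xs = ys := by
    intro xs
    induction xs with
    | nil =>
      intro ys _ hy p hp p' hp' h
      cases ys with
      | nil => rfl
      | cons y ys =>
        exact absurd ⟨y, hy y List.mem_cons_self, _,
          hSR ys (fun z hz => hy z (List.mem_cons_of_mem _ hz)) p' hp'.1, by simpa using h⟩ hp.2
    | cons x xs ih =>
      intro ys hx hy p hp p' hp' h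
      have hx' : ∀ z ∈ xs, z ∈ C := fun z hz => hx z (List.mem_cons_of_mem _ hz)
      cases ys with
      | nil =>
        exact absurd ⟨x, hx x List.mem_cons_self, _, hSR xs hx' p hp.1,
          by simpa using h.symm⟩ hp'.2
      | cons y ys =>
        have hy' : ∀ z ∈ ys, z ∈ C := fun z hz => hy z (List.mem_cons_of_mem _ hz)
        have h' : x ++ (xs.flatten ++ p) = y ++ (ys.flatten ++ p') := by simpa using h
        have hxy : x = y := hCu x (hx x List.mem_cons_self) y (hy y List.mem_cons_self) _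
          (hSR xs hx' p hp.1) _ (hSR ys hy' p' hp'.1) h'
        subst hxy
        rw [ih ys hx' hy' p hp p' hp' (List.append_cancel_left h')]
  have key : ∀ n : ℕ, ∀ r ∈ R, r.length ≤ n → ∃ v, Star C v ∧ ∃ p ∈ P, r = v ++ p := by
    intro n
    induction n with
    | zero =>
      intro r hr h
      refine ⟨[], Star.nil _, r, ⟨hr, ?_⟩, rfl⟩
      rintro ⟨c, hc, s, _, rfl⟩
      have : c = [] := List.length_eq_zero_iff.1 (by simp at h; simp [h.1])
      exact hC0 (this ▸ hc)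
    | succ n ih =>
      intro r hr h
      by_cases h1 : ∃ c ∈ C, ∃ s ∈ R, r = c ++ s
      · obtain ⟨c, hc, s, hs, e⟩ := h1
        have hl : 0 < c.length := List.length_pos_iff.2 fun h0 => hC0 (h0 ▸ hc)
        obtain ⟨v, h2, p, h3, h4⟩ := ih s hs (by rw [e] at h; simp at h; omega)
        exact ⟨c ++ v, (Star.of_mem hc).append h2, p, h3, by rw [e, h4]; simp⟩
      · exact ⟨[], Star.nil _, r, ⟨hr, h1⟩, rfl⟩
  refine ⟨C, S, P, hXf.union (hGf.subset fun g hg => hg.1), hSf, ?_, Set.subset_union_left,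
    ?_, ?_, ?_⟩
  · refine (List.finite_length_le A N).subset ?_
    rintro r ⟨hr, h⟩
    by_contra hN
    have hN' : N ≤ r.length := (not_le.1 hN).le
    refine h ?_
    by_cases h1 : ∃ x ∈ X, ∃ s ∈ R, r = x ++ s
    · obtain ⟨x, hx, s, hs, e⟩ := h1
      exact ⟨x, Or.inl hx, s, hs, e⟩
    · obtain ⟨g, hg, s, hs, e⟩ := hcov r hN'
      subst e
      exact ⟨g, Or.inr ⟨hg, hdet g hg s hs r0 hr0 ⟨hr, h1⟩⟩, s, hs, rfl⟩
  · intro xs ys hx hy e
    obtain ⟨_, _, p, hp, _⟩ := key _ r0 hr0 le_rfl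
    exact uniq xs ys hx hy p hp p hp (by rw [e])
  · intro w
    obtain ⟨s, hs, r, hr, rfl⟩ := hS1 w
    obtain ⟨v, hv, p, hp, rfl⟩ := key _ r hr le_rfl
    exact ⟨s, hs, p, hp, v, hv, by simp⟩
  · rintro s hs s' hs' p hp p' hp' _ _ ⟨xs, hx, rfl⟩ ⟨ys, hy, rfl⟩ e
    rw [List.append_assoc, List.append_assoc] at e
    have h1 := hS2 s hs s' hs' _ (hSR xs hx p hp.1) _ (hSR ys hy p' hp'.1) e
    subst h1
    have e2 := List.append_cancel_left e
    have h2 := uniq xs ys hx hy p hp p' hp' e2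
    subst h2
    exact ⟨rfl, List.append_cancel_left e2⟩

theorem cf_of_pref [Finite A] (X : Set (List A)) (hXf : X.Finite) (hX0 : [] ∉ X)
    (hp : ∀ x ∈ X, ∀ y ∈ X, x <+: y → x = y) : Cf X := by
  obtain ⟨M, hM⟩ := exists_len hXf
  refine lemmaA' X Set.univ {g | g.length = M + 1} {[]} [] trivial hXf hX0
    (fun _ _ _ _ => trivial) ?_ (List.finite_length_eq A (M + 1)) (by simp) (M + 1) ?_ ?_ ?_
    (Set.finite_singleton _) (fun w => ⟨[], rfl, w, trivial, rfl⟩) ?_
  · intro x hx x' hx' r _ r' _ h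
    rcases List.prefix_or_prefix_of_prefix (l₃ := x ++ r) (List.prefix_append x r) ⟨r', h.symm⟩
      with h1 | h1
    · exact hp x hx x' hx' h1
    · exact (hp x' hx' x hx h1).symm
  · intro w hw
    exact ⟨w.take (M + 1), by simp; omega, w.drop (M + 1), trivial, by simp⟩
  · intro g hg g' hg' r _ r' _ h
    exact (List.append_inj h (by rw [hg, hg'])).1
  · rintro g hg r _ r' _ ⟨_, h⟩
    refine ⟨trivial, ?_⟩
    rintro ⟨x, hx, s, _, e⟩
    have : x <+: g := List.prefix_of_prefix_length_le ⟨s, e.symm⟩ (List.prefix_append _ _)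
      (by have := hM x hx; have h2 : g.length = M + 1 := hg; omega)
    obtain ⟨t, rfl⟩ := this
    exact h ⟨x, hx, t ++ r, trivial, by simp⟩
  · rintro s rfl s' rfl _ _ _ _ _
    rfl

theorem Star.of_rev {X : Set (List A)} {w : List A} (h : Star (List.reverse '' X) w) :
    Star X w.reverse := by
  have := h.rev
  rw [Set.image_image] at this
  simpa using this

theorem Cf.rev {X : Set (List A)} (h : Cf X) : Cf (List.reverse '' X) := by
  obtain ⟨Y, S, P, h1, hS, hP, h2, h3, h4, h5⟩ := h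
  refine ⟨List.reverse '' Y, List.reverse '' P, List.reverse '' S, h1.image _, hP.image _,
    hS.image _, Set.image_mono h2, h3.rev, ?_, ?_⟩
  · intro w
    obtain ⟨s, hs, p, hp, v, hv, e⟩ := h4 w.reverse
    refine ⟨_, ⟨p, hp, rfl⟩, _, ⟨s, hs, rfl⟩, _, hv.rev, ?_⟩
    have := congrArg List.reverse e
    simpa using this
  · rintro _ ⟨p, hp, rfl⟩ _ ⟨p', hp', rfl⟩ _ ⟨s, hs, rfl⟩ _ ⟨s', hs', rfl⟩ v v' hv hv' e
    have := h5 s hs s' hs' p hp p' hp' _ _ hv.of_rev hv'.of_rev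
      (by simpa using congrArg List.reverse e)
    rw [this.1, this.2]
    exact ⟨rfl, rfl⟩

theorem cf_of_rev {x y z : List A} (h : Cf {x.reverse, y.reverse, z.reverse}) :
    Cf {x, y, z} := by
  have := h.rev
  simpa [Set.image_insert_eq] using this

theorem star_range (f : B → List A) {v : List A} :
    Star (Set.range f) v ↔ ∃ t : List B, t.flatMap f = v := by
  constructor
  · intro h
    refine Star.induction (P := fun v => ∃ t : List B, t.flatMap f = v) ⟨[], rfl⟩ ?_ h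
    rintro _ ⟨b, rfl⟩ _ _ ⟨t, rfl⟩
    exact ⟨b :: t, by simp⟩
  · rintro ⟨t, rfl⟩
    exact ⟨t.map f, by simp, by simp [List.flatMap]⟩

theorem star_image (f : B → List A) (Y : Set (List B)) {v : List A} :
    Star ((fun w => w.flatMap f) '' Y) v ↔ ∃ t, Star Y t ∧ t.flatMap f = v := by
  constructor
  · intro h
    refine Star.induction (P := fun v => ∃ t, Star Y t ∧ t.flatMap f = v)
      ⟨[], Star.nil _, rfl⟩ ?_ h
    rintro _ ⟨y, hy, rfl⟩ _ _ ⟨t, ht, rfl⟩
    exact ⟨y ++ t, (Star.of_mem hy).append ht, by simp⟩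
  · rintro ⟨t, ht, rfl⟩
    refine Star.induction (P := fun t => Star ((fun w => w.flatMap f) '' Y) (t.flatMap f))
      (Star.nil _) ?_ ht
    intro y hy w _ ih
    rw [List.flatMap_append]
    exact (Star.of_mem (Set.mem_image_of_mem _ hy)).append ih

/-- composition -/
theorem Cf.comp {X : Set (List B)} (f : B → List A) (hf : Function.Injective f)
    (hc : Code (Set.range f)) {S1 P1 : Set (List A)} (hS1 : S1.Finite) (hP1 : P1.Finite)
    (hm : Fac (Set.range f) S1 P1) (h : Cf X) : Cf ((fun w => w.flatMap f) '' X) := by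
  obtain ⟨Y, S, P, h1, hS, hP, h2, h3, h4, h5⟩ := h
  have hinj : Function.Injective (fun w : List B => w.flatMap f) := by
    intro v w e
    have := hc (v.map f) (w.map f) (by simp) (by simp) (by simpa [List.flatMap] using e)
    exact (List.map_injective_iff.2 hf) this
  have hfl : ∀ zs : List (List B),
      (zs.map (fun w => w.flatMap f)).flatten = zs.flatten.flatMap f := by
    intro zs
    induction zs with
    | nil => simp
    | cons z zs ih => simp [ih]
  have hlift : ∀ xs : List (List A), (∀ x ∈ xs, x ∈ (fun w => w.flatMap f) '' Y) →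
      ∃ zs : List (List B), (∀ z ∈ zs, z ∈ Y) ∧ zs.map (fun w => w.flatMap f) = xs := by
    intro xs
    induction xs with
    | nil => intro _; exact ⟨[], by simp, rfl⟩
    | cons x xs ih =>
      intro h
      obtain ⟨zs, hz, e⟩ := ih fun y hy => h y (List.mem_cons_of_mem _ hy)
      obtain ⟨z, hz', e'⟩ := h x List.mem_cons_self
      refine ⟨z :: zs, ?_, by simp only [List.map_cons, e]; rw [← e']⟩
      intro y hy
      rcases List.mem_cons.1 hy with rfl | hy
      · exact hz'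
      · exact hz y hy
  refine ⟨(fun w => w.flatMap f) '' Y, Set.image2 (fun s t => s ++ t.flatMap f) S1 S,
    Set.image2 (fun p q => q.flatMap f ++ p) P1 P, h1.image _, hS1.image2 _ hS, hP1.image2 _ hP,
    Set.image_mono h2, ?_, ?_, ?_⟩
  · intro xs ys hx hy e
    obtain ⟨xs', hx', rfl⟩ := hlift xs hx
    obtain ⟨ys', hy', rfl⟩ := hlift ys hy
    rw [hfl, hfl] at e
    rw [h3 xs' ys' hx' hy' (hinj e)]
  · intro w
    obtain ⟨s1, hs1, p1, hp1, v, hv, rfl⟩ := hm.1 w
    obtain ⟨t, rfl⟩ := (star_range f).1 hv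
    obtain ⟨s, hs, p, hp, v, hv2, rfl⟩ := h4 t
    exact ⟨_, ⟨s1, hs1, s, hs, rfl⟩, _, ⟨p1, hp1, p, hp, rfl⟩, _,
      (star_image f Y).2 ⟨v, hv2, rfl⟩, by simp⟩
  · rintro _ ⟨s1, hs1, s, hs, rfl⟩ _ ⟨s1', hs1', s', hs', rfl⟩ _ ⟨p1, hp1, p, hp, rfl⟩
      _ ⟨p1', hp1', p', hp', rfl⟩ _ _ hw hw' e
    obtain ⟨v, hv, rfl⟩ := (star_image f Y).1 hw
    obtain ⟨v', hv', rfl⟩ := (star_image f Y).1 hw'
    have e1 : s1 ++ (s ++ v ++ p).flatMap f ++ p1 = s1' ++ (s' ++ v' ++ p').flatMap f ++ p1' := by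
      simpa using e
    obtain ⟨rfl, rfl⟩ := hm.2 s1 hs1 s1' hs1' p1 hp1 p1' hp1' _ _
      ((star_range f).2 ⟨_, rfl⟩) ((star_range f).2 ⟨_, rfl⟩) e1
    obtain ⟨rfl, rfl⟩ := h5 s hs s' hs' p hp p' hp' v v' hv hv'
      (hinj (List.append_cancel_left (List.append_cancel_right e1)))
    exact ⟨rfl, rfl⟩

theorem finite_pre [Finite A] {Y : Set (List B)} (p : A → B) (h : Y.Finite) :
    {w : List A | w.map p ∈ Y}.Finite := by
  obtain ⟨M, hM⟩ := exists_len h
  refine (List.finite_length_le A M).subset ?_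
  intro w hw
  have := hM _ hw
  simpa using this

theorem star_pre {Y : Set (List B)} (p : A → B) {t : List A} :
    Star {w : List A | w.map p ∈ Y} t ↔ Star Y (t.map p) := by
  constructor
  · intro h
    refine Star.induction (P := fun t => Star Y (t.map p)) (Star.nil _) ?_ h
    intro x hx w _ ih
    rw [List.map_append]
    exact (Star.of_mem (X := Y) hx).append ih
  · rintro ⟨zs, hz, e⟩
    induction zs generalizing t with
    | nil =>
      have : t = [] := by simpa using e.symm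
      exact this ▸ Star.nil _
    | cons z zs ih =>
      obtain ⟨t1, t2, rfl, e1, e2⟩ := List.map_eq_append_iff.1 e.symm
      refine (Star.of_mem ?_).append (ih (fun y hy => hz y (List.mem_cons_of_mem _ hy)) e2.symm)
      show t1.map p ∈ Y
      rw [e1]; exact hz z List.mem_cons_self

/-- letter-to-letter preimage -/
theorem Cf.preimage [Finite A] {X : Set (List B)} (p : A → B) (h : Cf X) :
    Cf {w : List A | w.map p ∈ X} := by
  obtain ⟨Y, S, P, h1, hS, hP, h2, h3, h4, h5⟩ := h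
  refine ⟨{w : List A | w.map p ∈ Y}, {w : List A | w.map p ∈ S}, {w : List A | w.map p ∈ P},
    finite_pre p h1, finite_pre p hS, finite_pre p hP, fun w hw => h2 hw, ?_, ?_, ?_⟩
  · intro xs ys hx hy e
    have h5 := h3 (xs.map (List.map p)) (ys.map (List.map p))
      (by intro x hx'; obtain ⟨a, ha, rfl⟩ := List.mem_map.1 hx'; exact hx a ha)
      (by intro x hx'; obtain ⟨a, ha, rfl⟩ := List.mem_map.1 hx'; exact hy a ha)
      (by rw [← List.map_flatten, ← List.map_flatten, e])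
    have h6 : xs.map List.length = ys.map List.length := by
      have := congrArg (List.map List.length) h5
      simpa [List.map_map, Function.comp_def] using this
    exact List.eq_iff_flatten_eq.2 ⟨e, h6⟩
  · intro w
    obtain ⟨s, hs, q, hq, v, hv, e⟩ := h4 (w.map p)
    obtain ⟨t, q', rfl, e1, rfl⟩ := List.map_eq_append_iff.1 e
    obtain ⟨s', v', rfl, rfl, rfl⟩ := List.map_eq_append_iff.1 e1
    exact ⟨s', hs, q', hq, v', (star_pre p).2 hv, rfl⟩
  · intro s hs s' hs' q hq q' hq' v v' hv hv' e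
    obtain ⟨e1, e2⟩ := h5 _ hs _ hs' _ hq _ hq' _ _ ((star_pre p).1 hv) ((star_pre p).1 hv')
      (by simpa using congrArg (List.map p) e)
    have l1 : s.length = s'.length := by simpa using congrArg List.length e1
    have l2 : q.length = q'.length := by simpa using congrArg List.length e2
    refine ⟨?_, (List.append_inj' e l2).2⟩
    rw [List.append_assoc, List.append_assoc] at e
    exact (List.append_inj e l1).1

end Pool.Agent.Lib.MP_5364dc_lc
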