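import Pool.Agent.Lib.MP_5364dc_lc.Cons
import Pool.Agent.Lib.MP_5364dc_lc.Fac

/-! The reduction of three-word codes again, now with the sets `S` and `P` of a factorization. -/

namespace Pool.Agent.Lib.MP_5364dc_lc

variable {A S : Type}

theorem lemmaB' [Finite A] (Z : Set (List A)) (hZf : Z.Finite) (hZ0 : [] ∉ Z)
    (hZp : ∀ x ∈ Z, ∀ y ∈ Z, x <+: y → x = y) (st : List A → S) (root : S)
    (hdet : ∀ z ∈ Z, Det st z) (hdead : ∀ w, (∀ z ∈ Z, ¬ z <+: w) → st w = root)
    (rk : S → ℕ) (D : ℕ) (hD : ∀ w, rk (st w) ≤ D)
    (hrk : ∀ z ∈ Z, ∀ w, st (z ++ w) ≠ root → rk (st w) < rk (st (z ++ w)))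
    (X : Set (List A)) (hXf : X.Finite) (hX0 : [] ∉ X)
    (hXR : ∀ x ∈ X, ∀ r, st r = root → st (x ++ r) = root)
    (hXu : ∀ x ∈ X, ∀ x' ∈ X, ∀ r r', st r = root → st r' = root → x ++ r = x' ++ r' → x = x')
    (u : List A) (hX : ∀ x ∈ X, x = u ∨ Star Z x)
    (hu : ∀ x ∈ X, ∀ w w', u ++ w = x ++ w' → x = u)
    (T : ℕ) (hT : ∀ p, T ≤ p.length → ADet Z st p → Det st (u ++ p)) : Cf X := by
  classical
  have hnil : st [] = root := hdead [] fun z hz h => hZ0 (List.prefix_nil.1 h ▸ hz)
  obtain ⟨K, hK⟩ : ∃ M, ∀ g ∈ Z, g.length ≤ M := by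
    obtain ⟨M, hM⟩ := (hZf.image List.length).bddAbove
    exact ⟨M, fun g hg => hM ⟨g, hg, rfl⟩⟩
  obtain ⟨M, hM⟩ : ∃ M, ∀ g ∈ X, g.length ≤ M := by
    obtain ⟨M, hM⟩ := (hXf.image List.length).bddAbove
    exact ⟨M, fun g hg => hM ⟨g, hg, rfl⟩⟩
  have ndet : ∀ g, Node Z st root g → Det st g := by
    intro g hg
    induction hg with
    | nil => exact Det.nil st
    | cons z g hz _ _ ih => exact (hdet z hz).append ih
  have nst : ∀ g, Node Z st root g → ∀ r, st r = root → st (g ++ r) = st g := by
    intro g hg r hr
    have := ndet g hg r [] (by rw [hr, hnil])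
    simpa using this
  have nlen : ∀ g, Node Z st root g → g.length ≤ K * rk (st g) := by
    intro g hg
    induction hg with
    | nil => simp
    | cons z g hz _ h ih =>
      have h1 := hrk z hz g h
      have h2 := hK z hz
      have h3 : K * (rk (st g) + 1) ≤ K * rk (st (z ++ g)) := Nat.mul_le_mul_left _ h1
      rw [List.length_append]
      nlinarith
  have ncov : ∀ n : ℕ, ∀ w : List A, w.length ≤ n →
      ∃ g r, Node Z st root g ∧ st r = root ∧ w = g ++ r := by
    intro n
    induction n with
    | zero =>
      intro w hw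
      have : w = [] := List.length_eq_zero_iff.1 (by omega)
      exact ⟨[], [], Node.nil, hnil, by simp [this]⟩
    | succ n ih =>
      intro w hw
      by_cases h : st w = root
      · exact ⟨[], w, Node.nil, h, rfl⟩
      · have : ∃ z ∈ Z, z <+: w := by
          by_contra hc
          push Not at hc
          exact h (hdead w hc)
        obtain ⟨z, hz, w1, rfl⟩ := this
        have h2 : 0 < z.length := List.length_pos_iff.2 fun h0 => hZ0 (h0 ▸ hz)
        obtain ⟨g, r, hg, hr, rfl⟩ := ih w1 (by simp at hw; omega)
        refine ⟨z ++ g, r, Node.cons z g hz hg ?_, hr, by simp⟩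
        have := hdet z hz _ _ (nst g hg r hr)
        rwa [← this]
  have nun : ∀ g, Node Z st root g → ∀ g', Node Z st root g' → ∀ r r', st r = root →
      st r' = root → g ++ r = g' ++ r' → g = g' := by
    intro g hg
    induction hg with
    | nil =>
      intro g' hg' r r' hr hr' e
      cases hg' with
      | nil => rfl
      | cons z g hz hg h =>
        have := nst _ (Node.cons z g hz hg h) r' hr'
        rw [← e] at this
        exact absurd (this.symm.trans hr) h
    | cons z g hz hg h ih =>
      intro g' hg' r r' hr hr' e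
      cases hg' with
      | nil =>
        have := nst _ (Node.cons z g hz hg h) r hr
        rw [e] at this
        exact absurd (this.symm.trans hr') h
      | cons z' g' hz' hg' h' =>
        rw [List.append_assoc, List.append_assoc] at e
        have := pref_eq hZp hz hz' e
        subst this
        rw [ih g' hg' r r' hr hr' (List.append_cancel_left e)]
  set New : List A → Prop := fun w => st w = root ∧ ¬ ∃ x ∈ X, ∃ s, st s = root ∧ w = x ++ s
    with hNew
  set Good : List A → Prop := fun p => ∀ w w', st w = st w' → New (p ++ w) → New (p ++ w')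
    with hGood
  obtain ⟨N1, hN1⟩ := exists_adet Z hZf hZ0 hZp st root hdet hdead (T + M + 1)
  have gcov : ∀ W : List A, N1 + u.length ≤ W.length → ∃ p, p <+: W ∧ p ≠ [] ∧ Good p := by
    intro W hW
    by_cases h : u <+: W
    · obtain ⟨W', rfl⟩ := h
      obtain ⟨p, h1, h2, h3⟩ := hN1 W' (by simp at hW; omega)
      refine ⟨u ++ p, (List.prefix_append_right_inj u).2 h1, ?_, ?_⟩
      · intro h0
        have := congrArg List.length h0
        simp at this
        have h5 : p.length = 0 := by simp [this.2]
        omega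
      · rintro w w' e ⟨h4, h5⟩
        refine ⟨(hT p (by omega) h3 _ _ e).symm.trans h4, ?_⟩
        rintro ⟨x, hx, s, hs, e2⟩
        rw [List.append_assoc] at e2
        have := hu x hx _ _ e2
        subst this
        have e3 := List.append_cancel_left e2
        refine h5 ⟨x, hx, p ++ w, ?_, by simp⟩
        rw [h3.det _ _ e, e3, hs]
    · obtain ⟨p, h1, h2, h3⟩ := hN1 W (by omega)
      refine ⟨p, h1, ?_, ?_⟩
      · rintro rfl
        simp at h2
      · rintro w w' e ⟨h4, h5⟩
        refine ⟨(h3.det _ _ e).symm.trans h4, ?_⟩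
        rintro ⟨x, hx, s, hs, e2⟩
        have hxp : x <+: p := List.prefix_of_prefix_length_le ⟨s, e2.symm⟩ (List.prefix_append _ _)
          (by have := hM x hx; omega)
        rcases hX x hx with rfl | hs'
        · exact h (hxp.trans h1)
        · obtain ⟨p', rfl⟩ := hxp
          rw [List.append_assoc] at e2
          have e3 := List.append_cancel_left e2
          refine h5 ⟨x, hx, p' ++ w, ?_, by simp⟩
          rw [h3 x p' hs' rfl _ _ e, e3, hs]
  set P : Set (List A) := {p | p ≠ [] ∧ Good p ∧ ∀ q, q <+: p → q ≠ [] → Good q → q = p} with hP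
  have Pf : P.Finite := by
    refine (List.finite_length_le A (N1 + u.length)).subset ?_
    rintro p ⟨_, _, h3⟩
    by_contra hc
    have hc' : N1 + u.length < p.length := not_le.1 hc
    obtain ⟨q, h4, h5, h6⟩ := gcov (p.take (N1 + u.length)) (by simp; omega)
    have h7 := h3 q (h4.trans (List.take_prefix _ _)) h5 h6
    have h8 := h4.length_le
    rw [h7] at h8
    simp at h8
    omega
  have Pcov : ∀ n : ℕ, ∀ q : List A, q.length ≤ n → q ≠ [] → Good q → ∃ p ∈ P, p <+: q := by
    intro n
    induction n with
    | zero => intro q h h0; exact absurd (List.length_eq_zero_iff.1 (by omega)) h0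
    | succ n ih =>
      intro q h h0 hg
      by_cases hc : ∀ q', q' <+: q → q' ≠ [] → Good q' → q' = q
      · exact ⟨q, ⟨h0, hg, hc⟩, List.prefix_rfl⟩
      · push Not at hc
        obtain ⟨q', h1, h2, h3, h4⟩ := hc
        have : q'.length < q.length :=
          lt_of_le_of_ne h1.length_le fun e => h4 (h1.eq_of_length e)
        obtain ⟨p, hp, h5⟩ := ih q' (by omega) h2 h3
        exact ⟨p, hp, h5.trans h1⟩
  have Nf : {g | Node Z st root g}.Finite := by
    refine (List.finite_length_le A (K * D)).subset ?_
    intro g hg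
    exact (nlen g hg).trans (Nat.mul_le_mul_left _ (hD g))
  refine lemmaA' X {w | st w = root} (Set.image2 (· ++ ·) P {g | Node Z st root g})
    {g | Node Z st root g} [] hnil hXf hX0
    hXR (fun x hx x' hx' r hr r' hr' => hXu x hx x' hx' r r' hr hr') (Pf.image2 _ Nf) ?_
    (N1 + u.length) ?_ ?_ ?_ Nf
    (fun w => (ncov _ w le_rfl).imp fun g ⟨r, h1, h2, h3⟩ => ⟨h1, r, h2, h3⟩)
    (fun g hg g' hg' r hr r' hr' => nun g hg g' hg' r r' hr hr')
  · rintro ⟨p, hp, g, _, e⟩
    exact hp.1 (List.append_eq_nil_iff.1 e).1
  · intro W hW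
    obtain ⟨q, h1, h2, h3⟩ := gcov W hW
    obtain ⟨p, hp, h4⟩ := Pcov q.length q le_rfl h2 h3
    obtain ⟨w, rfl⟩ := h4.trans h1
    obtain ⟨g, r, hg, hr, rfl⟩ := ncov w.length w le_rfl
    exact ⟨p ++ g, ⟨p, hp, g, hg, rfl⟩, r, hr, by simp⟩
  · rintro _ ⟨p, hp, g, hg, rfl⟩ _ ⟨p', hp', g', hg', rfl⟩ r hr r' hr' e
    simp only [List.append_assoc] at e
    have : p = p' := by
      rcases List.prefix_or_prefix_of_prefix (List.prefix_append p (g ++ r)) ⟨_, e.symm⟩
        with h1 | h1
      · exact hp'.2.2 p h1 hp.1 hp.2.1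
      · exact (hp.2.2 p' h1 hp'.1 hp'.2.1).symm
    subst this
    rw [nun g hg g' hg' r r' hr hr' (List.append_cancel_left e)]
  · rintro _ ⟨p, hp, g, hg, rfl⟩ r hr r' hr' h
    have := hp.2.1 (g ++ r) (g ++ r') (by rw [nst g hg r hr, nst g hg r' hr'])
      (by simpa [hNew] using h)
    simpa [hNew] using this

theorem step_not_ph' [Finite A] (x y z : List A) (hc : C3 x y z) (hn : ¬ PHg x y z)
    (ih : ∀ (B : Type) [Finite B] (x' y' z' : List B),
      x'.length + y'.length + z'.length < x.length + y.length + z.length → C3 x' y' z' →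
      Cf {x', y', z'}) : Cf {x, y, z} := by
  simp only [PHg, not_forall] at hn
  obtain ⟨M, hM, hx, hy, hz, c, hcm, hcM⟩ := hn
  obtain ⟨xs, hxs, rfl⟩ := ru_factor M _ x hx le_rfl
  obtain ⟨ys, hys, rfl⟩ := ru_factor M _ y hy le_rfl
  obtain ⟨zs, hzs, rfl⟩ := ru_factor M _ z hz le_rfl
  have hall : ∀ w ∈ xs ++ ys ++ zs,
      w ∈ M ∧ w ≠ [] ∧ ∀ u v, u ∈ M → v ∈ M → w = u ++ v → u = [] ∨ v = [] := by
    intro w hw
    simp only [List.mem_append] at hw
    rcases hw with (h | h) | h
    · exact hxs w h
    · exact hys w h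
    · exact hzs w h
  obtain ⟨Z', S, P, f1, fS, fP, f2, f3, f4⟩ := cf_of_pref {w | w ∈ xs ++ ys ++ zs}
    (List.finite_toSet _)
    (fun h => (hall _ h).2.1 rfl) (by
      rintro a ha b hb ⟨v, rfl⟩
      have h1 := hM.can (hall a ha).1 (hall _ hb).1
      rcases (hall _ hb).2.2 a v (hall a ha).1 h1 rfl with h | h
      · exact absurd h (hall a ha).2.1
      · simp [h])
  have : Finite Z' := f1.to_subtype
  have lift : ∀ ws : List (List A), (∀ w ∈ ws, w ∈ Z') →
      ∃ t : List Z', t.flatMap Subtype.val = ws.flatten ∧ t.length = ws.length := by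
    intro ws
    induction ws with
    | nil => intro _; exact ⟨[], rfl, rfl⟩
    | cons w ws ih =>
      intro h
      obtain ⟨t, h1, h2⟩ := ih fun y hy => h y (List.mem_cons_of_mem _ hy)
      exact ⟨⟨w, h w List.mem_cons_self⟩ :: t, by simp [h1], by simp [h2]⟩
  obtain ⟨x', x1, x2⟩ := lift xs fun w hw => f2 (by simp [hw])
  obtain ⟨y', y1, y2⟩ := lift ys fun w hw => f2 (by simp [hw])
  obtain ⟨z', z1, z2⟩ := lift zs fun w hw => f2 (by simp [hw])
  have hc' : C3 x' y' z' :=
    C3.pull (fun a b => a.flatMap Subtype.val = b) rfl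
      (by rintro a _ c _ rfl rfl; simp) (by rintro a _ _ rfl rfl; rfl) x1 y1 z1 hc
  have l1 := len_le_flatten xs fun w hw => (hxs w hw).2.1
  have l2 := len_le_flatten ys fun w hw => (hys w hw).2.1
  have l3 := len_le_flatten zs fun w hw => (hzs w hw).2.1
  have hlt : x'.length + y'.length + z'.length <
      xs.flatten.length + ys.flatten.length + zs.flatten.length := by
    simp only [List.mem_append] at hcm
    rcases hcm with (h | h) | h
    · have := len_lt_flatten xs (fun w hw => (hxs w hw).2.1) c h fun e => hcM (hxs _ e).1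
      omega
    · have := len_lt_flatten ys (fun w hw => (hys w hw).2.1) c h fun e => hcM (hys _ e).1
      omega
    · have := len_lt_flatten zs (fun w hw => (hzs w hw).2.1) c h fun e => hcM (hzs _ e).1
      omega
  have := (ih Z' x' y' z' hlt hc').comp (Subtype.val : Z' → List A) Subtype.val_injective
    (by rw [Subtype.range_coe]; exact f3) fS fP (by rw [Subtype.range_coe]; exact f4)
  simpa only [Set.image_insert_eq, Set.image_singleton, x1, y1, z1] using this

theorem reduce_bool'
    (core : ∀ x y z : List Bool, C3 x y z → PH x y z → PH x.reverse y.reverse z.reverse →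
      Cf {x, y, z}) :
    ∀ n : ℕ, ∀ (A : Type) [Finite A] (x y z : List A), x.length + y.length + z.length < n →
      C3 x y z → Cf {x, y, z} := by
  classical
  intro n
  induction n with
  | zero => intro A _ x y z h; omega
  | succ n ih =>
    intro A _ x y z hl hc
    by_cases h1 : PHg x y z
    swap
    · exact step_not_ph' x y z hc h1 fun B _ x' y' z' h h' => ih B x' y' z' (by omega) h'
    by_cases h2 : PHg x.reverse y.reverse z.reverse
    swap
    · refine cf_of_rev (step_not_ph' _ _ _ hc.rev h2 fun B _ x' y' z' h h' =>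
        ih B x' y' z' (by simp at h; omega) h')
    have first : ∀ c ∈ x ++ y ++ z, x.head? = some c ∨ y.head? = some c ∨ z.head? = some c := by
      intro c hcm
      by_contra hn
      push Not at hn
      have := h2 _ (ru_last c) (by simpa using hn.1) (by simpa using hn.2.1)
        (by simpa using hn.2.2) c (by simpa using hcm)
      simp at this
    obtain ⟨a, ha, b, hb, hab⟩ : ∃ a ∈ x ++ y ++ z, ∃ b ∈ x ++ y ++ z, a ≠ b := by
      by_contra hn
      push Not at hn
      obtain ⟨a, x1, rfl⟩ := List.exists_cons_of_ne_nil hc.ne1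
      have e1 : a :: x1 = List.replicate (a :: x1).length a :=
        List.eq_replicate_of_mem fun b hb => hn b (by simp only [List.mem_append]; tauto) a (by simp)
      have e2 : y = List.replicate y.length a :=
        List.eq_replicate_of_mem fun b hb => hn b (by simp only [List.mem_append]; tauto) a (by simp)
      refine hc.not12 (s := y) (t := a :: x1) (Star.of_mem (by simp)) (Star.of_mem (by simp)) ?_
      rw [e1, e2, ← List.replicate_add, ← List.replicate_add, Nat.add_comm]
    by_cases h3 : ∃ c ∈ x ++ y ++ z, c ≠ a ∧ c ≠ b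
    · obtain ⟨c, hcm, hca, hcb⟩ := h3
      have fa := first a ha
      have fb := first b hb
      have fc := first c hcm
      obtain ⟨p, x1, rfl⟩ := List.exists_cons_of_ne_nil hc.ne1
      obtain ⟨q, y1, rfl⟩ := List.exists_cons_of_ne_nil hc.ne2
      obtain ⟨r, z1, rfl⟩ := List.exists_cons_of_ne_nil hc.ne3
      simp only [List.head?_cons, Option.some.injEq] at fa fb fc
      have d : p ≠ q ∧ p ≠ r ∧ q ≠ r := by
        refine ⟨?_, ?_, ?_⟩ <;> intro e <;> grind
      refine cf_of_pref _ (Set.toFinite _) (by simp) ?_
      rintro v (rfl | rfl | rfl) w (rfl | rfl | rfl) h <;>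
        first
          | rfl
          | (exfalso; have := (List.cons_prefix_cons.1 h).1; grind)
    · push Not at h3
      let p : A → Bool := fun c => decide (c = a)
      let i : Bool → A := fun t => if t then a else b
      have ip : ∀ c ∈ x ++ y ++ z, i (p c) = c := by
        intro c hcm
        by_cases e : c = a
        · simp [i, p, e]
        · have e2 := h3 c hcm e
          subst e2
          simp [i, p, e]
      have ipl : ∀ w : List A, (∀ c ∈ w, c ∈ x ++ y ++ z) → (w.map p).map i = w := by
        intro w hw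
        rw [List.map_map]
        conv_rhs => rw [← List.map_id w]
        exact List.map_congr_left fun c hcw => ip c (hw c hcw)
      have hc' : C3 (x.map p) (y.map p) (z.map p) :=
        C3.pull (fun v w => v.map i = w) rfl (by rintro a _ c _ rfl rfl; simp)
          (by rintro a _ _ rfl rfl; rfl) (ipl x (by simp only [List.mem_append]; tauto))
          (ipl y (by simp only [List.mem_append]; tauto))
          (ipl z (by simp only [List.mem_append]; tauto)) hc
      have tr : ∀ x y z : List A, PHg x y z → a ∈ x ++ y ++ z → b ∈ x ++ y ++ z →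
          PH (x.map p) (y.map p) (z.map p) := by
        intro x y z h ha hb M hM hx hy hz c
        have hM' : RU {w : List A | w.map p ∈ M} :=
          ⟨hM.nil, fun {u v} hu hv => by
              show (u ++ v).map p ∈ M
              rw [List.map_append]; exact hM.app hu hv,
            fun {u v} hu hv => by
              have hv' : (u ++ v).map p ∈ M := hv
              rw [List.map_append] at hv'; exact hM.can hu hv'⟩
        have k := h _ hM' hx hy hz
        cases c with
        | true => simpa [p] using k a ha
        | false => simpa [p, hab.symm] using k b hb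
      have := core _ _ _ hc' (tr x y z h1 ha hb) (by
        have := tr _ _ _ h2 (by simpa using ha) (by simpa using hb)
        simpa [List.map_reverse] using this)
      refine (this.preimage p).mono ?_
      rintro w (rfl | rfl | rfl) <;> simp

variable {a : Bool} {k i j d : ℕ} {H : List ℕ}

theorem cf_family (D : Dir i 0 H d) {u : List Bool}
    (hu : u ++ xk a k = tile (xk a k) [!a, a] (H.map (· + j))) :
    Cf {xk a k, pw (xk a k) (i + 1) ++ ([!a, a] ++ pw (xk a k) j), u} := by
  classical
  obtain ⟨st, h1, h2⟩ := exists_st (lab a k j) (labV k) (fun l _ => lab_ne a k j l)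
    (lab_pf a k j) (dlab i j H d) (some [])
  have C : Ctx a k i j H d st := ⟨D, h1, h2⟩
  obtain ⟨B, hB⟩ := II.bound (i := i) (j := j) (H := H) (d := d)
  set Z : Set (List Bool) := lab a k j '' {l | labV k l} with hZ
  have zx : xk a k ∈ Z := ⟨Sum.inl false, trivial, rfl⟩
  have zb : bt a k j ∈ Z := ⟨Sum.inl true, trivial, rfl⟩
  have uh : u.head? = some (!a) := head_of_tile (Q := []) (by simpa using hu)
  have yphi : ∀ n, pw (xk a k) n ++ ([!a, a] ++ pw (xk a k) j) =
      phi a k j (pw [false] n ++ [true]) := by
    intro n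
    rw [phi_append, phi_X, phi_B]; rfl
  have yh : (pw (xk a k) (i + 1) ++ ([!a, a] ++ pw (xk a k) j)).head? = some a := rfl
  have hne : ∀ {p q s t : List Bool}, p.head? = some a → q.head? = some (!a) → p ++ s ≠ q ++ t := by
    intro p q s t hp hq e
    have h3 : (p ++ s).head? = some a := head_append_of hp
    rw [e, head_append_of hq] at h3
    simp at h3
  have hxy : ∀ r r', st r = some [] → st r' = some [] →
      xk a k ++ r ≠ pw (xk a k) (i + 1) ++ ([!a, a] ++ pw (xk a k) j) ++ r' := by
    intro r r' hr hr' e
    rw [pw_succ, List.append_assoc, List.append_assoc] at e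
    rw [List.append_cancel_left e, ← List.append_assoc, yphi, C.phi, hr', ds_XB_le le_rfl] at hr
    simp at hr
  have stform : ∀ w v, st w = some v → v.length ≤ B := by
    intro w v e
    by_cases hc : ∃ l, labV k l ∧ lab a k j l <+: w
    · obtain ⟨l, hl, w', rfl⟩ := hc
      rw [h1 l w' hl] at e
      rcases l with c | r
      · cases hs : st w' with
        | none => rw [hs] at e; cases e; simp
        | some v' =>
          rw [hs] at e
          by_cases hI : II i j H d (c :: v')
          · have := (dl_pos hI).symm.trans e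
            cases this
            exact hB _ hI
          · have := (dl_neg hI).symm.trans e
            cases this
            simp
      · simp only [dlab] at e
        split_ifs at e
        cases e; simp
    · push Not at hc
      rw [h2 w hc] at e
      cases e; simp
  refine lemmaB' Z ?_ ?_ ?_ st (some []) ?_ ?_
    (fun s => match s with | none => B + 1 | some v => v.length) (B + 1) ?_ ?_ _ (Set.toFinite _)
    ?_ ?_ ?_ u ?_ ?_ ((j + 3) * (2 * k + 1) + 2) ?_
  · refine Set.Finite.image _ ?_
    refine ((Set.finite_range Sum.inl).union ((Set.finite_lt_nat k).image Sum.inr)).subset ?_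
    rintro (c | r) h
    · exact Or.inl ⟨c, rfl⟩
    · exact Or.inr ⟨r, h, rfl⟩
  · rintro ⟨l, _, e⟩
    exact lab_ne a k j l e
  · rintro _ ⟨l, hl, rfl⟩ _ ⟨l', hl', rfl⟩ e
    rw [lab_pf a k j l l' hl hl' e]
  · rintro _ ⟨l, hl, rfl⟩ w w' e
    rw [h1 l w hl, h1 l w' hl, e]
  · intro w h
    exact h2 w fun l hl => h _ ⟨l, hl, rfl⟩
  · intro w
    cases hs : st w with
    | none => exact le_rfl
    | some v => exact (stform w v hs).trans (Nat.le_succ _)
  · rintro _ ⟨l, hl, rfl⟩ w h
    rw [h1 l w hl] at h ⊢
    rcases l with c | r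
    · cases hs : st w with
      | none => rw [hs] at h; exact absurd rfl h
      | some v =>
        rw [hs] at h
        by_cases hI : II i j H d (c :: v)
        · simp only [dlab, dl_pos hI]
          simp
        · exact absurd (dl_neg hI) h
    · simp only [dlab] at h ⊢
      split_ifs at h ⊢ with hc
      · exact absurd rfl h
      · cases hs : st w with
        | none => rw [hs] at hc; exact absurd rfl hc
        | some v => exact Nat.lt_succ_of_le (stform w v hs)
  · rintro (e | e | e)
    · exact xk_ne a k e.symm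
    · rw [← e] at yh; simp at yh
    · rw [← e] at uh; simp at uh
  · rintro _ (rfl | rfl | rfl) r hr
    · have := C.phi (pw [false] 1) r
      rw [phi_X, pw_one, hr, ds_X] at this
      exact this
    · rw [yphi, C.phi, hr, ds_XB_gt (by omega)]
    · exact C.uR hu hr
  · rintro _ (rfl | rfl | rfl) _ (rfl | rfl | rfl) r r' hr hr' e
    · rfl
    · exact absurd e (hxy r r' hr hr')
    · exact absurd e (hne (head_xk a k) uh)
    · exact absurd e.symm (hxy r' r hr' hr)
    · rfl
    · exact absurd e (hne yh uh)
    · exact absurd e.symm (hne (head_xk a k) uh)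
    · exact absurd e.symm (hne yh uh)
    · rfl
  · rintro _ (rfl | rfl | rfl)
    · exact Or.inr (Star.of_mem zx)
    · exact Or.inr (((Star.of_mem zx).pw _).append (Star.of_mem zb))
    · exact Or.inl rfl
  · rintro _ (rfl | rfl | rfl) w w' e
    · exact absurd e.symm (hne (head_xk a k) uh)
    · exact absurd e.symm (hne yh uh)
    · rfl
  · intro p hp hA
    obtain ⟨c, p2, rfl, h3⟩ := strip (xk a k) (xk_ne a k) _ p le_rfl
    by_cases hc : j + 1 ≤ c
    · obtain ⟨m, rfl⟩ := Nat.exists_eq_add_of_le hc
      rw [pw_add, List.append_assoc] at *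
      have h4 := (hA.cancel ((Star.of_mem zx).pw _)).det
      rw [← List.append_assoc, Ctx.U1 hu]
      refine Det.append ?_ h4
      intro w w' e
      rw [C.phi, C.phi, e]
    have l2 : 3 * (2 * k + 1) + 2 ≤ p2.length := by
      have : c * (2 * k + 1) ≤ j * (2 * k + 1) := Nat.mul_le_mul_right _ (by omega)
      simp only [List.length_append, length_pw, length_xk] at hp
      nlinarith
    have h4 : ∀ w, ¬ xk a k <+: p2 ++ w := fun w e =>
      h3 (List.prefix_of_prefix_length_le e (List.prefix_append _ _) (by simp; omega))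
    cases c with
    | succ c =>
      intro w w' _
      simp only [List.append_assoc]
      rw [C.U2 hu (by omega) (h4 w), C.U2 hu (by omega) (h4 w')]
    | zero =>
      simp only [pw_zero, List.nil_append] at *
      by_cases hJ : ∃ r, r < k ∧ xk a r ++ xk a k <+: p2
      · obtain ⟨r, hr, p3, rfl⟩ := hJ
        rw [← List.append_assoc]
        have zJ : xk a r ++ xk a k ∈ Z := ⟨Sum.inr r, hr, rfl⟩
        exact (C.detJ hu hr).append (hA.cancel (Star.of_mem zJ)).det
      · push Not at hJ
        have key : ∀ w, st (u ++ p2 ++ w) = some [] := by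
          intro w
          rw [List.append_assoc]
          refine C.U3 hu (h4 w) ?_
          by_cases ha : (p2 ++ w).head? = some a
          · refine Or.inr (C.dead' (h4 w) (not_pref_of_head (a := !a) rfl ha (by simp)) ?_)
            intro r hr e
            exact hJ r hr (List.prefix_of_prefix_length_le e (List.prefix_append _ _)
              (by simp; omega))
          · exact Or.inl ha
        intro w w' _
        rw [key, key]

theorem Fam.cf {x y z : List Bool} (h : Fam x y z) : Cf {x, y, z} := by
  obtain ⟨a, k, i, j, G, rfl, rfl, hz, hG, hc⟩ := h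
  have key : ∀ {i j d : ℕ} {G : List ℕ} {z : List Bool}, (∀ g ∈ G, j ≤ g) → Dir i j G d →
      z ++ xk a k = tile (xk a k) [!a, a] G →
      Cf {xk a k, pw (xk a k) (i + 1) ++ ([!a, a] ++ pw (xk a k) j), z} := by
    intro i j d G z h1 D hz
    have e : G = (G.map (· - j)).map (· + j) := by
      rw [List.map_map]
      conv_lhs => rw [← List.map_id G]
      refine List.map_congr_left fun g hg => ?_
      have := h1 g hg
      simp; omega
    rw [e] at D hz
    exact cf_family D.unshift hz
  rcases dir_thm (a := a) ⟨hG, hc⟩ with ⟨d, D⟩ | ⟨d, D⟩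
  · exact key (fun g hg => (hG g hg).2) D hz
  · obtain ⟨r1, r2, _⟩ := Fam.rev hz hc
    refine cf_of_rev ?_
    rw [r1, reverse_xk]
    exact key (fun g hg => (hG g (by simpa using hg)).1) D r2

theorem core' (x y z : List Bool) (h : C3 x y z) (h1 : PH x y z)
    (h2 : PH x.reverse y.reverse z.reverse) : Cf {x, y, z} := by
  have key : ∀ x y z : List Bool, Frame x y z → HH x y z → C3 x y z → Cf {x, y, z} := by
    intro x y z f H h
    rcases family f H h with c | c
    · exact c.cf
    · rw [Set.pair_comm]; exact c.cf
  have H : HH x y z := ⟨h.ne1, h.ne2, h.ne3, h1, h2⟩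
  rcases frame_thm _ x y z (Nat.lt_succ_self _) H with f | f | f
  · exact key x y z f H h
  · rw [Set.insert_comm]; exact key y x z f H.swap12 h.swap12
  · rw [Set.pair_comm, Set.insert_comm]; exact key z x y f H.swap23.swap12 h.swap23.swap12

theorem three_words' {A : Type} [Finite A] (x y z : List A) (h : C3 x y z) : Cf {x, y, z} :=
  reduce_bool' core' _ A x y z (Nat.lt_succ_self _) h

end Pool.Agent.Lib.MP_5364dc_lc
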