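import Pool.Agent.Lib.MP_5364dc_lc.Classify

/-! The family of triples left after all reductions. -/

namespace Pool.Agent.Lib.MP_5364dc_lc

def Fam (x y z : List Bool) : Prop :=
  ∃ (a : Bool) (k i j : ℕ) (G : List ℕ), x = xk a k ∧ y = pw x (i + 1) ++ ([!a, a] ++ pw x j) ∧
    z ++ x = tile x [!a, a] G ∧ (∀ g ∈ G, i ≤ g ∧ j ≤ g) ∧
    C3 [a] (pw [a] (i + 1) ++ ([!a] ++ pw [a] (j + 1))) (tile [a] [!a] (G.map (· + 1)))

theorem tile_al_mem {A : Type} {M : Set (List A)} (hM : RU M) {P Q : List A} {S : List ℕ}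
    (hP : P ∈ M) (hS : tile P Q S ∈ M) (gs : List ℕ) :
    tile P Q (S ++ gs.flatMap (fun g => g :: S)) ∈ M := by
  induction gs with
  | nil => simpa using hS
  | cons g gs ih =>
    rw [List.flatMap_cons, List.cons_append, tile_append]
    exact hM.app hS (hM.app (hM.pw hP g) ih)

theorem tile_al_suf {A : Type} (P Q : List A) (S gs : List ℕ) :
    ∃ W, tile P Q (S ++ gs.flatMap (fun g => g :: S)) = W ++ tile P Q S ∧
      ∀ M, RU M → P ∈ M → tile P Q S ∈ M → W ∈ M := by
  induction gs with
  | nil => exact ⟨[], by simp, fun M hM _ _ => hM.nil⟩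
  | cons g gs ih =>
    obtain ⟨W, e, h⟩ := ih
    refine ⟨tile P Q S ++ (pw P g ++ W), ?_, fun M hM h1 h2 =>
      hM.app h2 (hM.app (hM.pw h1 g) (h M hM h1 h2))⟩
    rw [List.flatMap_cons, List.cons_append, tile_append, e]
    simp

theorem tile_succ (a b : Bool) (G : List ℕ) :
    tile [a] [b] (G.map (· + 1)) ++ [a] = tile [a] [b, a] G := by
  induction G with
  | nil => rfl
  | cons g G ih => rw [List.map_cons, tile_cons, tile_cons, ← ih, pw_succ]; simp

theorem flat_nil (gs : List ℕ) : gs.flatMap (fun g => g :: []) = gs := by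
  induction gs with
  | nil => rfl
  | cons g gs ih => rw [List.flatMap_cons, ih]; rfl

theorem not_pw {A : Type} {x y z : List A} (h : C3 x y z) (n : ℕ) : y ≠ pw x n := by
  intro e
  cases n with
  | zero => exact h.ne2 e
  | succ n =>
    exact h.not12 (s := pw x n) (t := []) ((Star.of_mem (by simp)).pw n) (Star.nil _)
      (by rw [List.append_nil, e, pw_succ])

theorem fam_zero {a : Bool} {S L : List ℕ} {α β γ δ : ℕ}
    (H : HH [a] (pw [a] α ++ (tile [a] [!a] S ++ pw [a] β))
      (pw [a] γ ++ (tile [a] [!a] L ++ pw [a] δ)))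
    (h : C3 [a] (pw [a] α ++ (tile [a] [!a] S ++ pw [a] β))
      (pw [a] γ ++ (tile [a] [!a] L ++ pw [a] δ))) (hl : S.length ≤ L.length) :
    Fam [a] (pw [a] α ++ (tile [a] [!a] S ++ pw [a] β))
      (pw [a] γ ++ (tile [a] [!a] L ++ pw [a] δ)) := by
  have hd : ∀ (α γ : ℕ) (u v : List Bool), HH [a] (pw [a] α ++ u) (pw [a] γ ++ v) →
      α = 0 ∨ γ = 0 := by
    intro α γ u v H
    cases α with
    | zero => exact Or.inl rfl
    | succ α =>
      cases γ with
      | zero => exact Or.inr rfl
      | succ γ =>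
        have := H.head3 (a := a) rfl (by simp [pw_succ])
        simp [pw_succ] at this
  have Hr : HH [a] (pw [a] β ++ (tile [a] [!a] S.reverse ++ pw [a] α))
      (pw [a] δ ++ (tile [a] [!a] L.reverse ++ pw [a] γ)) := by
    simpa [reverse_pw, tile_reverse] using H.rev
  have l1 := lp_zero a S β δ _ L le_rfl
    (H.ph.of fun M hM h1 h2 h3 => ⟨h1, hM.app (hM.pw h1 α) h2, hM.app (hM.pw h1 γ) h3⟩)
  have l2 := lp_zero a S.reverse α γ _ L.reverse le_rfl
    (Hr.ph.of fun M hM h1 h2 h3 => ⟨h1, hM.app (hM.pw h1 β) h2, hM.app (hM.pw h1 δ) h3⟩)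
  obtain ⟨h1, h2, rfl, rfl, gs, rfl, hg⟩ := class0 h (hd _ _ _ _ H) (hd _ _ _ _ Hr) l1 l2 hl
  have two : PH [a] (tile [a] [!a] S) (tile [a] [!a] S) := H.ph.of fun M hM h1 h2 _ =>
    ⟨h1, hM.app (hM.pw h1 α) (hM.app h2 (hM.pw h1 β)), by simpa using tile_al_mem hM h1 h2 gs⟩
  have hS : S = [] := by
    obtain ⟨t, e⟩ := tile_head [a] [!a] S
    have := (two.two' (a := a) rfl (by simp [e])).2
    cases S with
    | nil => rfl
    | cons s S =>
      obtain ⟨t, e⟩ := tile_head [a] [!a] S
      simp [tile_cons, e] at this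
  subst hS
  obtain ⟨i, rfl⟩ : ∃ i, α = i + 1 := ⟨α - 1, by omega⟩
  obtain ⟨j, rfl⟩ : ∃ j, β = j + 1 := ⟨β - 1, by omega⟩
  have hG : gs = (gs.map (· - 1)).map (· + 1) := by
    rw [List.map_map]
    conv_lhs => rw [← List.map_id gs]
    refine List.map_congr_left fun g hg' => ?_
    have := hg g hg'
    simp; omega
  simp only [List.nil_append, flat_nil, pw_zero, List.append_nil, tile_nil] at h ⊢
  refine ⟨a, 0, i, j, gs.map (· - 1), rfl, by simp [pw_succ], ?_, ?_, hG ▸ h⟩
  · rw [← tile_succ, ← hG]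
  · intro g hg'
    obtain ⟨v, hv, rfl⟩ := List.mem_map.1 hg'
    have := hg v hv
    omega

theorem tile_conj (a : Bool) (k : ℕ) (G : List ℕ) :
    tile (xk a k) [a, !a] G ++ xk a k = xk a k ++ tile (xk a k) [!a, a] G := by
  induction G with
  | nil => exact xk_conj1 a k
  | cons g G ih =>
    rw [tile_cons, tile_cons, List.append_assoc, List.append_assoc, ih, ← List.append_assoc (pw _ _),
      ← pw_comm, ← List.append_assoc, ← List.append_assoc, xk_conj1]
    simp

theorem rev_form {a : Bool} {k α β : ℕ} {S : List ℕ} {Y : List Bool}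
    (h : Y ++ xk a k = pw (xk a k) α ++ (tile (xk a k) [!a, a] S ++ pw (xk a k) β)) :
    Y.reverse ++ xk a k = pw (xk a k) β ++ (tile (xk a k) [!a, a] S.reverse ++ pw (xk a k) α) := by
  have := congrArg List.reverse h
  simp only [List.reverse_append, reverse_xk, reverse_pw, tile_reverse, List.reverse_cons,
    List.reverse_nil, List.nil_append, List.cons_append] at this
  refine List.append_cancel_left (as := xk a k) ?_
  rw [← List.append_assoc, this, List.append_assoc, List.append_assoc, ← pw_comm,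
    ← List.append_assoc (tile _ _ _), tile_conj, ← List.append_assoc (xk a k) (pw _ _), pw_comm]
  simp

theorem fam_gen {a : Bool} {k : ℕ} {S L : List ℕ} {α β γ δ : ℕ} {Y Z : List Bool}
    (hY : Y ++ xk a k = pw (xk a k) α ++ (tile (xk a k) [!a, a] S ++ pw (xk a k) β))
    (hZ : Z ++ xk a k = pw (xk a k) γ ++ (tile (xk a k) [!a, a] L ++ pw (xk a k) δ))
    (H : HH (xk a k) Y Z) (h : C3 (xk a k) Y Z) (hl : S.length ≤ L.length) :
    Fam (xk a k) Y Z := by
  have hh : ∀ (α : ℕ) (Y u : List Bool), Y ≠ [] → Y ++ xk a k = pw (xk a k) (α + 1) ++ u →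
      Y.head? = some a := by
    intro α Y u h0 e
    obtain ⟨c, Y, rfl⟩ := List.exists_cons_of_ne_nil h0
    simpa using (List.cons.inj e).1
  have hd : ∀ (α γ : ℕ) (Y Z u v : List Bool), HH (xk a k) Y Z →
      Y ++ xk a k = pw (xk a k) α ++ u → Z ++ xk a k = pw (xk a k) γ ++ v → α = 0 ∨ γ = 0 := by
    intro α γ Y Z u v H e1 e2
    cases α with
    | zero => exact Or.inl rfl
    | succ α =>
      cases γ with
      | zero => exact Or.inr rfl
      | succ γ =>
        have := H.head3 (a := a) rfl (hh _ _ _ H.n2 e1)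
        rw [hh _ _ _ H.n3 e2] at this
        simp at this
  have Hr : HH (xk a k) Y.reverse Z.reverse := by simpa using H.rev
  have l1 := (lp_main hY hZ H.ph).shift
  have l2 := (lp_main (rev_form hY) (rev_form hZ) Hr.ph).shift
  rw [List.map_reverse, List.map_reverse] at l2
  have c0 := transfer (a := a) hY hZ h
  obtain ⟨h1, h2, rfl, rfl, gs, e, hg⟩ := class0 c0 (hd _ _ _ _ _ _ H hY hZ)
    (hd _ _ _ _ _ _ Hr (rev_form hY) (rev_form hZ)) l1 l2 (by simpa using hl)
  have eL : L = S ++ (gs.map (· - 1)).flatMap (fun g => g :: S) := by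
    refine (List.map_injective_iff.2 (add_left_injective 1)) ?_
    show L.map (· + 1) = List.map (· + 1) _
    rw [e, List.map_append, List.map_flatMap, List.flatMap_map]
    congr 1
    refine List.flatMap_congr fun g hg' => ?_
    have := hg g hg'
    simp; omega
  obtain ⟨i, rfl⟩ : ∃ i, α = i + 1 := ⟨α - 1, by omega⟩
  obtain ⟨j, rfl⟩ : ∃ j, β = j + 1 := ⟨β - 1, by omega⟩
  have eY : Y = pw (xk a k) (i + 1) ++ (tile (xk a k) [!a, a] S ++ pw (xk a k) j) := by
    rw [pw_succ' _ j, ← List.append_assoc (tile _ _ _), ← List.append_assoc] at hY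
    exact List.append_cancel_right hY
  simp only [pw_zero, List.nil_append, List.append_nil] at hZ c0
  have hS : S = [] := by
    by_cases hlen : (xk a k).length ≤ (tile (xk a k) [!a, a] S).length
    · obtain ⟨W, e1, e2⟩ := tile_al_suf (xk a k) [!a, a] S (gs.map (· - 1))
      rw [eL, e1] at hZ
      obtain ⟨σ, rfl, e3⟩ := split_len hZ hlen
      have two : PH (xk a k) σ σ := H.ph.of fun M hM h1 h2 _ => by
        have h3 : tile (xk a k) [!a, a] S ∈ M := e3 ▸ hM.app h2 h1
        exact ⟨h1, eY ▸ hM.app (hM.pw h1 _) (hM.app h3 (hM.pw h1 _)), hM.app (e2 M hM h1 h3) h2⟩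
      obtain ⟨t1, t2⟩ := two.two' (head_xk a k) (head_of_tile (L := S) (Q := []) (by simpa using e3))
      have t3 := congrArg List.length e3
      cases S with
      | nil => rfl
      | cons s S =>
        have := two_le_tile a k S
        simp only [tile_cons, List.length_append, List.length_cons, List.length_nil] at t3
        omega
    · obtain ⟨_, _, f, rfl, hf⟩ := tile_short (c := 0) (δ := 0) (L := S) (k := k) (a := a)
        (by simpa using not_le.1 hlen)
      have two : PH (xk a (k % (f + 1))) (xk (!a) (f - k % (f + 1))) (xk (!a) (f - k % (f + 1))) :=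
        Hr.ph.of fun M hM h1 h2 _ => by
          obtain ⟨m1, _, m3⟩ := xk_mem hM h1 h2
          have m4 := m3 k rfl
          have m5 : (tile (xk a k) [!a, a] (List.replicate f 0)).reverse ∈ M := by
            rw [tile_zero, reverse_pw]; exact m1
          refine ⟨m4, ?_, hM.can m4 ?_⟩
          · rw [eY]
            simp only [List.reverse_append, reverse_pw, reverse_xk]
            exact hM.app (hM.app (hM.pw m4 _) m5) (hM.pw m4 _)
          · have := congrArg List.reverse hZ
            rw [List.reverse_append, reverse_xk] at this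
            rw [this, eL]
            generalize gs.map (· - 1) = gs'
            induction gs' with
            | nil => simpa using m5
            | cons g gs' ih =>
              rw [List.flatMap_cons, List.cons_append, tile_append]
              simp only [List.reverse_append, reverse_pw, reverse_xk]
              exact hM.app (hM.app ih (hM.pw m4 _)) m5
      obtain ⟨t1, t2⟩ := two.two' (head_xk _ _) (head_xk _ _)
      simp only [length_xk] at t1 t2
      have : f = 0 := by omega
      subst this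
      rfl
  subst hS
  rw [List.nil_append, flat_nil] at eL
  refine ⟨a, k, i, j, L, rfl, eY, hZ, ?_, c0⟩
  intro g hg'
  rw [eL] at hg'
  obtain ⟨v, hv, rfl⟩ := List.mem_map.1 hg'
  have := hg v hv
  omega

theorem star_bool (a : Bool) (w : List Bool) : Star {[a], [!a]} w := by
  induction w with
  | nil => exact Star.nil _
  | cons c w ih =>
    refine Star.append (u := [c]) (Star.of_mem ?_) ih
    cases a <;> cases c <;> simp

theorem family {x y z : List Bool} (f : Frame x y z) (H : HH x y z) (h : C3 x y z) :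
    Fam x y z ∨ Fam x z y := by
  obtain ⟨a, k, rfl, rfl | ⟨f1, f2⟩⟩ := f
  · rcases star_tile (star_bool a y) with ⟨n, e⟩ | ⟨α, S, β, rfl⟩
    · exact absurd e (not_pw h n)
    rcases star_tile (star_bool a z) with ⟨n, e⟩ | ⟨γ, L, δ, rfl⟩
    · exact absurd e (not_pw h.swap23 n)
    rcases le_total S.length L.length with c | c
    · exact Or.inl (fam_zero H h c)
    · exact Or.inr (fam_zero H.swap23 h.swap23 c)
  · have key : ∀ {y z : List Bool} (n : ℕ), C3 (xk a k) y z → y ++ xk a k ≠ pw (xk a k) n := by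
      intro y z n h e
      cases n with
      | zero => simp [xk] at e
      | succ n =>
        rw [pw_succ'] at e
        exact not_pw h n (List.append_cancel_right e)
    rcases star_tile (star_right f1) with ⟨n, e⟩ | ⟨α, S, β, e1⟩
    · exact absurd e (key n h)
    rcases star_tile (star_right f2) with ⟨n, e⟩ | ⟨γ, L, δ, e2⟩
    · exact absurd e (key n h.swap23)
    rcases le_total S.length L.length with c | c
    · exact Or.inl (fam_gen e1 e2 H h c)
    · exact Or.inr (fam_gen e2 e1 H.swap23 h.swap23 c)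

theorem Fam.rev {a : Bool} {k i j : ℕ} {G : List ℕ} {z : List Bool}
    (hz : z ++ xk a k = tile (xk a k) [!a, a] G)
    (hc : C3 [a] (pw [a] (i + 1) ++ ([!a] ++ pw [a] (j + 1))) (tile [a] [!a] (G.map (· + 1)))) :
    (pw (xk a k) (i + 1) ++ ([!a, a] ++ pw (xk a k) j)).reverse =
      pw (xk a k) (j + 1) ++ ([!a, a] ++ pw (xk a k) i) ∧
    z.reverse ++ xk a k = tile (xk a k) [!a, a] G.reverse ∧
    C3 [a] (pw [a] (j + 1) ++ ([!a] ++ pw [a] (i + 1)))
      (tile [a] [!a] (G.reverse.map (· + 1))) := by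
  refine ⟨?_, ?_, ?_⟩
  · simp only [List.reverse_append, reverse_pw, reverse_xk]
    rw [pw_succ _ i, pw_succ' _ j]
    have := xk_conj1 a k
    simp only [List.append_assoc]
    rw [← List.append_assoc (xk a k), ← this]
    simp
  · have := rev_form (α := 0) (β := 0) (S := G) (Y := z) (a := a) (k := k) (by simpa using hz)
    simpa using this
  · simpa [reverse_pw, tile_reverse] using hc.rev

end Pool.Agent.Lib.MP_5364dc_lc
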