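import Pool.Agent.Lib.MP_5364dc_lc.Words

/-! The frame theorem. -/

namespace Pool.Agent.Lib.MP_5364dc_lc

def Frame (x y z : List Bool) : Prop :=
  ∃ a k, x = xk a k ∧ (k = 0 ∨ (Star {x, [a, !a]} (x ++ y) ∧ Star {x, [a, !a]} (x ++ z)))

def Fr (x y z : List Bool) : Prop := Frame x y z ∨ Frame y x z ∨ Frame z x y

theorem Frame.swap {x y z : List Bool} (h : Frame x y z) : Frame x z y := by
  obtain ⟨a, k, e, h⟩ := h
  exact ⟨a, k, e, h.imp id fun h => ⟨h.2, h.1⟩⟩

theorem Fr.swap12 {x y z : List Bool} (h : Fr x y z) : Fr y x z := by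
  rcases h with h | h | h
  · exact Or.inr (Or.inl h)
  · exact Or.inl h
  · exact Or.inr (Or.inr h.swap)

theorem Fr.swap23 {x y z : List Bool} (h : Fr x y z) : Fr x z y := by
  rcases h with h | h | h
  · exact Or.inl h.swap
  · exact Or.inr (Or.inr h)
  · exact Or.inr (Or.inl h)

theorem frame_letter {x : List Bool} (h : x.length = 1) (y z : List Bool) : Frame x y z := by
  obtain ⟨a, rfl⟩ := List.length_eq_one_iff.1 h
  exact ⟨a, 0, rfl, Or.inl rfl⟩

theorem xk_conj1 (a : Bool) (k : ℕ) : [a, !a] ++ xk a k = xk a k ++ [!a, a] := by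
  simpa using xk_conj a k 1

theorem star_conj {a : Bool} {k : ℕ} {s : List Bool} (h : Star {xk a k, [a, !a]} s) :
    ∃ s', Star {xk a k, [!a, a]} s' ∧ s ++ xk a k = xk a k ++ s' := by
  refine Star.induction
    (P := fun s => ∃ s', Star {xk a k, [!a, a]} s' ∧ s ++ xk a k = xk a k ++ s')
    ⟨[], Star.nil _, by simp⟩ ?_ h
  rintro v (rfl | rfl) w _ ⟨s', h1, h2⟩
  · exact ⟨xk a k ++ s', (Star.of_mem (by simp)).append h1, by rw [List.append_assoc, h2]⟩
  · exact ⟨[!a, a] ++ s', (Star.of_mem (by simp)).append h1, by
      rw [List.append_assoc, h2, ← List.append_assoc, xk_conj1, List.append_assoc]⟩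

theorem star_conj' {a : Bool} {k : ℕ} {s : List Bool} (h : Star {xk a k, [!a, a]} s) :
    ∃ s', Star {xk a k, [a, !a]} s' ∧ s' ++ xk a k = xk a k ++ s := by
  refine Star.induction
    (P := fun s => ∃ s', Star {xk a k, [a, !a]} s' ∧ s' ++ xk a k = xk a k ++ s)
    ⟨[], Star.nil _, by simp⟩ ?_ h
  rintro v (rfl | rfl) w _ ⟨s', h1, h2⟩
  · exact ⟨xk a k ++ s', (Star.of_mem (by simp)).append h1, by rw [List.append_assoc, h2]⟩
  · exact ⟨[a, !a] ++ s', (Star.of_mem (by simp)).append h1, by
      rw [List.append_assoc, h2, ← List.append_assoc, xk_conj1, List.append_assoc]⟩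

theorem star_right {a : Bool} {k : ℕ} {y : List Bool} (h : Star {xk a k, [a, !a]} (xk a k ++ y)) :
    Star {xk a k, [!a, a]} (y ++ xk a k) := by
  obtain ⟨s', h1, h2⟩ := star_conj h
  rw [List.append_assoc] at h2
  rw [List.append_cancel_left h2]
  exact h1

theorem star_rev {a : Bool} {k : ℕ} {y : List Bool} (h : Star {xk a k, [a, !a]} (xk a k ++ y)) :
    Star {xk a k, [a, !a]} (xk a k ++ y.reverse) := by
  have := (star_right h).rev
  simpa [Set.image_insert_eq] using this

theorem Frame.rev {x y z : List Bool} (h : Frame x y z) :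
    Frame x.reverse y.reverse z.reverse := by
  obtain ⟨a, k, rfl, h⟩ := h
  refine ⟨a, k, by simp, h.imp id fun h => ?_⟩
  rw [reverse_xk]
  exact ⟨star_rev h.1, star_rev h.2⟩

theorem Fr.of_rev {x y z : List Bool} (h : Fr x.reverse y.reverse z.reverse) : Fr x y z := by
  rcases h with h | h | h
  · exact Or.inl (by simpa using h.rev)
  · exact Or.inr (Or.inl (by simpa using h.rev))
  · exact Or.inr (Or.inr (by simpa using h.rev))

structure HH (x y z : List Bool) : Prop where
  n1 : x ≠ []
  n2 : y ≠ []
  n3 : z ≠ []
  ph : PH x y z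
  sh : PH x.reverse y.reverse z.reverse

theorem HH.swap12 {x y z : List Bool} (h : HH x y z) : HH y x z :=
  ⟨h.n2, h.n1, h.n3, h.ph.swap12, h.sh.swap12⟩

theorem HH.swap23 {x y z : List Bool} (h : HH x y z) : HH x z y :=
  ⟨h.n1, h.n3, h.n2, h.ph.swap23, h.sh.swap23⟩

theorem HH.rev {x y z : List Bool} (h : HH x y z) : HH x.reverse y.reverse z.reverse :=
  ⟨by simpa using h.n1, by simpa using h.n2, by simpa using h.n3, h.sh, by simpa using h.ph⟩

theorem exists_head {A : Type} {w : List A} (h : w ≠ []) : ∃ a, w.head? = some a := by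
  cases w with
  | nil => exact absurd rfl h
  | cons a w => exact ⟨a, rfl⟩

theorem exists_last {A : Type} {w : List A} (h : w ≠ []) : ∃ a, w.getLast? = some a :=
  ⟨_, List.getLast?_eq_some_getLast h⟩

/-- if two of the words start with `a`, the third starts with the other letter -/
theorem HH.head3 {x y z : List Bool} (h : HH x y z) {a : Bool} (h1 : x.head? = some a)
    (h2 : y.head? = some a) : z.head? = some (!a) := by
  rcases h.sh.first (!a) with e | e | e
  · rw [h1] at e; simp at e
  · rw [h2] at e; simp at e
  · exact e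

theorem HH.last3 {x y z : List Bool} (h : HH x y z) {a : Bool} (h1 : x.getLast? = some a)
    (h2 : y.getLast? = some a) : z.getLast? = some (!a) := by
  rcases h.ph.last (!a) with e | e | e
  · rw [h1] at e; simp at e
  · rw [h2] at e; simp at e
  · exact e

theorem noCC_star {a : Bool} {k : ℕ} {s : List Bool} (h : Star {xk a k, [a, !a]} s) :
    NoCC (!a) s ∧ s.head? ≠ some (!a) := by
  refine Star.induction (P := fun s => NoCC (!a) s ∧ s.head? ≠ some (!a))
    ⟨by simp [NoCC], by simp⟩ ?_ h
  rintro v (rfl | rfl) w _ ⟨h1, h2⟩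
  · exact ⟨((alt_xk a k).noCC _).appendR h1 h2, by simp [xk]⟩
  · exact ⟨NoCC.appendR (by simp [NoCC]) h1 h2, by simp⟩

theorem boundary {Z : Set (List Bool)} {c : Bool} (hZ : ∀ s ∈ Z, NoCC c s) {g v : List Bool}
    (hg : NoCC c g) (hv : v.head? = some c) {s : List Bool} (hs : Star Z s) :
    ∀ u, u.getLast? = some c → s ++ g = u ++ v → Star Z u := by
  refine Star.induction (P := fun s => ∀ u, u.getLast? = some c → s ++ g = u ++ v → Star Z u)
    ?_ ?_ hs
  · intro u hu e
    have e' : g = u ++ v := e
    rw [e'] at hg
    exact absurd ⟨rfl, rfl⟩ ((List.isChain_append.1 hg).2.2 c hu c hv)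
  · intro z hz w _ ih u hu e
    rw [List.append_assoc] at e
    rcases List.append_eq_append_iff.1 e with ⟨u', rfl, e2⟩ | ⟨s', rfl, e2⟩
    · cases u' with
      | nil => simpa using Star.of_mem hz
      | cons d u' =>
        refine (Star.of_mem hz).append (ih _ ?_ e2)
        rwa [List.getLast?_append_of_ne_nil _ (by simp)] at hu
    · cases s' with
      | nil => simpa using Star.of_mem hz
      | cons d s' =>
        subst e2
        have : d = c := by simpa using hv
        subst this
        exact absurd ⟨rfl, rfl⟩ ((List.isChain_append.1 (hZ _ hz)).2.2 d hu d rfl)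

theorem star_last {Z : Set (List Bool)} {s : List Bool} (hs : Star Z s) (h : s ≠ []) :
    ∃ s' z, Star Z s' ∧ z ∈ Z ∧ s = s' ++ z := by
  obtain ⟨zs, h1, rfl⟩ := hs
  rcases List.eq_nil_or_concat zs with rfl | ⟨zs, z, rfl⟩
  · exact absurd rfl h
  · exact ⟨zs.flatten, z, ⟨zs, fun y hy => h1 y (by simp [hy]), rfl⟩, h1 z (by simp), by simp⟩

theorem star_first {Z : Set (List Bool)} {s : List Bool} (hs : Star Z s) (h : s ≠ []) :
    ∃ s' z, Star Z s' ∧ z ∈ Z ∧ s = z ++ s' := by
  obtain ⟨zs, h1, rfl⟩ := hs
  cases zs with
  | nil => exact absurd rfl h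
  | cons z zs =>
    exact ⟨zs.flatten, z, ⟨zs, fun y hy => h1 y (by simp [hy]), rfl⟩, h1 z (by simp), by simp⟩

theorem move_M2 {y w x : List Bool} (h : HH y (y ++ w) x) (hw : w ≠ []) (f : Frame x y w) :
    Frame x y (y ++ w) := by
  obtain ⟨a, k, rfl, f | ⟨f1, f2⟩⟩ := f
  · exact ⟨a, k, rfl, Or.inl f⟩
  obtain ⟨s1, z1, a1, (rfl | rfl), a3⟩ := star_last f1 (by simp [xk])
  · refine ⟨a, k, rfl, Or.inr ⟨f1, ?_⟩⟩
    rw [← List.append_assoc, a3, List.append_assoc]
    exact a1.append f2
  obtain ⟨s2, z2, b1, (rfl | rfl), b3⟩ := star_first (star_right f2) (by simp [xk])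
  · obtain ⟨s3, c1, c2⟩ := star_conj' b1
    rw [← c2] at b3
    refine ⟨a, k, rfl, Or.inr ⟨f1, ?_⟩⟩
    rw [← List.append_assoc, List.append_cancel_right b3]
    exact f1.append c1
  have hy : y.getLast? = some (!a) := by
    have := congrArg List.getLast? a3
    rw [List.getLast?_append_of_ne_nil _ h.n1] at this
    simpa using this
  have hw' : w.head? = some (!a) := by
    obtain ⟨c, w, rfl⟩ := List.exists_cons_of_ne_nil hw
    simpa using (List.cons.inj b3).1
  have ny : NoCC (!a) y := (noCC_star f1).1.right_of_append
  have hy' : y.reverse.head? = some (!a) := by simpa using hy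
  have sh : PH y.reverse (xk a k) (w.reverse ++ y.reverse) := by simpa using h.sh.swap23
  obtain ⟨s, g, c1, c2, c3⟩ := PH.parse (not_pref_of_head hy' (head_xk a k) (by simp))
    (not_pref_of_head (head_xk a k) hy' (by simp)) _ _ le_rfl sh
  have nZ : ∀ s ∈ ({y.reverse, xk a k} : Set (List Bool)), NoCC (!a) s := by
    rintro s (rfl | rfl)
    · exact ny.rev
    · exact (alt_xk a k).noCC _
  have ng : NoCC (!a) g := by
    rcases c3 with c3 | c3
    · exact chain_of_pref c3 (nZ _ (by simp))
    · exact chain_of_pref c3 (nZ _ (by simp))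
  have := boundary nZ ng hy' c1 w.reverse (by simpa using hw') c2.symm
  have two : PH (xk a k) y.reverse y.reverse := sh.of fun M hM h1 h2 _ =>
    ⟨h2, h1, hM.app (hM.star (by rintro _ (rfl | rfl) <;> assumption) this) h2⟩
  exact frame_letter (two.two' (head_xk a k) hy').1 _ _

def Pm (x y : List Bool) : Prop := ∃ a k, y = x ++ xk a k
def Sm (x y : List Bool) : Prop := ∃ a k, y = xk a k ++ x

theorem move (x w z : List Bool) (h : HH x (x ++ w) z)
    (ih : ∀ x' y' z' : List Bool, x'.length + y'.length + z'.length <
      x.length + (x ++ w).length + z.length → HH x' y' z' → Fr x' y' z') :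
    Fr x (x ++ w) z ∨ Pm x (x ++ w) := by
  by_cases hw : w = []
  · subst hw
    obtain ⟨a, ha⟩ := exists_head h.n1
    have h3 := h.head3 ha (by simpa using ha)
    have two : PH x z z := h.ph.of fun M _ h1 h2 _ => ⟨h1, by simpa using h1, h2⟩
    exact Or.inl (Or.inl (frame_letter (two.two' ha h3).1 _ _))
  have lx := List.length_pos_iff.2 h.n1
  have h' : HH x w z := ⟨h.n1, hw, h.n3, h.ph.of fun M hM a b c => ⟨a, hM.app a b, c⟩,
    h.sh.of fun M hM a b c => ⟨a, by rw [List.reverse_append]; exact hM.app b a, c⟩⟩
  rcases ih x w z (by simp; omega) h' with f | f | f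
  · obtain ⟨a, k, rfl, f⟩ := f
    refine Or.inl (Or.inl ⟨a, k, rfl, f.imp id fun f => ⟨?_, f.2⟩⟩)
    exact (Star.of_mem (by simp)).append f.1
  · obtain ⟨a, k, rfl, _⟩ := f
    exact Or.inr ⟨a, k, rfl⟩
  · exact Or.inl (Or.inr (Or.inr (move_M2 h hw f)))

theorem nq1 {p : Bool} {k k' : ℕ} {w m n : List Bool} (hw : w.head? = some p)
    (h : PH (xk p k) (w ++ m) (xk (!p) k' ++ w ++ n)) : NoCC (!p) w := by
  obtain ⟨i, g, e, hg⟩ := strip (xk p k) (xk_ne p k) _ (w ++ m) le_rfl
  have nx : NoCC (!p) (xk p k) := (alt_xk p k).noCC _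
  have npw : ∀ i, NoCC (!p) (pw (xk p k) i) := fun i =>
    chain_pw (nx.appendR nx (by simp)) i
  have h' : PH (xk p k) g (xk (!p) k' ++ w ++ n) :=
    h.of fun M hM a b c => ⟨a, e ▸ hM.app (hM.pw a i) b, c⟩
  have hh : (xk (!p) k' ++ w ++ n).head? = some (!p) := by simp [xk]
  have key : (g <+: xk (!p) k' ++ w ++ n ∨ xk (!p) k' ++ w ++ n <+: g) → g ≠ [] →
      NoCC (!p) w := by
    intro hc hg0
    have hgh : g.head? = some (!p) := by
      rcases hc with ⟨t, e⟩ | ⟨t, e⟩
      · obtain ⟨c, g, rfl⟩ := List.exists_cons_of_ne_nil hg0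
        rw [← e] at hh
        simpa using hh
      · rw [← e]; exact head_append_of hh
    cases i with
    | zero =>
      have : (w ++ m).head? = some p := head_append_of hw
      rw [e] at this
      simp [hgh] at this
    | succ i =>
      have hp : w <+: (pw (xk p k) (i + 1) ++ xk (!p) k') ++ w := by
        rcases hc with hc | hc
        · have : w <+: (pw (xk p k) (i + 1) ++ xk (!p) k' ++ w) ++ n := by
            refine (List.prefix_append w m).trans ?_
            rw [e]
            simpa only [List.append_assoc] using (List.prefix_append_right_inj _).2 hc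
          exact List.prefix_of_prefix_length_le this (List.prefix_append _ _) (by simp; omega)
        · have : (pw (xk p k) (i + 1) ++ xk (!p) k' ++ w) <+: w ++ m := by
            refine (List.prefix_append _ n).trans ?_
            rw [e]
            simpa only [List.append_assoc] using (List.prefix_append_right_inj _).2 hc
          exact List.prefix_of_prefix_length_le (List.prefix_append _ _) this (by simp; omega)
      have nv : NoCC (!p) (pw (xk p k) (i + 1) ++ xk (!p) k') :=
        (npw _).appendL ((alt_xk _ _).noCC _) (by rw [pw_succ', last_append_of (last_xk p k)]; simp)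
      exact chain_per hp (by simp [xk]) (nv.appendR nv (by simp [pw_succ, xk]))
  have fin : g <+: xk p k → NoCC (!p) w := by
    intro c
    refine chain_of_pref ((List.prefix_append w m).trans ?_) (npw (i + 1))
    rw [e, pw_succ']
    exact (List.prefix_append_right_inj _).2 c
  by_cases hg0 : g = []
  · exact fin (hg0 ▸ List.nil_prefix)
  rcases h'.comparable with c | c | c | c | c | c
  · exact absurd c hg
  · exact fin c
  · exact absurd c (not_pref_of_head (head_xk p k) hh (by simp))
  · exact absurd c (not_pref_of_head hh (head_xk p k) (by simp))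
  · exact key (Or.inl c) hg0
  · exact key (Or.inr c) hg0

theorem nq2 {p : Bool} {k k' : ℕ} {w m n : List Bool} (hw : w.head? = some (!p)) (hk : k < k')
    (h : PH (xk p k) (w ++ m) (xk p k' ++ w ++ n)) : Alt w := by
  obtain ⟨d, rfl⟩ := Nat.exists_eq_add_of_lt hk
  have h' : PH (xk p k) (w ++ m) (pw [!p, p] (d + 1) ++ w ++ n) :=
    h.of fun M hM a b c => ⟨a, b, by
      rw [Nat.add_assoc, xk_add, List.append_assoc, List.append_assoc, ← List.append_assoc _ w]
      exact hM.app a c⟩
  have h1 : (w ++ m).head? = some (!p) := head_append_of hw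
  have h2 : (pw [!p, p] (d + 1) ++ w ++ n).head? = some (!p) := by simp [pw_succ]
  have hp : w <+: pw [!p, p] (d + 1) ++ w := by
    rcases h'.comparable with c | c | c | c | c | c
    · exact absurd c (not_pref_of_head (head_xk p k) h1 (by simp))
    · exact absurd c (not_pref_of_head h1 (head_xk p k) (by simp))
    · exact absurd c (not_pref_of_head (head_xk p k) h2 (by simp))
    · exact absurd c (not_pref_of_head h2 (head_xk p k) (by simp))
    · exact List.prefix_of_prefix_length_le ((List.prefix_append w m).trans c)
        (List.prefix_append _ _) (by simp)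
    · exact List.prefix_of_prefix_length_le (List.prefix_append w m)
        ((List.prefix_append _ n).trans c) (by simp)
  refine chain_per hp (by simp [pw_succ]) ?_
  rw [← pw_add]
  simpa [Alt] using alt_pw (!p) (d + 1 + (d + 1))

theorem altD {p p' : Bool} {k k' : ℕ} {w m n m' n' : List Bool} (h1 : w.head? = some (!p'))
    (h2 : w.getLast? = some (!p)) (ph : PH (xk p k) (w ++ m) (xk p' k' ++ w ++ n))
    (sh : PH (xk p' k') (w.reverse ++ m') (xk p k ++ w.reverse ++ n'))
    (he : xk p k = xk p' k' → PH (xk p k) w w) : Alt w := by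
  have h2' : w.reverse.head? = some (!p) := by simpa using h2
  by_cases e : p' = p
  · subst e
    rcases lt_trichotomy k k' with c | c | c
    · exact nq2 h1 c ph
    · subst c
      obtain ⟨a, rfl⟩ := List.length_eq_one_iff.1 ((he rfl).two' (head_xk _ _) h1).2
      simp [Alt]
    · simpa using (nq2 h2' c sh).rev
  · have e' : p' = !p := by cases p <;> cases p' <;> simp_all
    subst e'
    refine alt_of_noCC (!p) (nq1 (by simpa using h1) ph) ?_
    have := nq1 (p := !p) (k' := k) h2' (by simpa using sh)
    simpa using this.rev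

theorem alt_good {a : Bool} {k : ℕ} {y : List Bool} (hy : Alt y)
    (hm : ∀ m, m < k → y ≠ xk a m) : Star {xk a k, [a, !a]} (xk a k ++ y) := by
  have sx : Star {xk a k, [a, !a]} (xk a k) := Star.of_mem (by simp)
  have st : ∀ n, Star {xk a k, [a, !a]} (pw [a, !a] n) := fun n => (Star.of_mem (by simp)).pw n
  by_cases h0 : y = []
  · simpa [h0] using sx
  obtain ⟨c, hc⟩ := exists_head h0
  obtain ⟨m, e⟩ := alt_cases y c hy hc
  by_cases ec : c = a
  · subst ec
    rcases e with rfl | rfl
    · obtain ⟨d, rfl⟩ := Nat.exists_eq_add_of_le (not_lt.1 fun h => hm m h rfl)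
      rw [Nat.add_comm, xk_add']
      exact sx.append ((st d).append sx)
    · exact sx.append (st _)
  · have e' : c = !a := by cases a <;> cases c <;> simp_all
    subst e'
    rcases e with rfl | rfl
    · have : xk a k ++ xk (!a) m = pw [a, !a] (k + (m + 1)) := by
        rw [xk_eq a, xk, pw_add, pw_succ]; simp
      rw [this]; exact st _
    · rw [Bool.not_not, ← xk_conj]
      exact (st _).append sx

theorem alt_frame {x y z : List Bool} (h : HH x y z) (hx : Alt x) (hy : Alt y) (hz : Alt z) :
    Fr x y z := by
  classical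
  by_cases hc : ∃ k, ∃ a, x = xk a k ∨ y = xk a k ∨ z = xk a k
  · obtain ⟨a, ha⟩ := Nat.find_spec hc
    have hm : ∀ m, m < Nat.find hc → x ≠ xk a m ∧ y ≠ xk a m ∧ z ≠ xk a m := by
      intro m hm
      have := Nat.find_min hc hm
      push Not at this
      exact this a
    rcases ha with e | e | e
    · exact Or.inl ⟨a, _, e, Or.inr (e ▸ ⟨alt_good hy fun m h => (hm m h).2.1,
        alt_good hz fun m h => (hm m h).2.2⟩)⟩
    · exact Or.inr (Or.inl ⟨a, _, e, Or.inr (e ▸ ⟨alt_good hx fun m h => (hm m h).1,
        alt_good hz fun m h => (hm m h).2.2⟩)⟩)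
    · exact Or.inr (Or.inr ⟨a, _, e, Or.inr (e ▸ ⟨alt_good hx fun m h => (hm m h).1,
        alt_good hy fun m h => (hm m h).2.1⟩)⟩)
  · push Not at hc
    have key : ∀ M, RU M → [true, false] ∈ M → [false, true] ∈ M → ∀ w, w ≠ [] → Alt w →
        (∀ k a, w ≠ xk a k) → w ∈ M := by
      intro M hM h1 h2 w h0 hw hn
      obtain ⟨c, hc⟩ := exists_head h0
      obtain ⟨m, e | e⟩ := alt_cases w c hw hc
      · exact absurd e (hn _ _)
      · rw [e]
        cases c
        · exact hM.pw h2 _
        · exact hM.pw h1 _
    have two : PH [true, false] [false, true] [false, true] := h.ph.of fun M hM a b _ =>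
      ⟨key M hM a b x h.n1 hx fun k a => (hc k a).1, key M hM a b y h.n2 hy fun k a => (hc k a).2.1,
        key M hM a b z h.n3 hz fun k a => (hc k a).2.2⟩
    have := (two.two' (a := true) rfl rfl).1
    simp at this

theorem count_xk (a : Bool) (k : ℕ) : (xk a k).count a = k + 1 ∧ (xk a k).count (!a) = k := by
  induction k with
  | zero => cases a <;> simp [xk]
  | succ k ih =>
    rw [xk_add, List.count_append, List.count_append, ih.1, ih.2]
    cases a <;> simp

theorem comb {x y z : List Bool} (h : HH x y z) (hp : Pm x y)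
    (hs : Sm x y ∨ Sm y x ∨ Sm x z ∨ Sm z x ∨ Sm y z ∨ Sm z y) : Fr x y z := by
  obtain ⟨p, k, rfl⟩ := hp
  have ax := alt_xk p k
  rcases hs with ⟨p', k', e⟩ | ⟨p', k', e⟩ | ⟨p', k', rfl⟩ | ⟨p', k', rfl⟩ | ⟨p', k', rfl⟩ |
    ⟨p', k', e⟩
  · -- type S
    have hk : k = k' := by
      have := congrArg List.length e
      simp at this; omega
    subst hk
    have hpp : p' = p := by
      by_contra hn
      have e' : p' = !p := by cases p <;> cases p' <;> simp_all
      subst e'
      have := congrArg (List.count p) e
      have h2 := (count_xk (!p) k).2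
      rw [Bool.not_not] at h2
      rw [List.count_append, List.count_append, (count_xk p k).1, h2] at this
      omega
    subst hpp
    obtain ⟨r, i, j, e1, e2⟩ := comm_root _ _ _ le_rfl e
    have hr : r ≠ [] := by
      rintro rfl
      have := congrArg List.length e2
      simp at this
    obtain ⟨a, ha⟩ := exists_head hr
    have hx : x.head? = some a := by
      cases i with
      | zero => exact absurd e1 h.n1
      | succ i => rw [e1, pw_succ]; exact head_append_of ha
    have hz := h.head3 hx (head_append_of hx)
    have two : PH r z z := h.ph.of fun M hM a b _ =>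
      ⟨e1 ▸ hM.pw a i, by rw [e2, e1]; exact hM.app (hM.pw a i) (hM.pw a j), b⟩
    exact Or.inr (Or.inr (frame_letter (two.two' ha hz).2 _ _))
  · have := congrArg List.length e
    simp at this; omega
  · -- D4
    have ax' := alt_xk p' k'
    obtain ⟨a, ha⟩ := exists_head h.n1
    obtain ⟨b, hb⟩ := exists_last h.n1
    have h1 : a = !p' := by
      have := h.head3 ha (head_append_of ha)
      simp [xk] at this; simp [this]
    have h2 : b = !p := by
      have := h.swap23.last3 hb (last_append_of hb)
      rw [last_append_of (last_xk p k)] at this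
      simp at this; simp [this]
    subst h1 h2
    have : Alt x := altD (k := k) (k' := k') (m := []) (n := []) (m' := []) (n' := []) ha hb
      (h.ph.of fun M hM a b c => by
        simp only [List.append_nil] at b c
        exact ⟨b, hM.app b a, c⟩)
      (h.sh.of fun M hM a b c => by
        simp only [List.append_nil] at b c
        simp only [List.reverse_append, reverse_xk]
        exact ⟨b, c, hM.app b a⟩)
      (fun e => h.ph.of fun M hM a b _ => ⟨b, hM.app b a, hM.app (e ▸ a) b⟩)
    exact alt_frame h this (this.append ax hb (by simp)) (ax'.append this (last_xk _ _) ha)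
  · -- D3
    have ax' := alt_xk p' k'
    obtain ⟨b, hb⟩ := exists_last h.n3
    have ha : z.head? = some (!p') := h.head3 (by simp [xk]) (by simp [xk])
    have h2 : b = !p := by
      have := h.swap23.last3 (last_append_of hb) hb
      rw [last_append_of (last_xk p k)] at this
      simp at this; simp [this]
    subst h2
    have : Alt z := altD (k := k) (k' := k') (m := []) (n := []) (m' := []) (n' := xk p' k') ha hb
      (h.ph.of fun M hM a b c => by
        simp only [List.append_nil] at b c
        exact ⟨c, hM.app c a, b⟩)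
      (h.sh.of fun M hM a b c => by
        simp only [List.append_nil] at b
        simp only [List.reverse_append, reverse_xk]
        exact ⟨hM.app b a, by simpa only [List.append_assoc] using c, b⟩)
      (fun e => h.ph.of fun M hM a b _ =>
        ⟨hM.app (e ▸ a) b, hM.app (hM.app (e ▸ a) b) a, b⟩)
    have h3 := ax'.append this (last_xk _ _) ha
    exact alt_frame h h3 (h3.append ax (last_append_of hb) (by simp)) this
  · -- D2
    have ax' := alt_xk p' k'
    obtain ⟨a, ha⟩ := exists_head h.n1
    have h1 : a = !p' := by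
      have := h.head3 ha (head_append_of ha)
      simp [xk] at this; simp [this]
    have hb : x.getLast? = some (!p) := h.swap12.swap23.last3 (last_append_of (last_xk p k))
      (last_append_of (last_append_of (last_xk p k)))
    subst h1
    have : Alt x := altD (k := k) (k' := k') (m := []) (n := xk p k) (m' := []) (n' := []) ha hb
      (h.ph.of fun M hM a b c => by
        simp only [List.append_nil] at b
        exact ⟨b, hM.app b a, by simpa only [List.append_assoc] using c⟩)
      (h.sh.of fun M hM a b c => by
        simp only [List.append_nil] at b c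
        simp only [List.reverse_append, reverse_xk]
        exact ⟨b, c, hM.app c a⟩)
      (fun e => h.ph.of fun M hM a b _ => ⟨b, hM.app b a, hM.app (e ▸ a) (hM.app b a)⟩)
    have h3 := this.append ax hb (by simp)
    exact alt_frame h this h3 (ax'.append h3 (last_xk _ _) (head_append_of ha))
  · -- D1
    have ax' := alt_xk p' k'
    obtain ⟨a, ha⟩ := exists_head h.n1
    obtain ⟨b, hb⟩ := exists_last h.n3
    have h1 : a = p' := by
      have h5 : (x ++ xk p k).head? = some a := head_append_of ha
      rw [e] at h5
      simpa [xk] using h5.symm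
    have h2 : b = p := by
      have h5 : (xk p' k' ++ z).getLast? = some b := last_append_of hb
      rw [← e, last_append_of (last_xk p k)] at h5
      simpa using h5.symm
    subst h1 h2
    have hz := h.head3 ha (head_append_of ha)
    have hx := h.swap12.swap23.last3 (last_append_of (last_xk b k)) hb
    have short : Alt x → Fr x (x ++ xk b k) z := by
      intro h5
      have h6 := h5.append ax hx (by simp)
      refine alt_frame h h5 h6 ?_
      rw [e] at h6
      exact List.IsChain.right_of_append h6
    rcases List.append_eq_append_iff.1 e with ⟨w, e1, e2⟩ | ⟨w, rfl, rfl⟩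
    · exact short (chain_of_pref ⟨w, e1.symm⟩ ax')
    by_cases hw : w = []
    · subst hw
      exact short (by simpa using ax')
    have w1 : w.head? = some (!a) := by
      obtain ⟨c, w, rfl⟩ := List.exists_cons_of_ne_nil hw
      simpa using hz
    have w2 : w.getLast? = some (!b) := by
      rwa [List.getLast?_append_of_ne_nil _ hw] at hx
    have : Alt w := altD (k := k) (k' := k') (m := xk b k) (n := []) (m' := xk a k') (n' := []) w1 w2
      (h.ph.of fun M hM a b c => by
        simp only [List.append_nil] at c
        exact ⟨c, hM.app c a, b⟩)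
      (h.sh.of fun M hM a b c => by
        simp only [List.append_nil] at c
        simp only [List.reverse_append, reverse_xk]
        exact ⟨b, by simpa only [List.append_assoc] using hM.app c a, c⟩)
      (fun e => h.ph.of fun M hM a b _ =>
        ⟨hM.app (e ▸ a) b, hM.app (hM.app (e ▸ a) b) a, hM.app b a⟩)
    exact short (ax'.append this (last_xk _ _) w1)

theorem frame_thm : ∀ n : ℕ, ∀ x y z : List Bool, x.length + y.length + z.length < n →
    HH x y z → Fr x y z := by
  intro n
  induction n with
  | zero => intro x y z h; omega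
  | succ n ih =>
    have r1 : ∀ x y z : List Bool, x.length + y.length + z.length < n + 1 → HH x y z →
        Fr x y z ∨ Pm x y ∨ Pm y x ∨ Pm x z ∨ Pm z x ∨ Pm y z ∨ Pm z y := by
      have r0 : ∀ x y z : List Bool, x.length + y.length + z.length < n + 1 → HH x y z →
          x <+: y → Fr x y z ∨ Pm x y := by
        rintro x _ z hl h ⟨w, rfl⟩
        exact move x w z h fun x' y' z' h1 h2 => ih x' y' z' (by omega) h2
      intro x y z hl h
      rcases h.ph.comparable with c | c | c | c | c | c
      · rcases r0 x y z hl h c with f | f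
        · exact Or.inl f
        · tauto
      · rcases r0 y x z (by omega) h.swap12 c with f | f
        · exact Or.inl f.swap12
        · tauto
      · rcases r0 x z y (by omega) h.swap23 c with f | f
        · exact Or.inl f.swap23
        · tauto
      · rcases r0 z x y (by omega) h.swap23.swap12 c with f | f
        · exact Or.inl f.swap12.swap23
        · tauto
      · rcases r0 y z x (by omega) h.swap12.swap23 c with f | f
        · exact Or.inl f.swap23.swap12
        · tauto
      · rcases r0 z y x (by omega) h.swap12.swap23.swap12 c with f | f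
        · exact Or.inl f.swap12.swap23.swap12
        · tauto
    intro x y z hl h
    have ps : ∀ u v : List Bool, Pm u.reverse v.reverse → Sm u v := by
      rintro u v ⟨a, k, e⟩
      refine ⟨a, k, ?_⟩
      have := congrArg List.reverse e
      simpa using this
    rcases r1 x.reverse y.reverse z.reverse (by simpa using hl) h.rev with f | f
    · exact f.of_rev
    have hs : Sm x y ∨ Sm y x ∨ Sm x z ∨ Sm z x ∨ Sm y z ∨ Sm z y := by
      rcases f with f | f | f | f | f | f <;> have := ps _ _ f <;> tauto
    rcases r1 x y z hl h with f | f | f | f | f | f | f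
    · exact f
    · exact comb h f hs
    · exact (comb h.swap12 f (by tauto)).swap12
    · exact (comb h.swap23 f (by tauto)).swap23
    · exact (comb h.swap23.swap12 f (by tauto)).swap12.swap23
    · exact (comb h.swap12.swap23 f (by tauto)).swap23.swap12
    · exact (comb h.swap12.swap23.swap12 f (by tauto)).swap12.swap23.swap12

end Pool.Agent.Lib.MP_5364dc_lc
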