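import Pool.Agent.Lib.MP_5364dc_lc.Auto

/-! Right-unitary hulls and the reduction to two letters. -/

namespace Pool.Agent.Lib.MP_5364dc_lc

variable {A B : Type}

def C3 (x y z : List A) : Prop := Code {x, y, z} ∧ x ≠ y ∧ x ≠ z ∧ y ≠ z

theorem Code.ne_nil {X : Set (List A)} (h : Code X) : [] ∉ X := by
  intro h0
  have := h [[]] [] (by simpa using h0) (by simp) (by simp)
  simp at this

theorem Code.head_eq {X : Set (List A)} (h : Code X) {x y s t : List A} (hx : x ∈ X) (hy : y ∈ X)
    (hs : Star X s) (ht : Star X t) (e : x ++ s = y ++ t) : x = y := by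
  obtain ⟨xs, h1, rfl⟩ := hs
  obtain ⟨ys, h2, rfl⟩ := ht
  have := h (x :: xs) (y :: ys) (by simpa [hx] using h1) (by simpa [hy] using h2) (by simpa using e)
  exact (List.cons.inj this).1

theorem C3.swap12 {x y z : List A} (h : C3 x y z) : C3 y x z :=
  ⟨by rw [Set.insert_comm]; exact h.1, h.2.1.symm, h.2.2.2, h.2.2.1⟩

theorem C3.swap23 {x y z : List A} (h : C3 x y z) : C3 x z y :=
  ⟨by rw [Set.pair_comm]; exact h.1, h.2.2.1, h.2.1, h.2.2.2.symm⟩

theorem C3.ne1 {x y z : List A} (h : C3 x y z) : x ≠ [] := fun e => h.1.ne_nil (by simp [e])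
theorem C3.ne2 {x y z : List A} (h : C3 x y z) : y ≠ [] := h.swap12.ne1
theorem C3.ne3 {x y z : List A} (h : C3 x y z) : z ≠ [] := h.swap23.ne2

theorem C3.not12 {x y z s t : List A} (h : C3 x y z) (hs : Star {x, y, z} s)
    (ht : Star {x, y, z} t) : x ++ s ≠ y ++ t :=
  fun e => h.2.1 (h.1.head_eq (by simp) (by simp) hs ht e)

theorem C3.not13 {x y z s t : List A} (h : C3 x y z) (hs : Star {x, y, z} s)
    (ht : Star {x, y, z} t) : x ++ s ≠ z ++ t :=
  fun e => h.2.2.1 (h.1.head_eq (by simp) (by simp) hs ht e)

theorem C3.not23 {x y z s t : List A} (h : C3 x y z) (hs : Star {x, y, z} s)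
    (ht : Star {x, y, z} t) : y ++ s ≠ z ++ t :=
  fun e => h.2.2.2 (h.1.head_eq (by simp) (by simp) hs ht e)

theorem C3.rev {x y z : List A} (h : C3 x y z) : C3 x.reverse y.reverse z.reverse := by
  refine ⟨?_, fun e => h.2.1 (List.reverse_injective e), fun e => h.2.2.1 (List.reverse_injective e),
    fun e => h.2.2.2 (List.reverse_injective e)⟩
  have := h.1.rev
  simpa [Set.image_insert_eq] using this

theorem cpl_of_rev {x y z : List A} (h : Cpl {x.reverse, y.reverse, z.reverse}) :
    Cpl {x, y, z} := Cpl.of_rev (by simpa [Set.image_insert_eq] using h)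

theorem C3.pull {x y z : List A} {x' y' z' : List B} (Rel : List B → List A → Prop)
    (h0 : Rel [] []) (h1 : ∀ a b c d, Rel a b → Rel c d → Rel (a ++ c) (b ++ d))
    (hf : ∀ a b c, Rel a b → Rel a c → b = c) (hx : Rel x' x) (hy : Rel y' y) (hz : Rel z' z)
    (h : C3 x y z) : C3 x' y' z' := by
  classical
  have n1 : x' ≠ y' := fun e => h.2.1 (hf _ _ _ hx (e ▸ hy))
  have n2 : x' ≠ z' := fun e => h.2.2.1 (hf _ _ _ hx (e ▸ hz))
  have n3 : y' ≠ z' := fun e => h.2.2.2 (hf _ _ _ hy (e ▸ hz))
  refine ⟨?_, n1, n2, n3⟩
  let g : List B → List A := fun w => if w = x' then x else if w = y' then y else z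
  have gx : g x' = x := by simp [g]
  have gy : g y' = y := by simp [g, n1.symm]
  have gz : g z' = z := by simp [g, n2.symm, n3.symm]
  have key : ∀ xs : List (List B), (∀ w ∈ xs, w ∈ ({x', y', z'} : Set (List B))) →
      Rel xs.flatten (xs.map g).flatten ∧ ∀ w ∈ xs.map g, w ∈ ({x, y, z} : Set (List A)) := by
    intro xs
    induction xs with
    | nil => intro _; exact ⟨h0, by simp⟩
    | cons w xs ih =>
      intro hw
      obtain ⟨i1, i2⟩ := ih fun y hy => hw y (List.mem_cons_of_mem _ hy)
      have : Rel w (g w) ∧ g w ∈ ({x, y, z} : Set (List A)) := by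
        rcases hw w List.mem_cons_self with rfl | rfl | rfl
        · rw [gx]; exact ⟨hx, by simp⟩
        · rw [gy]; exact ⟨hy, by simp⟩
        · rw [gz]; exact ⟨hz, by simp⟩
      refine ⟨h1 _ _ _ _ this.1 i1, ?_⟩
      intro v hv
      rcases List.mem_cons.1 hv with rfl | hv
      · exact this.2
      · exact i2 v hv
  intro xs ys hxs hys e
  obtain ⟨a1, a2⟩ := key xs hxs
  obtain ⟨b1, b2⟩ := key ys hys
  have e2 := h.1 _ _ a2 b2 (hf _ _ _ a1 (e ▸ b1))
  have ginj : ∀ v ∈ ({x', y', z'} : Set (List B)), ∀ w ∈ ({x', y', z'} : Set (List B)),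
      g v = g w → v = w := by
    have m1 := h.2.1
    have m2 := h.2.2.1
    have m3 := h.2.2.2
    rintro v (rfl | rfl | rfl) w (rfl | rfl | rfl) <;> simp only [gx, gy, gz] <;> intro e <;>
      first | trivial | exact absurd e (by assumption) | exact absurd e.symm (by assumption)
  clear a1 a2 b1 b2 e
  induction xs generalizing ys with
  | nil => simpa using e2.symm
  | cons v xs ih =>
    cases ys with
    | nil => simp at e2
    | cons w ys =>
      simp only [List.map_cons, List.cons.injEq] at e2
      rw [ginj v (hxs v List.mem_cons_self) w (hys w List.mem_cons_self) e2.1,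
        ih ys (fun y hy => hxs y (List.mem_cons_of_mem _ hy))
          (fun y hy => hys y (List.mem_cons_of_mem _ hy)) e2.2]

/-- right-unitary submonoid -/
structure RU (M : Set (List A)) : Prop where
  nil : [] ∈ M
  app : ∀ {u v}, u ∈ M → v ∈ M → u ++ v ∈ M
  can : ∀ {u v}, u ∈ M → u ++ v ∈ M → v ∈ M

theorem RU.star {M X : Set (List A)} (hM : RU M) (h : X ⊆ M) {w : List A} (hw : Star X w) :
    w ∈ M :=
  Star.induction (P := fun w => w ∈ M) hM.nil (fun _ hx _ _ ih => hM.app (h hx) ih) hw

theorem ru_star {Z : Set (List A)} (hZ0 : [] ∉ Z) (hZp : ∀ x ∈ Z, ∀ y ∈ Z, x <+: y → x = y) :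
    RU {w | Star Z w} := by
  refine ⟨Star.nil _, fun h1 h2 => Star.append h1 h2, ?_⟩
  intro u v hu
  refine Star.induction (P := fun u => Star Z (u ++ v) → Star Z v) (fun h => h) ?_ hu
  intro z hz w _ ih h
  obtain ⟨zs, h1, e⟩ := h
  cases zs with
  | nil =>
    have : z = [] := by
      have e' : z ++ (w ++ v) = [] := by simpa using e.symm
      exact (List.append_eq_nil_iff.1 e').1
    exact absurd (this ▸ hz) hZ0
  | cons z' zs =>
    have e' : z' ++ zs.flatten = z ++ (w ++ v) := by simpa using e
    have := pref_eq hZp (h1 z' List.mem_cons_self) hz e'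
    subst this
    exact ih ⟨zs, fun y hy => h1 y (List.mem_cons_of_mem _ hy), List.append_cancel_left e'⟩

theorem Star.letter {Z : Set (List A)} (hZ0 : [] ∉ Z) {c : A} (h : Star Z [c]) : [c] ∈ Z := by
  obtain ⟨zs, h1, e⟩ := h
  cases zs with
  | nil => simp at e
  | cons z zs =>
    have hz := h1 z List.mem_cons_self
    cases z with
    | nil => exact absurd hz hZ0
    | cons d z =>
      simp only [List.flatten_cons, List.cons_append, List.cons.injEq,
        List.append_eq_nil_iff] at e
      obtain ⟨rfl, rfl, _⟩ := e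
      exact hz

theorem ru_last (c : A) : RU {w : List A | w.getLast? ≠ some c} := by
  refine ⟨by simp, ?_, ?_⟩
  · intro u v hu hv
    cases v with
    | nil => simpa using hu
    | cons d v =>
      show (u ++ d :: v).getLast? ≠ some c
      rw [List.getLast?_append_of_ne_nil _ (by simp)]
      exact hv
  · intro u v _ h
    cases v with
    | nil => simp
    | cons d v =>
      have h' : (u ++ d :: v).getLast? ≠ some c := h
      rw [List.getLast?_append_of_ne_nil _ (by simp)] at h'
      exact h'

def PHg (x y z : List A) : Prop :=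
  ∀ M, RU M → x ∈ M → y ∈ M → z ∈ M → ∀ c, c ∈ x ++ y ++ z → [c] ∈ M

def PH (x y z : List Bool) : Prop := ∀ M, RU M → x ∈ M → y ∈ M → z ∈ M → ∀ c, [c] ∈ M

theorem ru_factor (M : Set (List A)) : ∀ n : ℕ, ∀ w ∈ M, w.length ≤ n →
    Star {w | w ∈ M ∧ w ≠ [] ∧ ∀ u v, u ∈ M → v ∈ M → w = u ++ v → u = [] ∨ v = []} w := by
  intro n
  induction n with
  | zero =>
    intro w _ h
    have : w = [] := List.length_eq_zero_iff.1 (by omega)
    subst this
    exact Star.nil _
  | succ n ih =>
    intro w hw h
    by_cases h0 : w = []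
    · subst h0
      exact Star.nil _
    by_cases h1 : ∀ u v, u ∈ M → v ∈ M → w = u ++ v → u = [] ∨ v = []
    · exact Star.of_mem ⟨hw, h0, h1⟩
    · push Not at h1
      obtain ⟨u, v, hu, hv, rfl, h2, h3⟩ := h1
      have h4 := List.length_pos_iff.2 h2
      have h5 := List.length_pos_iff.2 h3
      simp at h
      exact (ih u hu (by omega)).append (ih v hv (by omega))

theorem len_le_flatten (xs : List (List A)) (h : ∀ x ∈ xs, x ≠ []) :
    xs.length ≤ xs.flatten.length := by
  induction xs with
  | nil => simp
  | cons x xs ih =>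
    have h1 := ih fun y hy => h y (List.mem_cons_of_mem _ hy)
    have h2 := List.length_pos_iff.2 (h x List.mem_cons_self)
    rw [List.flatten_cons, List.length_append, List.length_cons]
    omega

theorem len_lt_flatten (xs : List (List A)) (h : ∀ x ∈ xs, x ≠ []) (c : A)
    (hc : c ∈ xs.flatten) (h' : [c] ∉ xs) : xs.length < xs.flatten.length := by
  induction xs with
  | nil => simp at hc
  | cons x xs ih =>
    have h0 : ∀ y ∈ xs, y ≠ [] := fun y hy => h y (List.mem_cons_of_mem _ hy)
    have h1 := len_le_flatten xs h0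
    have h2 := List.length_pos_iff.2 (h x List.mem_cons_self)
    rw [List.flatten_cons, List.mem_append] at hc
    rw [List.flatten_cons, List.length_append, List.length_cons]
    rcases hc with hc | hc
    · have : x.length ≠ 1 := by
        intro e
        obtain ⟨d, rfl⟩ := List.length_eq_one_iff.1 e
        have : c = d := by simpa using hc
        subst this
        exact h' List.mem_cons_self
      omega
    · have := ih h0 hc fun e => h' (List.mem_cons_of_mem _ e)
      omega

theorem step_not_ph [Finite A] (x y z : List A) (hc : C3 x y z) (hn : ¬ PHg x y z)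
    (ih : ∀ (B : Type) [Finite B] (x' y' z' : List B),
      x'.length + y'.length + z'.length < x.length + y.length + z.length → C3 x' y' z' →
      Cpl {x', y', z'}) : Cpl {x, y, z} := by
  simp only [PHg, not_forall] at hn
  obtain ⟨M, hM, hx, hy, hz, c, hcm, hcM⟩ := hn
  obtain ⟨xs, hxs, rfl⟩ := ru_factor M _ x hx le_rfl
  obtain ⟨ys, hys, rfl⟩ := ru_factor M _ y hy le_rfl
  obtain ⟨zs, hzs, rfl⟩ := ru_factor M _ z hz le_rfl
  have hall : ∀ w ∈ xs ++ ys ++ zs,
      w ∈ M ∧ w ≠ [] ∧ ∀ u v, u ∈ M → v ∈ M → w = u ++ v → u = [] ∨ v = [] := by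
    intro w hw
    simp only [List.mem_append] at hw
    rcases hw with (h | h) | h
    · exact hxs w h
    · exact hys w h
    · exact hzs w h
  obtain ⟨Z', f1, f2, f3, f4⟩ := cpl_of_pref {w | w ∈ xs ++ ys ++ zs} (List.finite_toSet _)
    (fun h => (hall _ h).2.1 rfl) (by
      rintro a ha b hb ⟨v, rfl⟩
      have h1 := hM.can (hall a ha).1 (hall _ hb).1
      rcases (hall _ hb).2.2 a v (hall a ha).1 h1 rfl with h | h
      · exact absurd h (hall a ha).2.1
      · simp [h])
  have : Finite Z' := f1.to_subtype
  have lift : ∀ ws : List (List A), (∀ w ∈ ws, w ∈ Z') →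
      ∃ t : List Z', t.flatMap Subtype.val = ws.flatten ∧ t.length = ws.length := by
    intro ws
    induction ws with
    | nil => intro _; exact ⟨[], rfl, rfl⟩
    | cons w ws ih =>
      intro h
      obtain ⟨t, h1, h2⟩ := ih fun y hy => h y (List.mem_cons_of_mem _ hy)
      exact ⟨⟨w, h w List.mem_cons_self⟩ :: t, by simp [h1], by simp [h2]⟩
  obtain ⟨x', x1, x2⟩ := lift xs fun w hw => f2 (by simp [hw])
  obtain ⟨y', y1, y2⟩ := lift ys fun w hw => f2 (by simp [hw])
  obtain ⟨z', z1, z2⟩ := lift zs fun w hw => f2 (by simp [hw])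
  have hc' : C3 x' y' z' :=
    C3.pull (fun a b => a.flatMap Subtype.val = b) rfl
      (by rintro a _ c _ rfl rfl; simp) (by rintro a _ _ rfl rfl; rfl) x1 y1 z1 hc
  have l1 := len_le_flatten xs fun w hw => (hxs w hw).2.1
  have l2 := len_le_flatten ys fun w hw => (hys w hw).2.1
  have l3 := len_le_flatten zs fun w hw => (hzs w hw).2.1
  have hlt : x'.length + y'.length + z'.length <
      xs.flatten.length + ys.flatten.length + zs.flatten.length := by
    simp only [List.mem_append] at hcm
    rcases hcm with (h | h) | h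
    · have := len_lt_flatten xs (fun w hw => (hxs w hw).2.1) c h fun e => hcM (hxs _ e).1
      omega
    · have := len_lt_flatten ys (fun w hw => (hys w hw).2.1) c h fun e => hcM (hys _ e).1
      omega
    · have := len_lt_flatten zs (fun w hw => (hzs w hw).2.1) c h fun e => hcM (hzs _ e).1
      omega
  have := (ih Z' x' y' z' hlt hc').comp (Subtype.val : Z' → List A) Subtype.val_injective
    (by rw [Subtype.range_coe]; exact f3) (by rw [Subtype.range_coe]; exact f4)
  simpa only [Set.image_insert_eq, Set.image_singleton, x1, y1, z1] using this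

theorem reduce_bool
    (core : ∀ x y z : List Bool, C3 x y z → PH x y z → PH x.reverse y.reverse z.reverse →
      Cpl {x, y, z}) :
    ∀ n : ℕ, ∀ (A : Type) [Finite A] (x y z : List A), x.length + y.length + z.length < n →
      C3 x y z → Cpl {x, y, z} := by
  classical
  intro n
  induction n with
  | zero => intro A _ x y z h; omega
  | succ n ih =>
    intro A _ x y z hl hc
    by_cases h1 : PHg x y z
    swap
    · exact step_not_ph x y z hc h1 fun B _ x' y' z' h h' => ih B x' y' z' (by omega) h'
    by_cases h2 : PHg x.reverse y.reverse z.reverse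
    swap
    · refine cpl_of_rev (step_not_ph _ _ _ hc.rev h2 fun B _ x' y' z' h h' =>
        ih B x' y' z' (by simp at h; omega) h')
    have first : ∀ c ∈ x ++ y ++ z, x.head? = some c ∨ y.head? = some c ∨ z.head? = some c := by
      intro c hcm
      by_contra hn
      push Not at hn
      have := h2 _ (ru_last c) (by simpa using hn.1) (by simpa using hn.2.1)
        (by simpa using hn.2.2) c (by simpa using hcm)
      simp at this
    obtain ⟨a, ha, b, hb, hab⟩ : ∃ a ∈ x ++ y ++ z, ∃ b ∈ x ++ y ++ z, a ≠ b := by
      by_contra hn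
      push Not at hn
      obtain ⟨a, x1, rfl⟩ := List.exists_cons_of_ne_nil hc.ne1
      have e1 : a :: x1 = List.replicate (a :: x1).length a :=
        List.eq_replicate_of_mem fun b hb => hn b (by simp only [List.mem_append]; tauto) a (by simp)
      have e2 : y = List.replicate y.length a :=
        List.eq_replicate_of_mem fun b hb => hn b (by simp only [List.mem_append]; tauto) a (by simp)
      refine hc.not12 (s := y) (t := a :: x1) (Star.of_mem (by simp)) (Star.of_mem (by simp)) ?_
      rw [e1, e2, ← List.replicate_add, ← List.replicate_add, Nat.add_comm]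
    by_cases h3 : ∃ c ∈ x ++ y ++ z, c ≠ a ∧ c ≠ b
    · obtain ⟨c, hcm, hca, hcb⟩ := h3
      have fa := first a ha
      have fb := first b hb
      have fc := first c hcm
      obtain ⟨p, x1, rfl⟩ := List.exists_cons_of_ne_nil hc.ne1
      obtain ⟨q, y1, rfl⟩ := List.exists_cons_of_ne_nil hc.ne2
      obtain ⟨r, z1, rfl⟩ := List.exists_cons_of_ne_nil hc.ne3
      simp only [List.head?_cons, Option.some.injEq] at fa fb fc
      have d : p ≠ q ∧ p ≠ r ∧ q ≠ r := by
        refine ⟨?_, ?_, ?_⟩ <;> intro e <;> grind
      refine cpl_of_pref _ (Set.toFinite _) (by simp) ?_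
      rintro v (rfl | rfl | rfl) w (rfl | rfl | rfl) h <;>
        first
          | rfl
          | (exfalso; have := (List.cons_prefix_cons.1 h).1; grind)
    · push Not at h3
      let p : A → Bool := fun c => decide (c = a)
      let i : Bool → A := fun t => if t then a else b
      have ip : ∀ c ∈ x ++ y ++ z, i (p c) = c := by
        intro c hcm
        by_cases e : c = a
        · simp [i, p, e]
        · have e2 := h3 c hcm e
          subst e2
          simp [i, p, e]
      have ipl : ∀ w : List A, (∀ c ∈ w, c ∈ x ++ y ++ z) → (w.map p).map i = w := by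
        intro w hw
        rw [List.map_map]
        conv_rhs => rw [← List.map_id w]
        exact List.map_congr_left fun c hcw => ip c (hw c hcw)
      have hc' : C3 (x.map p) (y.map p) (z.map p) :=
        C3.pull (fun v w => v.map i = w) rfl (by rintro a _ c _ rfl rfl; simp)
          (by rintro a _ _ rfl rfl; rfl) (ipl x (by simp only [List.mem_append]; tauto))
          (ipl y (by simp only [List.mem_append]; tauto))
          (ipl z (by simp only [List.mem_append]; tauto)) hc
      have tr : ∀ x y z : List A, PHg x y z → a ∈ x ++ y ++ z → b ∈ x ++ y ++ z →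
          PH (x.map p) (y.map p) (z.map p) := by
        intro x y z h ha hb M hM hx hy hz c
        have hM' : RU {w : List A | w.map p ∈ M} :=
          ⟨hM.nil, fun {u v} hu hv => by
              show (u ++ v).map p ∈ M
              rw [List.map_append]; exact hM.app hu hv,
            fun {u v} hu hv => by
              have hv' : (u ++ v).map p ∈ M := hv
              rw [List.map_append] at hv'; exact hM.can hu hv'⟩
        have k := h _ hM' hx hy hz
        cases c with
        | true => simpa [p] using k a ha
        | false => simpa [p, hab.symm] using k b hb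
      have := core _ _ _ hc' (tr x y z h1 ha hb) (by
        have := tr _ _ _ h2 (by simpa using ha) (by simpa using hb)
        simpa [List.map_reverse] using this)
      refine (this.preimage p ?_).mono ?_
      · intro t
        cases t with
        | true => exact ⟨a, by simp [p]⟩
        | false => exact ⟨b, by simp [p, hab.symm]⟩
      · rintro w (rfl | rfl | rfl) <;> simp

end Pool.Agent.Lib.MP_5364dc_lc
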