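import Mathlib

set_option autoImplicit false

open Finset

namespace Pool.Agent.Lib.MP_5364dc_lc.Mx

variable {A : Type}

/-- products of words of `Y` -/
def St (Y : Set (List A)) (w : List A) : Prop :=
  ∃ zs : List (List A), (∀ z ∈ zs, z ∈ Y) ∧ zs.flatten = w

lemma trimL (Y : Set (List A)) (m : ℕ) (hm : ∀ y ∈ Y, y.length ≤ m) :
    ∀ (zs : List (List A)) (u r : List A), (∀ z ∈ zs, z ∈ Y) → zs.flatten = u ++ r →
      ∃ u' : List A, u'.length ≤ m ∧ St Y (u' ++ r) := by
  intro zs
  induction zs with
  | nil =>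
    intro u r _ h
    have : r = [] := by
      have := congrArg List.length h
      simp at this
      exact List.length_eq_zero_iff.1 (by omega)
    exact ⟨[], by simp, [], by simp, by simp [this]⟩
  | cons z zs ih =>
    intro u r hz h
    by_cases hu : u.length ≤ m
    · exact ⟨u, hu, z :: zs, hz, h⟩
    · have h1 := hm z (hz z List.mem_cons_self)
      rw [List.flatten_cons, List.append_eq_append_iff] at h
      rcases h with ⟨a, h2, h3⟩ | ⟨a, h2, h3⟩
      · exact ih a r (fun y hy => hz y (List.mem_cons_of_mem _ hy)) h3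
      · have := congrArg List.length h2
        simp at this
        omega

lemma trimR (Y : Set (List A)) (m : ℕ) (hm : ∀ y ∈ Y, y.length ≤ m) (r v : List A)
    (h : St Y (r ++ v)) : ∃ v' : List A, v'.length ≤ m ∧ St Y (r ++ v') := by
  obtain ⟨zs, hz, h⟩ := h
  obtain ⟨u', h1, zs', h2, h3⟩ := trimL (List.reverse '' Y) m
    (by rintro _ ⟨y, hy, rfl⟩; simpa using hm y hy) (zs.map List.reverse).reverse v.reverse r.reverse
    (by
      intro z hz'
      simp only [List.mem_reverse, List.mem_map] at hz'
      obtain ⟨y, hy, rfl⟩ := hz'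
      exact ⟨y, hz y hy, rfl⟩)
    (by rw [← List.reverse_flatten, h]; simp)
  refine ⟨u'.reverse, by simpa using h1, (zs'.map List.reverse).reverse, ?_, ?_⟩
  · intro z hz'
    simp only [List.mem_reverse, List.mem_map] at hz'
    obtain ⟨y, hy, rfl⟩ := hz'
    obtain ⟨x, hx, rfl⟩ := h2 y hy
    simpa using hx
  · rw [← List.reverse_flatten, h3]; simp

open Classical in
/-- number of products of length `n` -/
noncomputable def cnt [Fintype A] (Y : Set (List A)) (n : ℕ) : ℕ :=
  ((univ : Finset (List.Vector A n)).filter fun w => St Y w.1).card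

lemma cnt_rec [Fintype A] (Y : Finset (List A)) (n : ℕ) (hn : 0 < n) :
    cnt (Y : Set (List A)) n ≤
      ∑ y ∈ Y, if y.length ≤ n then cnt (Y : Set (List A)) (n - y.length) else 0 := by
  classical
  have h1 : ((univ : Finset (List.Vector A n)).filter fun w => St (Y : Set (List A)) w.1) ⊆
      Y.biUnion fun y => (univ : Finset (List.Vector A n)).filter
        fun w => ∃ r, St (Y : Set (List A)) r ∧ w.1 = y ++ r := by
    intro w hw
    obtain ⟨zs, hz, h⟩ := (mem_filter.1 hw).2
    cases zs with
    | nil =>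
      have := w.2
      rw [← h] at this
      simp at this
      omega
    | cons z zs =>
      refine mem_biUnion.2 ⟨z, hz z List.mem_cons_self, mem_filter.2 ⟨mem_univ _, zs.flatten,
        ⟨zs, fun y hy => hz y (List.mem_cons_of_mem _ hy), rfl⟩, by rw [← h]; simp⟩⟩
  refine (card_le_card h1).trans (card_biUnion_le.trans (sum_le_sum fun y _ => ?_))
  split_ifs with hy
  · unfold cnt
    refine card_le_card_of_injOn (fun w => ⟨w.1.drop y.length, by simp [w.2]⟩) ?_ ?_
    · intro w hw
      obtain ⟨r, hr, h⟩ := (mem_filter.1 (mem_coe.1 hw)).2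
      refine mem_coe.2 (mem_filter.2 ⟨mem_univ _, ?_⟩)
      show St _ (w.1.drop y.length)
      rw [h]; simpa using hr
    · intro w hw w' hw' h
      obtain ⟨r, -, h1⟩ := (mem_filter.1 (mem_coe.1 hw)).2
      obtain ⟨r', -, h2⟩ := (mem_filter.1 (mem_coe.1 hw')).2
      have h3 : w.1.drop y.length = w'.1.drop y.length := congrArg Subtype.val h
      rw [h1, h2] at h3
      simp at h3
      exact Subtype.ext (by rw [h1, h2, h3])
  · rw [Nat.le_zero, card_eq_zero, filter_eq_empty_iff]
    rintro w - ⟨r, -, h⟩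
    have := w.2
    rw [h] at this
    simp at this
    omega

lemma cnt_lower [Fintype A] (Y : Set (List A)) (m : ℕ) (hm : ∀ y ∈ Y, y.length ≤ m)
    (hc : ∀ w : List A, ∃ u v, St Y (u ++ w ++ v)) (n : ℕ) :
    Fintype.card A ^ n ≤ ∑ p ∈ range (m + 1) ×ˢ range (m + 1), cnt Y (p.1 + n + p.2) := by
  classical
  have h1 : (univ : Finset (List.Vector A n)) ⊆
      (range (m + 1) ×ˢ range (m + 1)).biUnion fun p => (univ : Finset (List.Vector A n)).filter
        fun w => ∃ u v : List A, u.length = p.1 ∧ v.length = p.2 ∧ St Y (u ++ w.1 ++ v) := by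
    intro w _
    obtain ⟨u, v, zs, hz, h⟩ := hc w.1
    obtain ⟨u', h1, h2⟩ := trimL Y m hm zs u (w.1 ++ v) hz (by rw [h]; simp)
    obtain ⟨v', h3, h4⟩ := trimR Y m hm (u' ++ w.1) v (by simpa using h2)
    exact mem_biUnion.2 ⟨(u'.length, v'.length), by simp; omega,
      mem_filter.2 ⟨mem_univ _, u', v', rfl, rfl, h4⟩⟩
  rw [← card_vector, ← card_univ]
  refine (card_le_card h1).trans (card_biUnion_le.trans (sum_le_sum fun p _ => ?_))
  unfold cnt
  refine card_le_card_of_surjOn (fun w => ⟨(w.1.drop p.1).take n, by simp [w.2]; omega⟩) ?_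
  intro w hw
  obtain ⟨u, v, h1, h2, h3⟩ := (mem_filter.1 (mem_coe.1 hw)).2
  refine ⟨⟨u ++ w.1 ++ v, by simp [h1, h2, w.2]; omega⟩, mem_coe.2 (mem_filter.2 ⟨mem_univ _, h3⟩),
    Subtype.ext ?_⟩
  show ((u ++ w.1 ++ v).drop p.1).take n = w.1
  rw [← h1, List.append_assoc, List.drop_left, List.take_left' w.2]

theorem one_le_measure [Fintype A] [Nonempty A] (Y : Finset (List A)) (h0 : [] ∉ Y)
    (hc : ∀ w : List A, ∃ u v, St (Y : Set (List A)) (u ++ w ++ v)) :
    1 ≤ ∑ y ∈ Y, (1 / Fintype.card A : ℝ) ^ y.length := by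
  classical
  by_contra hlt
  push Not at hlt
  set q : ℝ := (Fintype.card A : ℝ) with hq
  have hq1 : 1 ≤ q := by rw [hq]; exact_mod_cast Fintype.card_pos
  have hcont : ContinuousAt (fun x : ℝ => ∑ y ∈ Y, x ^ y.length) (1 / q) := by fun_prop
  obtain ⟨δ, hδ, hx⟩ := Metric.eventually_nhds_iff.1 (hcont.eventually (gt_mem_nhds hlt))
  set x : ℝ := 1 / q + δ / 2 with hxd
  have hq0 : 0 < 1 / q := by positivity
  have hx0 : 0 < x := by positivity
  have hx1 : ∑ y ∈ Y, x ^ y.length < 1 :=
    hx (by rw [Real.dist_eq, hxd, add_sub_cancel_left, abs_of_pos (by positivity)]; linarith)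
  have hup : ∀ n, (cnt (Y : Set (List A)) n : ℝ) * x ^ n ≤ 1 := by
    intro n
    induction n using Nat.strong_induction_on with
    | _ n ih =>
      rcases Nat.eq_zero_or_pos n with rfl | hn
      · have : cnt (Y : Set (List A)) 0 ≤ 1 := by
          unfold cnt
          refine (card_filter_le _ _).trans ?_
          rw [card_univ, card_vector]; simp
        simpa using this
      · have h1 : (cnt (Y : Set (List A)) n : ℝ) ≤ ∑ y ∈ Y,
            if y.length ≤ n then (cnt (Y : Set (List A)) (n - y.length) : ℝ) else 0 := by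
          exact_mod_cast cnt_rec Y n hn
        refine (mul_le_mul_of_nonneg_right h1 (by positivity)).trans ?_
        rw [sum_mul]
        refine le_trans (sum_le_sum fun y hy => ?_) hx1.le
        split_ifs with h2
        · have h3 : 0 < y.length := List.length_pos_iff.2 fun h => h0 (h ▸ hy)
          have h4 := ih (n - y.length) (by omega)
          have h5 : x ^ n = x ^ (n - y.length) * x ^ y.length := by
            rw [← pow_add]; congr 1; omega
          rw [h5, ← mul_assoc]
          exact mul_le_of_le_one_left (by positivity) h4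
        · rw [zero_mul]; positivity
  set m := Y.sup List.length with hm
  have hqx : 1 < q * x := by
    rw [hxd, mul_add, mul_one_div_cancel (by positivity)]
    have : 0 < q * (δ / 2) := by positivity
    linarith
  obtain ⟨n, hn⟩ := pow_unbounded_of_one_lt
    (∑ p ∈ range (m + 1) ×ˢ range (m + 1), (x ^ (p.1 + p.2))⁻¹) hqx
  have h1 : q ^ n ≤ ∑ p ∈ range (m + 1) ×ˢ range (m + 1),
      (cnt (Y : Set (List A)) (p.1 + n + p.2) : ℝ) := by
    rw [hq]
    exact_mod_cast cnt_lower (Y : Set (List A)) m (fun y hy => le_sup (f := List.length) hy) hc n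
  have h2 : (q * x) ^ n ≤ ∑ p ∈ range (m + 1) ×ˢ range (m + 1), (x ^ (p.1 + p.2))⁻¹ := by
    rw [mul_pow]
    refine (mul_le_mul_of_nonneg_right h1 (by positivity)).trans ?_
    rw [sum_mul]
    refine sum_le_sum fun p _ => ?_
    have h3 := hup (p.1 + n + p.2)
    have h4 : x ^ (p.1 + n + p.2) = x ^ n * x ^ (p.1 + p.2) := by rw [← pow_add]; congr 1; omega
    rw [h4, ← mul_assoc] at h3
    rw [← one_div, le_div_iff₀ (by positivity)]
    exact h3
  linarith

/-- A finite complete code is a maximal code. -/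
theorem maximal_of_complete [Finite A] [Nonempty A] {Y Z : Set (List A)} (hY : Y.Finite)
    (hc : ∀ w : List A, ∃ u v, St Y (u ++ w ++ v)) (hYZ : Y ⊆ Z)
    (hZ : InformationTheory.UniquelyDecodable Z) : Z = Y := by
  classical
  have := Fintype.ofFinite A
  refine Set.Subset.antisymm (fun z hz => ?_) hYZ
  by_contra hzY
  have h0 : [] ∉ hY.toFinset := fun h => hZ.epsilon_not_mem (hYZ (hY.mem_toFinset.1 h))
  have h1 := one_le_measure hY.toFinset h0 (by simpa using hc)
  have h2 := InformationTheory.kraft_mcmillan_inequality (S := insert z hY.toFinset)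
    (fun a b ha hb h => hZ a b
      (fun w hw => by
        rcases mem_insert.1 (mem_coe.1 (ha w hw)) with rfl | h
        · exact hz
        · exact hYZ (hY.mem_toFinset.1 h))
      (fun w hw => by
        rcases mem_insert.1 (mem_coe.1 (hb w hw)) with rfl | h
        · exact hz
        · exact hYZ (hY.mem_toFinset.1 h)) h)
  rw [sum_insert (by simpa using hzY)] at h2
  have h3 : (0 : ℝ) < (1 / Fintype.card A : ℝ) ^ z.length := by
    have : (0 : ℝ) < Fintype.card A := by exact_mod_cast Fintype.card_pos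
    positivity
  linarith

end Pool.Agent.Lib.MP_5364dc_lc.Mx
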