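import Pool.Agent.Lib.MP_5364dc_lc.Cons

namespace Pool.Agent.Lib.MP_5364dc_lc.OldCompletion

/-- `X` is a code: every word has at most one factorization into words of `X`. -/
def IsCode {A : Type} (X : Set (List A)) : Prop :=
  ∀ xs ys : List (List A), (∀ x ∈ xs, x ∈ X) → (∀ y ∈ ys, y ∈ X) →
    xs.flatten = ys.flatten → xs = ys

/-- `Y` is complete: every word is a factor of a product of words of `Y`. -/
def IsComplete {A : Type} (Y : Set (List A)) : Prop :=
  ∀ w : List A, ∃ (u v : List A) (zs : List (List A)),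
    (∀ z ∈ zs, z ∈ Y) ∧ zs.flatten = u ++ w ++ v

/-- Every three-word code over a finite alphabet is contained in a finite complete code. -/
theorem result (A : Type) [Finite A] (X : Set (List A)) (h3 : X.ncard = 3) (hX : IsCode X) :
    ∃ Y : Set (List A), Y.Finite ∧ X ⊆ Y ∧ IsCode Y ∧ IsComplete Y := by
  obtain ⟨x, y, z, n1, n2, n3, rfl⟩ := Set.ncard_eq_three.1 h3
  exact Pool.Agent.Lib.MP_5364dc_lc.three_words x y z ⟨hX, n1, n2, n3⟩

end Pool.Agent.Lib.MP_5364dc_lc.OldCompletion
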