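import Pool.Agent.Lib.MP_5364dc_lc.Frame

/-! Tiles and the left parse of one gap sequence by the other. -/

namespace Pool.Agent.Lib.MP_5364dc_lc

variable {A : Type}

def tile (P Q : List A) : List ℕ → List A
  | [] => Q
  | g :: S => Q ++ (pw P g ++ tile P Q S)

@[simp] theorem tile_nil (P Q : List A) : tile P Q [] = Q := rfl
theorem tile_cons (P Q : List A) (g : ℕ) (S : List ℕ) :
    tile P Q (g :: S) = Q ++ (pw P g ++ tile P Q S) := rfl

theorem tile_append (P Q : List A) (S : List ℕ) (g : ℕ) (L : List ℕ) :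
    tile P Q (S ++ g :: L) = tile P Q S ++ (pw P g ++ tile P Q L) := by
  induction S with
  | nil => rfl
  | cons s S ih => simp [tile_cons, ih]

theorem tile_reverse (P Q : List A) (S : List ℕ) :
    (tile P Q S).reverse = tile P.reverse Q.reverse S.reverse := by
  induction S with
  | nil => rfl
  | cons s S ih => simp [tile_cons, ih, tile_append, reverse_pw]

theorem tile_head (P Q : List A) (S : List ℕ) : ∃ t, tile P Q S = Q ++ t := by
  cases S with
  | nil => exact ⟨[], by simp⟩
  | cons s S => exact ⟨_, rfl⟩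

theorem tile_zero (P Q : List A) (f : ℕ) : tile P Q (List.replicate f 0) = pw Q (f + 1) := by
  induction f with
  | zero => simp
  | succ f ih => rw [List.replicate_succ, tile_cons, ih, pw_succ Q (f + 1)]; simp

theorem RU.tile {M : Set (List A)} (hM : RU M) {P Q : List A} (hP : P ∈ M) (hQ : Q ∈ M)
    (S : List ℕ) : tile P Q S ∈ M := by
  induction S with
  | nil => exact hQ
  | cons s S ih => exact hM.app hQ (hM.app (hM.pw hP s) ih)

inductive LP (o : ℕ) (S : List ℕ) (b d : ℕ) : List ℕ → Prop
  | eq : LP o S b d S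
  | short (L : List ℕ) (s : ℕ) (T : List ℕ) : S = L ++ s :: T → d ≤ s + o → LP o S b d L
  | step (g : ℕ) (L : List ℕ) : b ≤ g + o → LP o S b d L → LP o S b d (S ++ g :: L)

theorem LP.shift {S L : List ℕ} {b d : ℕ} (h : LP 1 S b d L) :
    LP 0 (S.map (· + 1)) b d (L.map (· + 1)) := by
  induction h with
  | eq => exact LP.eq
  | short L s T e h => exact LP.short _ (s + 1) (T.map (· + 1)) (by simp [e]) h
  | step g L h _ ih =>
    rw [List.map_append, List.map_cons]
    exact LP.step _ _ h ih

theorem mismatch {u v w : List A} {c d : A} (h : c ≠ d) :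
    ¬ (u ++ c :: v <+: u ++ d :: w) := by
  intro e
  exact h (List.cons_prefix_cons.1 ((List.prefix_append_right_inj u).1 e)).1

theorem split_len {V x P Q : List A} (h : V ++ x = P ++ Q) (hl : x.length ≤ Q.length) :
    ∃ V', V = P ++ V' ∧ V' ++ x = Q := by
  have : P <+: V := by
    refine List.prefix_of_prefix_length_le ⟨Q, h.symm⟩ (List.prefix_append _ _) ?_
    have := congrArg List.length h
    simp at this; omega
  obtain ⟨V', rfl⟩ := this
  exact ⟨V', rfl, by rw [List.append_assoc] at h; exact List.append_cancel_left h⟩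

theorem pw_comm (x : List A) (n : ℕ) : x ++ pw x n = pw x n ++ x := by
  rw [← pw_succ, pw_succ']

/-! ### the case of a letter -/

theorem pw_lt (c : A) {m n : ℕ} (h : m < n) : ∃ t, pw [c] n = pw [c] m ++ c :: t := by
  obtain ⟨d, rfl⟩ := Nat.exists_eq_add_of_lt h
  exact ⟨pw [c] d, by rw [Nat.add_assoc, pw_add, pw_succ]; rfl⟩

theorem mm_zero {a b : A} (hab : a ≠ b) (β δ : ℕ) : ∀ S L : List ℕ,
    (tile [a] [b] S ++ pw [a] β <+: tile [a] [b] L ++ pw [a] δ ∨
      tile [a] [b] L ++ pw [a] δ <+: tile [a] [b] S ++ pw [a] β) →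
    L = S ∨ (∃ s T, S = L ++ s :: T ∧ δ ≤ s) ∨ ∃ g L', L = S ++ g :: L' ∧ β ≤ g := by
  have key : ∀ (m n : ℕ) (u v : List A) (L : List ℕ), m < n →
      ¬ (pw [a] n ++ u <+: pw [a] m ++ (tile [a] [b] L ++ v) ∨
        pw [a] m ++ (tile [a] [b] L ++ v) <+: pw [a] n ++ u) := by
    intro m n u v L h
    obtain ⟨t, e⟩ := pw_lt a h
    obtain ⟨t', e'⟩ := tile_head [a] [b] L
    rw [e, e']
    simp only [List.append_assoc, List.cons_append, List.nil_append]
    rintro (c | c)
    · exact mismatch hab c
    · exact mismatch hab.symm c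
  intro S
  induction S with
  | nil =>
    intro L h
    cases L with
    | nil => exact Or.inl rfl
    | cons g L =>
      refine Or.inr (Or.inr ⟨g, L, rfl, ?_⟩)
      by_contra hc
      simp only [tile_nil, tile_cons, List.append_assoc, List.prefix_append_right_inj] at h
      exact key g β [] _ L (by omega) (by simpa using h)
  | cons s S ih =>
    intro L h
    cases L with
    | nil =>
      refine Or.inr (Or.inl ⟨s, S, rfl, ?_⟩)
      by_contra hc
      simp only [tile_nil, tile_cons, List.append_assoc, List.prefix_append_right_inj] at h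
      exact key s δ [] _ S (by omega) (by simpa using h.symm)
    | cons g L =>
      simp only [tile_cons, List.append_assoc, List.prefix_append_right_inj] at h
      rcases lt_trichotomy s g with c | rfl | c
      · exact absurd h.symm (key s g _ _ S c)
      · simp only [List.prefix_append_right_inj] at h
        rcases ih L h with rfl | ⟨s', T, rfl, h'⟩ | ⟨g, L', rfl, h'⟩
        · exact Or.inl rfl
        · exact Or.inr (Or.inl ⟨s', T, rfl, h'⟩)
        · exact Or.inr (Or.inr ⟨g, L', rfl, h'⟩)
      · exact absurd h (key g s _ _ L c)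

theorem lp_zero (a : Bool) (S : List ℕ) (β δ : ℕ) : ∀ n : ℕ, ∀ L : List ℕ, L.length ≤ n →
    PH [a] (tile [a] [!a] S ++ pw [a] β) (tile [a] [!a] L ++ pw [a] δ) → LP 0 S β δ L := by
  have hh : ∀ L d, (tile [a] [!a] L ++ pw [a] d).head? = some (!a) := by
    intro L d
    obtain ⟨t, e⟩ := tile_head [a] [!a] L
    simp [e]
  intro n
  induction n using Nat.strong_induction_on with
  | _ n ih =>
    intro L hl h
    have hc : tile [a] [!a] S ++ pw [a] β <+: tile [a] [!a] L ++ pw [a] δ ∨
        tile [a] [!a] L ++ pw [a] δ <+: tile [a] [!a] S ++ pw [a] β := by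
      rcases h.comparable with c | c | c | c | c | c
      · exact absurd c (not_pref_of_head rfl (hh _ _) (by simp))
      · exact absurd c (not_pref_of_head (hh _ _) rfl (by simp))
      · exact absurd c (not_pref_of_head rfl (hh _ _) (by simp))
      · exact absurd c (not_pref_of_head (hh _ _) rfl (by simp))
      · exact Or.inl c
      · exact Or.inr c
    rcases mm_zero (by simp) β δ S L hc with rfl | ⟨s, T, e, h1⟩ | ⟨g, L', rfl, h1⟩
    · exact LP.eq
    · exact LP.short L s T e h1
    · refine LP.step g L' h1 (ih L'.length (by simp at hl; omega) L' le_rfl ?_)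
      refine h.of fun M hM h2 h3 h4 => ⟨h2, h3, ?_⟩
      obtain ⟨d, rfl⟩ := Nat.exists_eq_add_of_le h1
      rw [tile_append, pw_add]
      simpa only [List.append_assoc] using hM.app h3 (hM.app (hM.pw h2 d) h4)

/-! ### the general case -/

theorem tile_short {a : Bool} {k : ℕ} {L : List ℕ} {c δ : ℕ}
    (h : (pw (xk a k) c ++ (tile (xk a k) [!a, a] L ++ pw (xk a k) δ)).length < (xk a k).length) :
    c = 0 ∧ δ = 0 ∧ ∃ f, L = List.replicate f 0 ∧ f + 1 ≤ k := by
  have h1 : ∀ n u v, (u ++ (pw (xk a k) n ++ v)).length < (xk a k).length → n = 0 := by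
    intro n u v h
    cases n with
    | zero => rfl
    | succ n => simp only [pw_succ, List.length_append] at h; omega
  have hc : c = 0 := h1 c [] _ h
  have hd : δ = 0 := h1 δ (pw (xk a k) c ++ tile (xk a k) [!a, a] L) [] (by simpa using h)
  subst hc hd
  refine ⟨rfl, rfl, ?_⟩
  simp only [pw_zero, List.nil_append, List.append_nil] at h
  have : L = List.replicate L.length 0 := by
    induction L with
    | nil => rfl
    | cons g L ih =>
      have := h1 g _ _ h
      subst this
      rw [List.length_cons, List.replicate_succ, ← ih]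
      simp only [tile_cons, List.length_append] at h
      omega
  refine ⟨L.length, this, ?_⟩
  rw [this, tile_zero] at h
  simp at h
  omega

theorem head_of_tile {a : Bool} {k : ℕ} {V Q : List Bool} {L : List ℕ}
    (h : V ++ xk a k = tile (xk a k) [!a, a] L ++ Q) : V.head? = some (!a) := by
  obtain ⟨t, e⟩ := tile_head (xk a k) [!a, a] L
  rw [e] at h
  cases V with
  | nil => simp [xk] at h
  | cons c V => simpa using (List.cons.inj h).1

theorem neg_form {a : Bool} {k f : ℕ} {V P : List Bool} (hf : f ≤ k)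
    (h : V ++ xk a k = P ++ pw [!a, a] f) : V ++ xk a (k - f) = P := by
  obtain ⟨d, rfl⟩ := Nat.exists_eq_add_of_le' hf
  rw [xk_add, ← List.append_assoc] at h
  simpa using List.append_cancel_right h

theorem mm0 {a : Bool} {k : ℕ} {Y V P Q : List Bool} {L : List ℕ} {δ : ℕ}
    (h : PH (xk a k) Y V) (hY : Y.head? = some (!a)) (hV : V.head? = some (!a))
    (e1 : Y ++ xk a k = P ++ (xk a k ++ Q)) (hQ : 1 ≤ Q.length)
    (e2 : V ++ xk a k = P ++ (tile (xk a k) [!a, a] L ++ pw (xk a k) δ)) : False := by
  obtain ⟨Y2, rfl, e3⟩ := split_len e1 (by simp)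
  obtain ⟨t, rfl⟩ : ∃ t, Y2 = a :: t := by
    cases Y2 with
    | nil =>
      have := congrArg List.length e3
      simp only [List.length_append, List.length_nil] at this; omega
    | cons c t => exact ⟨t, by rw [(List.cons.inj e3).1]⟩
  by_cases hl : (xk a k).length ≤ (tile (xk a k) [!a, a] L ++ pw (xk a k) δ).length
  · obtain ⟨V2, rfl, e4⟩ := split_len e2 hl
    have := head_of_tile e4
    obtain ⟨t', rfl⟩ : ∃ t, V2 = (!a) :: t := by
      cases V2 with
      | nil => simp at this
      | cons c t => exact ⟨t, by simpa using this⟩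
    rcases h.comparable with c | c | c | c | c | c
    · exact absurd c (not_pref_of_head (head_xk a k) hY (by simp))
    · exact absurd c (not_pref_of_head hY (head_xk a k) (by simp))
    · exact absurd c (not_pref_of_head (head_xk a k) hV (by simp))
    · exact absurd c (not_pref_of_head hV (head_xk a k) (by simp))
    · exact mismatch (by simp) c
    · exact mismatch (by simp) c
  · obtain ⟨_, rfl, f, rfl, hf⟩ := tile_short (c := 0) (not_le.1 hl)
    rw [tile_zero, pw_zero, List.append_nil] at e2
    have e5 := neg_form hf e2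
    subst e5
    have h' : PH (xk a k) V (xk a (k - (f + 1)) ++ a :: t) :=
      h.of fun M hM h1 h2 h3 => ⟨h1, by rw [List.append_assoc]; exact hM.app h2 h3, h2⟩
    have hx : xk a k = xk a (k - (f + 1)) ++ (!a) :: (a :: pw [!a, a] f) := by
      conv_lhs => rw [show k = k - (f + 1) + (f + 1) by omega, xk_add, pw_succ]
      rfl
    have hR : (xk a (k - (f + 1)) ++ a :: t).head? = some a := rfl
    rcases h'.comparable with c | c | c | c | c | c
    · exact absurd c (not_pref_of_head (head_xk a k) hV (by simp))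
    · exact absurd c (not_pref_of_head hV (head_xk a k) (by simp))
    · rw [hx] at c; exact mismatch (by simp) c
    · rw [hx] at c; exact mismatch (by simp) c
    · exact absurd c (not_pref_of_head hV hR (by simp))
    · exact absurd c (not_pref_of_head hR hV (by simp))

theorem two_le_tile (a : Bool) (k : ℕ) (L : List ℕ) : 2 ≤ (tile (xk a k) [!a, a] L).length := by
  obtain ⟨t, e⟩ := tile_head (xk a k) [!a, a] L
  simp [e]

theorem mm_gen {a : Bool} {k : ℕ} {Y V : List Bool} {β δ : ℕ}
    (h : PH (xk a k) Y V) (hY : Y.head? = some (!a)) (hV : V.head? = some (!a)) :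
    ∀ (S L : List ℕ) (P : List Bool),
      Y ++ xk a k = P ++ (tile (xk a k) [!a, a] S ++ pw (xk a k) β) →
      V ++ xk a k = P ++ (tile (xk a k) [!a, a] L ++ pw (xk a k) δ) →
      L = S ∨ (∃ s T, S = L ++ s :: T ∧ δ ≤ s + 1) ∨ ∃ g L', L = S ++ g :: L' ∧ β ≤ g + 1 := by
  intro S
  induction S with
  | nil =>
    intro L P e1 e2
    cases L with
    | nil => exact Or.inl rfl
    | cons g L =>
      refine Or.inr (Or.inr ⟨g, L, rfl, ?_⟩)
      by_contra hc
      obtain ⟨d, rfl⟩ : ∃ d, β = g + (d + 1 + 1) := ⟨β - g - 2, by omega⟩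
      refine mm0 (P := P ++ [!a, a] ++ pw (xk a k) g) (Q := pw (xk a k) (d + 1)) (L := L) (δ := δ)
        h hY hV ?_ (by simp only [pw_succ, List.length_append, length_xk]; omega) ?_
      · rw [e1, pw_add, pw_succ]; simp
      · rw [e2, tile_cons]; simp
  | cons s S ih =>
    intro L P e1 e2
    cases L with
    | nil =>
      refine Or.inr (Or.inl ⟨s, S, rfl, ?_⟩)
      by_contra hc
      obtain ⟨d, rfl⟩ : ∃ d, δ = s + (d + 1 + 1) := ⟨δ - s - 2, by omega⟩
      refine mm0 (P := P ++ [!a, a] ++ pw (xk a k) s) (Q := pw (xk a k) (d + 1)) (L := S) (δ := β)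
        h.swap23 hV hY ?_ (by simp only [pw_succ, List.length_append, length_xk]; omega) ?_
      · rw [e2, pw_add, pw_succ]; simp
      · rw [e1, tile_cons]; simp
    | cons g L =>
      rcases lt_trichotomy s g with c | rfl | c
      · exfalso
        obtain ⟨d, rfl⟩ := Nat.exists_eq_add_of_lt c
        refine mm0 (P := P ++ [!a, a] ++ pw (xk a k) s)
          (Q := pw (xk a k) d ++ (tile (xk a k) [!a, a] L ++ pw (xk a k) δ)) (L := S) (δ := β)
          h.swap23 hV hY ?_ ?_ ?_
        · rw [e2, tile_cons, Nat.add_assoc, pw_add, pw_succ]; simp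
        · have := two_le_tile a k L
          simp only [List.length_append]; omega
        · rw [e1, tile_cons]; simp
      · rcases ih L (P ++ [!a, a] ++ pw (xk a k) s) (by rw [e1, tile_cons]; simp)
          (by rw [e2, tile_cons]; simp) with rfl | ⟨s', T, rfl, h⟩ | ⟨g, L', rfl, h⟩
        · exact Or.inl rfl
        · exact Or.inr (Or.inl ⟨s', T, rfl, h⟩)
        · exact Or.inr (Or.inr ⟨g, L', rfl, h⟩)
      · exfalso
        obtain ⟨d, rfl⟩ := Nat.exists_eq_add_of_lt c
        refine mm0 (P := P ++ [!a, a] ++ pw (xk a k) g)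
          (Q := pw (xk a k) d ++ (tile (xk a k) [!a, a] S ++ pw (xk a k) β)) (L := L) (δ := δ)
          h hY hV ?_ ?_ ?_
        · rw [e1, tile_cons, Nat.add_assoc, pw_add, pw_succ]; simp
        · have := two_le_tile a k S
          simp only [List.length_append]; omega
        · rw [e2, tile_cons]; simp

theorem lp_ones (e β δ : ℕ) (hβ : β ≤ 1) (hδ : δ ≤ 1) :
    ∀ m, LP 1 (List.replicate e 0) β δ (List.replicate m 0) := by
  intro m
  induction m using Nat.strong_induction_on with
  | _ m ih =>
    rcases lt_trichotomy m e with c | rfl | c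
    · obtain ⟨d, rfl⟩ := Nat.exists_eq_add_of_lt c
      exact LP.short _ 0 (List.replicate d 0)
        (by rw [Nat.add_assoc, List.replicate_add, List.replicate_succ]) (by omega)
    · exact LP.eq
    · obtain ⟨d, rfl⟩ := Nat.exists_eq_add_of_lt c
      rw [Nat.add_assoc, List.replicate_add, List.replicate_succ]
      exact LP.step 0 _ (by omega) (ih d (by omega))

theorem zeros_cases : ∀ (e : ℕ) (L : List ℕ),
    (∃ g L', L = List.replicate e 0 ++ g :: L') ∨ (∃ f, f ≤ e ∧ L = List.replicate f 0) ∨
      ∃ f g L', f < e ∧ L = List.replicate f 0 ++ (g + 1) :: L' := by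
  intro e
  induction e with
  | zero =>
    intro L
    cases L with
    | nil => exact Or.inr (Or.inl ⟨0, le_rfl, rfl⟩)
    | cons g L => exact Or.inl ⟨g, L, rfl⟩
  | succ e ih =>
    intro L
    cases L with
    | nil => exact Or.inr (Or.inl ⟨0, by omega, rfl⟩)
    | cons g L =>
      cases g with
      | succ g => exact Or.inr (Or.inr ⟨0, g, L, by omega, rfl⟩)
      | zero =>
        rcases ih L with ⟨g, L', rfl⟩ | ⟨f, h, rfl⟩ | ⟨f, g, L', h, rfl⟩
        · exact Or.inl ⟨g, L', by simp [List.replicate_succ]⟩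
        · exact Or.inr (Or.inl ⟨f + 1, by omega, by simp [List.replicate_succ]⟩)
        · exact Or.inr (Or.inr ⟨f + 1, g, L', by omega, by simp [List.replicate_succ]⟩)

theorem alt_pref {u w t : List Bool} {c : Bool} (hu : Alt u) (hw : w.getLast? = some c)
    (h : u <+: w ++ c :: t) : u <+: w := by
  by_contra hn
  have h1 : w ++ [c] <+: u := by
    refine List.prefix_of_prefix_length_le (l₃ := w ++ c :: t) ⟨t, by simp⟩ h ?_
    by_contra hl
    exact hn (List.prefix_of_prefix_length_le h (List.prefix_append _ _) (by simp at hl; omega))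
  exact (List.isChain_append.1 (chain_of_pref h1 hu)).2.2 c hw c rfl rfl

theorem not_alt {w t : List Bool} {c : Bool} (hw : w.getLast? = some c) : ¬ Alt (w ++ c :: t) :=
  fun h => (List.isChain_append.1 h).2.2 c hw c rfl rfl

theorem sn_bad {a : Bool} {r s f : ℕ} {t : List Bool}
    (h : PH (xk a r) (xk (!a) s) (pw [!a, a] (f + 1) ++ a :: t)) : r + s ≤ f := by
  have hl : (pw [!a, a] (f + 1)).getLast? = some a := by rw [pw_succ']; simp
  have hh : (pw [!a, a] (f + 1) ++ a :: t).head? = some (!a) := by simp [pw_succ]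
  have n1 := not_pref_of_head (head_xk a r) (head_xk (!a) s) (by simp)
  have n2 := not_pref_of_head (head_xk (!a) s) (head_xk a r) (by simp)
  have c1 : xk (!a) s <+: pw [!a, a] (f + 1) := by
    rcases h.comparable with c | c | c | c | c | c
    · exact absurd c n1
    · exact absurd c n2
    · exact absurd c (not_pref_of_head (head_xk a r) hh (by simp))
    · exact absurd c (not_pref_of_head hh (head_xk a r) (by simp))
    · exact alt_pref (alt_xk _ _) hl c
    · exact absurd (chain_of_pref c (alt_xk _ _)) (not_alt hl)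
  obtain ⟨V, e⟩ := c1
  have len := congrArg List.length e
  simp at len
  have hV0 : V ≠ [] := by rintro rfl; simp at len; omega
  have hVl : V.getLast? = some a := by
    rw [← e, List.getLast?_append_of_ne_nil _ hV0] at hl; exact hl
  have hVh : (V ++ a :: t).head? = some a := by
    obtain ⟨c, V, rfl⟩ := List.exists_cons_of_ne_nil hV0
    have h1 : Alt (xk (!a) s ++ c :: V) := by
      rw [e]; simpa using alt_pw (!a) (f + 1)
    have := (List.isChain_append.1 h1).2.2 (!a) (last_xk _ _) c rfl
    cases a <;> cases c <;> simp_all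
  have h' : PH (xk a r) (xk (!a) s) (V ++ a :: t) :=
    h.of fun M hM h1 h2 h3 => ⟨h1, h2, by rw [← e, List.append_assoc]; exact hM.app h2 h3⟩
  rcases h'.comparable with c | c | c | c | c | c
  · exact absurd c n1
  · exact absurd c n2
  · have := (alt_pref (alt_xk _ _) hVl c).length_le
    simp at this; omega
  · exact absurd (chain_of_pref c (alt_xk _ _)) (not_alt hVl)
  · exact absurd c (not_pref_of_head (head_xk _ _) hVh (by simp))
  · exact absurd c (not_pref_of_head hVh (head_xk _ _) (by simp))

theorem pq_ab (a : Bool) (r s : ℕ) : xk a r ++ xk (!a) s = pw [a, !a] (r + s + 1) := by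
  rw [xk_eq a, xk, Nat.add_assoc, pw_add, pw_succ]; simp

theorem qp_ba (a : Bool) (r s : ℕ) : xk (!a) s ++ xk a r = pw [!a, a] (r + s + 1) := by
  have := pq_ab (!a) s r
  rw [Bool.not_not, Nat.add_comm s r] at this
  exact this

theorem xk_mem {M : Set (List Bool)} (hM : RU M) {a : Bool} {e k : ℕ}
    (hp : xk a (k % (e + 1)) ∈ M) (hq : xk (!a) (e - k % (e + 1)) ∈ M) :
    pw [a, !a] (e + 1) ∈ M ∧ pw [!a, a] (e + 1) ∈ M ∧
      ∀ m, m % (e + 1) = k % (e + 1) → xk a m ∈ M := by
  have hr : k % (e + 1) < e + 1 := Nat.mod_lt _ (by omega)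
  have e1 : k % (e + 1) + (e - k % (e + 1)) = e := by omega
  have h1 : pw [a, !a] (e + 1) ∈ M := by
    have := hM.app hp hq
    rwa [pq_ab, e1] at this
  have h2 : pw [!a, a] (e + 1) ∈ M := by
    have := hM.app hq hp
    rwa [qp_ba, e1] at this
  refine ⟨h1, h2, fun m hm => ?_⟩
  rw [← Nat.div_add_mod m (e + 1), xk_add', pw_mul, hm]
  exact hM.app (hM.pw h1 _) hp

theorem sn {a : Bool} {k e δ : ℕ} : ∀ n : ℕ, ∀ (L : List ℕ) (c : ℕ) (V : List Bool),
    L.length ≤ n → PH (xk a (k % (e + 1))) (xk (!a) (e - k % (e + 1))) V →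
    V ++ xk a k = pw (xk a k) c ++ (tile (xk a k) [!a, a] L ++ pw (xk a k) δ) →
    LP 1 (List.replicate e 0) 0 δ L := by
  have hr : k % (e + 1) < e + 1 := Nat.mod_lt _ (by omega)
  have bad : ∀ (c f : ℕ) (V Q : List Bool), f < e →
      PH (xk a (k % (e + 1))) (xk (!a) (e - k % (e + 1))) V →
      V ++ xk a k = pw (xk a k) c ++ (pw [!a, a] (f + 1) ++ (xk a k ++ Q)) → Q ≠ [] → False := by
    intro c f V Q hf h eq hQ
    have lQ := List.length_pos_iff.2 hQ
    obtain ⟨V', rfl, _⟩ := split_len (P := pw (xk a k) c ++ (pw [!a, a] (f + 1) ++ [a]))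
      (Q := pw [!a, a] k ++ Q) (by rw [eq]; simp [xk]) (by simp; omega)
    have h' : PH (xk a (k % (e + 1))) (xk (!a) (e - k % (e + 1)))
        (pw [!a, a] (f + 1) ++ a :: V') := h.of fun M hM h1 h2 h3 => ⟨h1, h2, by
      have := hM.app (hM.pw ((xk_mem hM h1 h2).2.2 k rfl) c) h3
      simpa using this⟩
    have := sn_bad h'
    omega
  intro n
  induction n using Nat.strong_induction_on with
  | _ n ih =>
    intro L c V hl h eq
    rcases zeros_cases e L with ⟨g, L', rfl⟩ | ⟨f, hf, rfl⟩ | ⟨f, g, L', hf, rfl⟩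
    · refine LP.step g L' (by omega) ?_
      rw [tile_append, tile_zero] at eq
      by_cases hlen : (xk a k).length ≤
          (pw (xk a k) g ++ (tile (xk a k) [!a, a] L' ++ pw (xk a k) δ)).length
      · obtain ⟨V', rfl, e2⟩ := split_len (P := pw (xk a k) c ++ pw [!a, a] (e + 1))
          (by rw [eq]; simp) hlen
        refine ih L'.length (by simp at hl; omega) L' g V' le_rfl ?_ e2
        exact h.of fun M hM h1 h2 h3 => ⟨h1, h2,
          hM.app (hM.app (hM.pw ((xk_mem hM h1 h2).2.2 k rfl) c) (xk_mem hM h1 h2).2.1) h3⟩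
      · obtain ⟨_, rfl, f, rfl, _⟩ := tile_short (not_le.1 hlen)
        exact lp_ones e 0 0 (by omega) (by omega) f
    · by_cases hd : δ ≤ 1
      · exact lp_ones e 0 δ (by omega) hd f
      rcases Nat.eq_or_lt_of_le hf with rfl | hf
      · exact LP.eq
      · exfalso
        obtain ⟨d, rfl⟩ : ∃ d, δ = d + 1 + 1 := ⟨δ - 2, by omega⟩
        rw [tile_zero, pw_succ (xk a k)] at eq
        exact bad c f V _ hf h eq (by simp [pw_succ, xk])
    · exfalso
      rw [tile_append, tile_zero, pw_succ (xk a k)] at eq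
      refine bad c f V (pw (xk a k) g ++ (tile (xk a k) [!a, a] L' ++ pw (xk a k) δ)) hf h
        (by rw [eq]; simp) ?_
      intro h0
      have h1 := congrArg List.length h0
      have := two_le_tile a k L'
      simp only [List.length_append, List.length_nil] at h1
      omega

theorem LP.first {f d : ℕ} {L : List ℕ} (h : LP 1 (List.replicate f 0) 0 d L) :
    (∃ t, L = List.replicate f 0 ++ t) ∨ ∃ m, L = List.replicate m 0 ∧ d ≤ 1 := by
  generalize hS : List.replicate f 0 = S at h
  cases h with
  | eq => exact Or.inl ⟨[], by simp⟩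
  | short L s T e h =>
    have h1 : ∀ v ∈ L ++ s :: T, v = 0 := by
      intro v hv
      rw [← e, ← hS] at hv
      exact List.eq_of_mem_replicate hv
    refine Or.inr ⟨L.length, List.eq_replicate_of_mem fun v hv => h1 v (by simp [hv]), ?_⟩
    have := h1 s (by simp)
    omega
  | step g L _ _ => exact Or.inl ⟨_, rfl⟩

theorem lp_of_pref {S t : List ℕ} {β f : ℕ} (e : S = List.replicate f 0 ++ t) :
    LP 1 S β 0 (List.replicate f 0) := by
  cases t with
  | nil => rw [e, List.append_nil]; exact LP.eq
  | cons s T => exact LP.short _ s T e (by omega)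

theorem neg_form' {a : Bool} {k f c : ℕ} {V : List Bool} (hf : f + 1 ≤ k)
    (h : V ++ xk a k = pw (xk a k) c ++ pw [!a, a] (f + 1)) :
    ∃ c', V = pw (xk a k) c' ++ pw [a, !a] (f + 1) := by
  cases c with
  | zero =>
    have := congrArg List.length h
    simp at this; omega
  | succ c =>
    rw [pw_succ', List.append_assoc, ← xk_conj, ← List.append_assoc] at h
    exact ⟨c, List.append_cancel_right h⟩

theorem lp_pos {a : Bool} {k β δ : ℕ} {S : List ℕ} {Y : List Bool}
    (hY : Y ++ xk a k = tile (xk a k) [!a, a] S ++ pw (xk a k) β) :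
    ∀ n : ℕ, ∀ (L : List ℕ) (c : ℕ) (V : List Bool), L.length ≤ n → PH (xk a k) Y V →
      V ++ xk a k = pw (xk a k) c ++ (tile (xk a k) [!a, a] L ++ pw (xk a k) δ) →
      LP 1 S β δ L := by
  intro n
  induction n using Nat.strong_induction_on with
  | _ n ih =>
    intro L c V hl h eq
    by_cases hlen : (xk a k).length ≤ (tile (xk a k) [!a, a] L ++ pw (xk a k) δ).length
    swap
    · obtain ⟨_, rfl, f, rfl, hf⟩ := tile_short (c := 0) (not_le.1 hlen)
      rw [tile_zero, pw_zero, List.append_nil] at eq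
      obtain ⟨c', rfl⟩ := neg_form' hf eq
      have h' : PH (xk a (k % (f + 1))) (xk (!a) (f - k % (f + 1))) Y :=
        h.of fun M hM h1 h2 h3 => ⟨(xk_mem hM h1 h2).2.2 k rfl, h3,
          hM.app (hM.pw ((xk_mem hM h1 h2).2.2 k rfl) c') (xk_mem hM h1 h2).1⟩
      rcases (sn _ S 0 Y le_rfl h' hY).first with ⟨t, e⟩ | ⟨m, rfl, hb⟩
      · exact lp_of_pref e
      · exact lp_ones m β 0 hb (by omega) f
    obtain ⟨V0, rfl, e2⟩ := split_len eq hlen
    have h0 : PH (xk a k) Y V0 := h.of fun M hM h1 h2 h3 => ⟨h1, h2, hM.app (hM.pw h1 c) h3⟩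
    rcases mm_gen h0 (head_of_tile hY) (head_of_tile e2) S L [] hY e2 with
      rfl | ⟨s, T, e, h1⟩ | ⟨g, L', rfl, h1⟩
    · exact LP.eq
    · exact LP.short L s T e h1
    refine LP.step g L' h1 ?_
    obtain ⟨c', hc'⟩ := Nat.exists_eq_add_of_le h1
    have e3 : Y ++ pw (xk a k) c' = tile (xk a k) [!a, a] S ++ pw (xk a k) g := by
      refine List.append_cancel_right (bs := xk a k) ?_
      rw [List.append_assoc, ← pw_comm, ← List.append_assoc, hY, List.append_assoc, ← pw_add,
        ← hc', pw_succ', List.append_assoc]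
    have e4 : V0 ++ xk a k =
        Y ++ (pw (xk a k) c' ++ (tile (xk a k) [!a, a] L' ++ pw (xk a k) δ)) := by
      rw [e2, tile_append, ← List.append_assoc Y, e3]; simp
    by_cases hlen2 : (xk a k).length ≤
        (pw (xk a k) c' ++ (tile (xk a k) [!a, a] L' ++ pw (xk a k) δ)).length
    · obtain ⟨V', rfl, e5⟩ := split_len e4 hlen2
      refine ih L'.length (by simp at hl; omega) L' c' V' le_rfl ?_ e5
      exact h0.of fun M hM h1 h2 h3 => ⟨h1, h2, hM.app h2 h3⟩
    · obtain ⟨rfl, rfl, f, rfl, hf⟩ := tile_short (not_le.1 hlen2)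
      rw [tile_zero, pw_zero, List.append_nil, List.nil_append] at e4
      have e5 := neg_form hf e4
      have h' : PH (xk a (k % (f + 1))) (xk (!a) (f - k % (f + 1))) V0 :=
        h0.of fun M hM h1 h2 h3 => ⟨(xk_mem hM h1 h2).2.2 k rfl, by
          rw [← e5]
          refine hM.app h3 ((xk_mem hM h1 h2).2.2 _ ?_)
          exact (Nat.mod_eq_sub_mod hf).symm, h3⟩
      rcases (sn _ _ 0 V0 le_rfl h' e2).first with ⟨t, e⟩ | ⟨m, e, _⟩
      · rcases List.append_eq_append_iff.1 e with ⟨u, e6, e7⟩ | ⟨u, e6, _⟩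
        · cases u with
          | nil => exact lp_of_pref (t := []) (by simpa using e6.symm)
          | cons g' u =>
            have hg : g = g' := (List.cons.inj e7).1
            have h1 : ∀ v ∈ S ++ g' :: u, v = 0 := by
              intro v hv
              rw [← e6] at hv
              exact List.eq_of_mem_replicate hv
            have h2 := h1 g' (by simp)
            rw [List.eq_replicate_of_mem (l := S) (a := 0) fun v hv => h1 v (by simp [hv])]
            exact lp_ones _ β 0 (by omega) (by omega) f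
        · exact lp_of_pref e6
      · have h1 : ∀ v ∈ S ++ g :: List.replicate f 0, v = 0 := by
          intro v hv
          rw [e] at hv
          exact List.eq_of_mem_replicate hv
        have h2 := h1 g (by simp)
        rw [List.eq_replicate_of_mem (l := S) (a := 0) fun v hv => h1 v (by simp [hv])]
        exact lp_ones _ β 0 (by omega) (by omega) f

theorem lp_main {a : Bool} {k α β γ δ : ℕ} {S L : List ℕ} {Y Z : List Bool}
    (hY : Y ++ xk a k = pw (xk a k) α ++ (tile (xk a k) [!a, a] S ++ pw (xk a k) β))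
    (hZ : Z ++ xk a k = pw (xk a k) γ ++ (tile (xk a k) [!a, a] L ++ pw (xk a k) δ))
    (h : PH (xk a k) Y Z) : LP 1 S β δ L := by
  by_cases hlen : (xk a k).length ≤ (tile (xk a k) [!a, a] S ++ pw (xk a k) β).length
  · obtain ⟨Y0, rfl, e2⟩ := split_len hY hlen
    exact lp_pos e2 _ L γ Z le_rfl
      (h.of fun M hM h1 h2 h3 => ⟨h1, hM.app (hM.pw h1 α) h2, h3⟩) hZ
  · obtain ⟨_, rfl, f, rfl, hf⟩ := tile_short (c := 0) (not_le.1 hlen)
    rw [tile_zero, pw_zero, List.append_nil] at hY
    obtain ⟨c', rfl⟩ := neg_form' hf hY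
    refine sn _ L γ Z le_rfl ?_ hZ
    exact h.of fun M hM h1 h2 h3 => ⟨(xk_mem hM h1 h2).2.2 k rfl,
      hM.app (hM.pw ((xk_mem hM h1 h2).2.2 k rfl) c') (xk_mem hM h1 h2).1, h3⟩

end Pool.Agent.Lib.MP_5364dc_lc
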