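import Pool.Agent.Lib.MP_5364dc_lc.Hull

/-! Powers, alternating words, elementary facts on hulls over two letters. -/

namespace Pool.Agent.Lib.MP_5364dc_lc

variable {A : Type}

def pw (w : List A) : ℕ → List A
  | 0 => []
  | n + 1 => w ++ pw w n

@[simp] theorem pw_zero (w : List A) : pw w 0 = [] := rfl
theorem pw_succ (w : List A) (n : ℕ) : pw w (n + 1) = w ++ pw w n := rfl
@[simp] theorem pw_one (w : List A) : pw w 1 = w := by simp [pw]

theorem pw_add (w : List A) (m n : ℕ) : pw w (m + n) = pw w m ++ pw w n := by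
  induction m with
  | zero => simp
  | succ m ih => rw [Nat.succ_add, pw_succ, pw_succ, ih, List.append_assoc]

theorem pw_succ' (w : List A) (n : ℕ) : pw w (n + 1) = pw w n ++ w := by
  rw [pw_add, pw_one]

theorem pw_mul (w : List A) (m n : ℕ) : pw w (m * n) = pw (pw w m) n := by
  induction n with
  | zero => simp
  | succ n ih => rw [Nat.mul_succ, Nat.add_comm, pw_add, ih, pw_succ]

@[simp] theorem length_pw (w : List A) (n : ℕ) : (pw w n).length = n * w.length := by
  induction n with
  | zero => simp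
  | succ n ih => simp [pw_succ, ih, Nat.succ_mul, Nat.add_comm]

theorem reverse_pw (w : List A) (n : ℕ) : (pw w n).reverse = pw w.reverse n := by
  induction n with
  | zero => simp
  | succ n ih => rw [pw_succ, List.reverse_append, ih, pw_succ']

theorem pw_conj (u v : List A) (n : ℕ) : pw (u ++ v) n ++ u = u ++ pw (v ++ u) n := by
  induction n with
  | zero => simp
  | succ n ih => rw [pw_succ, pw_succ, List.append_assoc, ih]; simp

theorem pw_comm_of {u v w : List A} (h : u ++ w = w ++ v) (n : ℕ) :
    pw u n ++ w = w ++ pw v n := by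
  induction n with
  | zero => simp
  | succ n ih => rw [pw_succ, pw_succ, List.append_assoc, ih, ← List.append_assoc, h]; simp

theorem Star.pw {X : Set (List A)} {w : List A} (h : Star X w) (n : ℕ) : Star X (pw w n) := by
  induction n with
  | zero => exact Star.nil _
  | succ n ih => exact h.append ih

theorem RU.pw {M : Set (List A)} (hM : RU M) {w : List A} (h : w ∈ M) (n : ℕ) : pw w n ∈ M := by
  induction n with
  | zero => exact hM.nil
  | succ n ih => exact hM.app h ih

theorem comm_root : ∀ n : ℕ, ∀ u v : List A, u.length + v.length ≤ n → u ++ v = v ++ u →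
    ∃ r i j, u = pw r i ∧ v = pw r j := by
  intro n
  induction n with
  | zero =>
    intro u v h _
    have h1 : u = [] := List.length_eq_zero_iff.1 (by omega)
    exact ⟨v, 0, 1, by simp [h1], by simp⟩
  | succ n ih =>
    intro u v h e
    by_cases hu : u = []
    · exact ⟨v, 0, 1, by simp [hu], by simp⟩
    by_cases hv : v = []
    · exact ⟨u, 1, 0, by simp, by simp [hv]⟩
    have h1 := List.length_pos_iff.2 hu
    have h2 := List.length_pos_iff.2 hv
    rcases List.prefix_or_prefix_of_prefix (List.prefix_append u v) ⟨u, e.symm⟩ with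
      ⟨t, rfl⟩ | ⟨t, rfl⟩
    · rw [List.append_assoc] at e
      obtain ⟨r, i, j, e1, e2⟩ := ih u t (by simp at h; omega) (List.append_cancel_left e)
      exact ⟨r, i, i + j, e1, by rw [pw_add, ← e1, ← e2]⟩
    · rw [List.append_assoc] at e
      obtain ⟨r, i, j, e1, e2⟩ := ih v t (by simp at h; omega) (List.append_cancel_left e).symm
      exact ⟨r, i + j, i, by rw [pw_add, ← e1, ← e2], e1⟩

theorem per_pw {v w : List A} (h : w <+: v ++ w) (n : ℕ) : w <+: pw v n ++ w := by
  induction n with
  | zero => simp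
  | succ n ih =>
    rw [pw_succ, List.append_assoc]
    exact h.trans ((List.prefix_append_right_inj v).2 ih)

theorem chain_pw {R : A → A → Prop} {v : List A} (h : (v ++ v).IsChain R) (n : ℕ) :
    (pw v n).IsChain R := by
  obtain ⟨h1, _, h2⟩ := List.isChain_append.1 h
  induction n with
  | zero => simp
  | succ n ih =>
    rw [pw_succ]
    refine h1.append ih ?_
    intro a ha b hb
    cases n with
    | zero => simp at hb
    | succ n =>
      cases v with
      | nil => simp at ha
      | cons c v => exact h2 a ha b (by simpa [pw_succ] using hb)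

theorem chain_of_pref {R : A → A → Prop} {v w : List A} (h : w <+: v) (hv : v.IsChain R) :
    w.IsChain R := by
  obtain ⟨t, rfl⟩ := h
  exact hv.left_of_append

theorem chain_per {R : A → A → Prop} {v w : List A} (h : w <+: v ++ w) (h0 : v ≠ [])
    (hv : (v ++ v).IsChain R) : w.IsChain R := by
  refine chain_of_pref ?_ (chain_pw hv w.length)
  refine List.prefix_of_prefix_length_le (per_pw h w.length) (List.prefix_append _ _) ?_
  have := List.length_pos_iff.2 h0
  rw [length_pw]
  exact Nat.le_mul_of_pos_right _ this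

/-- the word a (b a)^k -/
def xk (a : Bool) (k : ℕ) : List Bool := a :: pw [!a, a] k

theorem xk_eq (a : Bool) (k : ℕ) : xk a k = pw [a, !a] k ++ [a] := by
  have := pw_conj [a] [!a] k
  simpa [xk] using this.symm

@[simp] theorem length_xk (a : Bool) (k : ℕ) : (xk a k).length = 2 * k + 1 := by
  simp [xk]; omega

@[simp] theorem reverse_xk (a : Bool) (k : ℕ) : (xk a k).reverse = xk a k := by
  conv_lhs => rw [xk_eq, List.reverse_append, reverse_pw]
  simp [xk]

@[simp] theorem head_xk (a : Bool) (k : ℕ) : (xk a k).head? = some a := rfl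

@[simp] theorem last_xk (a : Bool) (k : ℕ) : (xk a k).getLast? = some a := by
  rw [xk_eq]; simp

theorem xk_ne (a : Bool) (k : ℕ) : xk a k ≠ [] := by simp [xk]

theorem xk_add (a : Bool) (k h : ℕ) : xk a (k + h) = xk a k ++ pw [!a, a] h := by
  simp [xk, pw_add]

theorem xk_add' (a : Bool) (k h : ℕ) : xk a (h + k) = pw [a, !a] h ++ xk a k := by
  simp [xk_eq, pw_add]

theorem xk_conj (a : Bool) (k h : ℕ) : pw [a, !a] h ++ xk a k = xk a k ++ pw [!a, a] h := by
  rw [← xk_add, ← xk_add', Nat.add_comm]

def Alt (w : List Bool) : Prop := w.IsChain (· ≠ ·)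
def NoCC (c : Bool) (w : List Bool) : Prop := w.IsChain (fun a b => ¬ (a = c ∧ b = c))

theorem Alt.noCC {w : List Bool} (h : Alt w) (c : Bool) : NoCC c w :=
  List.IsChain.imp (fun _ _ h1 h2 => h1 (h2.1.trans h2.2.symm)) h

theorem alt_of_noCC {w : List Bool} (c : Bool) (h1 : NoCC c w) (h2 : NoCC (!c) w) : Alt w := by
  unfold Alt NoCC at *
  induction w with
  | nil => simp
  | cons a w ih =>
    cases w with
    | nil => simp
    | cons b w =>
      rw [List.isChain_cons_cons] at h1 h2 ⊢
      refine ⟨?_, ih h1.2 h2.2⟩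
      have := h1.1
      have := h2.1
      cases a <;> cases b <;> cases c <;> simp_all

theorem NoCC.rev {c : Bool} {w : List Bool} (h : NoCC c w) : NoCC c w.reverse := by
  unfold NoCC at *
  rw [List.isChain_reverse]
  exact List.IsChain.imp (fun _ _ h1 h2 => h1 ⟨h2.2, h2.1⟩) h

theorem Alt.rev {w : List Bool} (h : Alt w) : Alt w.reverse := by
  unfold Alt at *
  rw [List.isChain_reverse]
  exact List.IsChain.imp (fun _ _ h1 => h1.symm) h

theorem alt_pw (a : Bool) (n : ℕ) : Alt (pw [a, !a] n) :=
  chain_pw (by cases a <;> simp) n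

theorem alt_xk (a : Bool) (k : ℕ) : Alt (xk a k) := by
  have := alt_pw a (k + 1)
  rw [pw_succ'] at this
  rw [xk_eq]
  exact chain_of_pref ⟨[!a], by simp⟩ this

theorem Alt.append {u v : List Bool} (hu : Alt u) (hv : Alt v) {a : Bool}
    (h1 : u.getLast? = some a) (h2 : v.head? = some (!a)) : Alt (u ++ v) := by
  refine List.IsChain.append hu hv ?_
  intro x hx y hy
  rw [h1] at hx
  rw [h2] at hy
  cases hx; cases hy
  cases a <;> simp

theorem NoCC.appendR {c : Bool} {u v : List Bool} (hu : NoCC c u) (hv : NoCC c v)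
    (h2 : v.head? ≠ some c) : NoCC c (u ++ v) := by
  refine List.IsChain.append hu hv ?_
  rintro x _ y hy ⟨_, rfl⟩
  exact h2 hy

theorem NoCC.appendL {c : Bool} {u v : List Bool} (hu : NoCC c u) (hv : NoCC c v)
    (h2 : u.getLast? ≠ some c) : NoCC c (u ++ v) := by
  refine List.IsChain.append hu hv ?_
  rintro x hx y _ ⟨rfl, _⟩
  exact h2 hx

theorem alt_cases : ∀ (w : List Bool) (a : Bool), Alt w → w.head? = some a →
    ∃ m, w = xk a m ∨ w = pw [a, !a] (m + 1) := by
  intro w
  induction w with
  | nil => intro a _ h; simp at h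
  | cons c w ih =>
    intro a h e
    have : c = a := by simpa using e
    subst this
    cases w with
    | nil => exact ⟨0, Or.inl rfl⟩
    | cons d w =>
      have h' := List.isChain_cons_cons.1 h
      have hd : d = !c := by have := h'.1; cases c <;> cases d <;> simp_all
      obtain ⟨m, h1 | h1⟩ := ih d h'.2 rfl
      · refine ⟨m, Or.inr ?_⟩
        rw [h1, hd, pw_succ]
        simp [xk]
      · refine ⟨m + 1, Or.inl ?_⟩
        rw [h1, hd]
        simp [xk]

theorem not_pref_of_head {u v : List A} {a b : A} (hu : u.head? = some a) (hv : v.head? = some b)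
    (h : a ≠ b) : ¬ u <+: v := by
  rintro ⟨t, rfl⟩
  cases u with
  | nil => simp at hu
  | cons c u =>
    simp at hu hv
    exact h (hu.symm.trans hv)

theorem head_append_of {u v : List A} {a : A} (hu : u.head? = some a) :
    (u ++ v).head? = some a := by
  cases u with
  | nil => simp at hu
  | cons c u => simpa using hu

theorem last_append_of {u v : List A} {a : A} (hv : v.getLast? = some a) :
    (u ++ v).getLast? = some a := by
  rw [List.getLast?_append, hv]; simp

theorem PH.of {x y z x' y' z' : List Bool} (h : PH x y z)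
    (k : ∀ M, RU M → x' ∈ M → y' ∈ M → z' ∈ M → x ∈ M ∧ y ∈ M ∧ z ∈ M) : PH x' y' z' := by
  intro M hM h1 h2 h3
  obtain ⟨a, b, c⟩ := k M hM h1 h2 h3
  exact h M hM a b c

theorem PH.swap12 {x y z : List Bool} (h : PH x y z) : PH y x z :=
  h.of fun _ _ a b c => ⟨b, a, c⟩

theorem PH.swap23 {x y z : List Bool} (h : PH x y z) : PH x z y :=
  h.of fun _ _ a b c => ⟨a, c, b⟩

theorem PH.last {x y z : List Bool} (h : PH x y z) (c : Bool) :
    x.getLast? = some c ∨ y.getLast? = some c ∨ z.getLast? = some c := by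
  by_contra hn
  push Not at hn
  have := h _ (ru_last c) hn.1 hn.2.1 hn.2.2 c
  simp at this

theorem PH.first {x y z : List Bool} (h : PH x.reverse y.reverse z.reverse) (c : Bool) :
    x.head? = some c ∨ y.head? = some c ∨ z.head? = some c := by
  simpa using h.last c

theorem PH.comparable {x y z : List Bool} (h : PH x y z) :
    x <+: y ∨ y <+: x ∨ x <+: z ∨ z <+: x ∨ y <+: z ∨ z <+: y := by
  by_contra hn
  push Not at hn
  obtain ⟨h1, h2, h3, h4, h5, h6⟩ := hn
  have hx : x ≠ [] := by rintro rfl; exact h1 List.nil_prefix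
  have hy : y ≠ [] := by rintro rfl; exact h2 List.nil_prefix
  have hz : z ≠ [] := by rintro rfl; exact h4 List.nil_prefix
  have h0 : [] ∉ ({x, y, z} : Set (List Bool)) := by
    simp [hx.symm, hy.symm, hz.symm]
  have hp : ∀ u ∈ ({x, y, z} : Set (List Bool)), ∀ v ∈ ({x, y, z} : Set (List Bool)),
      u <+: v → u = v := by
    rintro u (rfl | rfl | rfl) v (rfl | rfl | rfl) e <;> first | rfl | contradiction
  have k := h _ (ru_star h0 hp) (Star.of_mem (by simp)) (Star.of_mem (by simp))
    (Star.of_mem (by simp))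
  have k2 : ∀ v ∈ ({x, y, z} : Set (List Bool)), ∃ c, v = [c] := by
    intro v hv
    cases v with
    | nil => exact absurd hv h0
    | cons c v => exact ⟨c, (hp _ (Star.letter h0 (k c)) _ hv ⟨v, rfl⟩).symm⟩
  obtain ⟨a, rfl⟩ := k2 x (by simp)
  obtain ⟨b, rfl⟩ := k2 y (by simp)
  obtain ⟨c, rfl⟩ := k2 z (by simp)
  cases a <;> cases b <;> cases c <;> simp at h1 h3 h5

theorem PH.two {x y : List Bool} (h : PH x y y) (h1 : ¬ x <+: y) (h2 : ¬ y <+: x) :
    x.length = 1 ∧ y.length = 1 := by
  have hx : x ≠ [] := by rintro rfl; exact h1 List.nil_prefix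
  have hy : y ≠ [] := by rintro rfl; exact h2 List.nil_prefix
  have h0 : [] ∉ ({x, y} : Set (List Bool)) := by
    simp [hx.symm, hy.symm]
  have hp : ∀ u ∈ ({x, y} : Set (List Bool)), ∀ v ∈ ({x, y} : Set (List Bool)),
      u <+: v → u = v := by
    rintro u (rfl | rfl) v (rfl | rfl) e <;> first | rfl | contradiction
  have k := h _ (ru_star h0 hp) (Star.of_mem (by simp)) (Star.of_mem (by simp))
    (Star.of_mem (by simp))
  have k2 : ∀ v ∈ ({x, y} : Set (List Bool)), ∃ c, v = [c] := by
    intro v hv
    cases v with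
    | nil => exact absurd hv h0
    | cons c v => exact ⟨c, (hp _ (Star.letter h0 (k c)) _ hv ⟨v, rfl⟩).symm⟩
  obtain ⟨a, rfl⟩ := k2 x (by simp)
  obtain ⟨b, rfl⟩ := k2 y (by simp)
  simp

theorem PH.two' {x y : List Bool} (h : PH x y y) {a : Bool} (h1 : x.head? = some a)
    (h2 : y.head? = some (!a)) : x.length = 1 ∧ y.length = 1 :=
  h.two (not_pref_of_head h1 h2 (by simp)) (not_pref_of_head h2 h1 (by simp))

theorem PH.parse {x y : List Bool} (h1 : ¬ x <+: y) (h2 : ¬ y <+: x) :
    ∀ n : ℕ, ∀ z : List Bool, z.length ≤ n → PH x y z →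
      ∃ s g, Star {x, y} s ∧ z = s ++ g ∧ (g <+: x ∨ g <+: y) := by
  have hx : x ≠ [] := by rintro rfl; exact h1 List.nil_prefix
  have hy : y ≠ [] := by rintro rfl; exact h2 List.nil_prefix
  have lx := List.length_pos_iff.2 hx
  have ly := List.length_pos_iff.2 hy
  intro n
  induction n with
  | zero =>
    intro z hz _
    have : z = [] := List.length_eq_zero_iff.1 (by omega)
    exact ⟨[], [], Star.nil _, by simp [this], Or.inl List.nil_prefix⟩
  | succ n ih =>
    intro z hz h
    rcases h.comparable with e | e | ⟨t, rfl⟩ | e | ⟨t, rfl⟩ | e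
    · exact absurd e h1
    · exact absurd e h2
    · obtain ⟨s, g, a1, rfl, a3⟩ := ih t (by simp at hz; omega)
        (h.of fun M hM a b c => ⟨a, b, hM.app a c⟩)
      exact ⟨x ++ s, g, (Star.of_mem (by simp)).append a1, by simp, a3⟩
    · exact ⟨[], z, Star.nil _, rfl, Or.inl e⟩
    · obtain ⟨s, g, a1, rfl, a3⟩ := ih t (by simp at hz; omega)
        (h.of fun M hM a b c => ⟨a, b, hM.app b c⟩)
      exact ⟨y ++ s, g, (Star.of_mem (by simp)).append a1, by simp, a3⟩
    · exact ⟨[], z, Star.nil _, rfl, Or.inr e⟩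

theorem strip (x : List A) (hx : x ≠ []) : ∀ n : ℕ, ∀ w : List A, w.length ≤ n →
    ∃ i g, w = pw x i ++ g ∧ ¬ x <+: g := by
  have lx := List.length_pos_iff.2 hx
  intro n
  induction n with
  | zero =>
    intro w hw
    refine ⟨0, w, rfl, fun h => ?_⟩
    have := h.length_le
    omega
  | succ n ih =>
    intro w hw
    by_cases h : x <+: w
    · obtain ⟨t, rfl⟩ := h
      obtain ⟨i, g, rfl, h2⟩ := ih t (by simp at hw; omega)
      exact ⟨i + 1, g, by simp [pw_succ], h2⟩
    · exact ⟨0, w, rfl, h⟩

end Pool.Agent.Lib.MP_5364dc_lc
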